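import Pool.Agent.Work.MP_0863b8_nt.Bd.B01

/-!
MP_0863b8_nt: the density of the bad pairs.
-/

namespace Pool.Agent.MP_0863b8.F

open MeasureTheory Filter

theorem nd_add_intCast (x : ℝ) (m : ℤ) : nd (x + m) = nd x := by
  unfold nd
  rw [round_add_intCast]
  push_cast
  congr 1
  ring

theorem nd_hh (A B : ℕ) (δ : ℝ) : nd (hh (A, B) * δ) = nd ((B : ℝ) * δ - A * δ) := by
  unfold hh
  have h1 : ((Int.natAbs ((A : ℤ) - B) : ℕ) : ℝ) = |(A : ℝ) - B| := by
    rw [Nat.cast_natAbs]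
    push_cast
    rfl
  simp only [h1]
  rcases le_total (0 : ℝ) ((A : ℝ) - B) with h | h
  · rw [abs_of_nonneg h, ← nd_neg]
    congr 1
    ring
  · rw [abs_of_nonpos h]
    congr 1
    ring

/-- counting on a line: slow rotation -/
theorem lineSlow (h1 : SlowRot) (μ θ ξ ω : ℝ) (r T : ℕ) (M : ℤ) (hμ : 0 < μ) (hμ8 : μ ≤ 1 / 8)
    (hr : 1 ≤ r) (hrθ : (r : ℝ) * θ = M + ω) (hω : |ω| ≤ μ) (hω2 : μ ^ 2 / 8 * r ≤ T * |ω|)
    (hT : 2 / μ * r ≤ T) :
    (((Finset.Ico T (2 * T)).filter (fun z : ℕ => nd (z * θ - ξ) < 2 * μ ^ 3)).card : ℝ) ≤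
      100 * μ * (T + r) := by
  classical
  set I : ℕ := (T + r - 1) / r with hI
  have hr0 : (0 : ℝ) < r := by exact_mod_cast hr
  have hrI : T ≤ r * I := by
    have h2 := Nat.div_add_mod (T + r - 1) r
    have h3 := Nat.mod_lt (T + r - 1) (show r > 0 by omega)
    rw [← hI] at h2
    omega
  have hrI2 : r * I ≤ T + r := by
    have := Nat.mul_div_le (T + r - 1) r
    rw [← hI] at this
    omega
  have hrIR : (T : ℝ) ≤ r * I := by exact_mod_cast hrI
  have hrI2R : (r : ℝ) * I ≤ T + r := by exact_mod_cast hrI2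
  set c : ℕ → ℝ := fun j => ((T : ℝ) + j) * θ - ξ with hc
  have hsub : (Finset.Ico T (2 * T)).filter (fun z : ℕ => nd (z * θ - ξ) < 2 * μ ^ 3) ⊆
      (Finset.range r).biUnion (fun j =>
        ((Finset.range I).filter (fun i : ℕ => nd (c j + i * ω) < 2 * μ ^ 3)).image
          (fun i => T + j + r * i)) := by
    intro z hz
    rw [Finset.mem_filter, Finset.mem_Ico] at hz
    obtain ⟨⟨hz1, hz2⟩, hz3⟩ := hz
    have h2 := Nat.div_add_mod (z - T) r
    have h3 := Nat.mod_lt (z - T) (show r > 0 by omega)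
    rw [Finset.mem_biUnion]
    refine ⟨(z - T) % r, Finset.mem_range.2 h3, ?_⟩
    rw [Finset.mem_image]
    have h4 : T + (z - T) % r + r * ((z - T) / r) = z := by omega
    refine ⟨(z - T) / r, ?_, h4⟩
    rw [Finset.mem_filter, Finset.mem_range]
    constructor
    · have h5 : r * ((z - T) / r) < r * I := by omega
      exact Nat.lt_of_mul_lt_mul_left h5
    · have h7 : (z : ℝ) = T + ((z - T) % r : ℕ) + r * ((z - T) / r : ℕ) := by
        exact_mod_cast h4.symm
      clear h4 h2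
      generalize (z - T) / r = i at h7 ⊢
      have h6 : c ((z - T) % r) + (i : ℝ) * ω =
          (z * θ - ξ) + ((-(i : ℤ) * M : ℤ) : ℝ) := by
        simp only [hc]
        rw [h7]
        push_cast
        linear_combination (-(i : ℝ)) * hrθ
      rw [h6, nd_add_intCast]
      exact hz3
  have hcard := Finset.card_le_card hsub
  have h2 : ∀ j ∈ Finset.range r,
      (((((Finset.range I).filter (fun i : ℕ => nd (c j + i * ω) < 2 * μ ^ 3)).image
          (fun i => T + j + r * i)).card : ℕ) : ℝ) ≤ 100 * μ * I := by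
    intro j _
    refine le_trans (Nat.cast_le.2 Finset.card_image_le) ?_
    refine h1 μ (c j) ω I hμ hμ8 hω ?_ ?_
    · have h3 : μ ^ 2 / 8 * r ≤ (I * |ω|) * r := by
        refine hω2.trans ?_
        calc (T : ℝ) * |ω| ≤ (r * I) * |ω| := mul_le_mul_of_nonneg_right hrIR (abs_nonneg _)
          _ = _ := by ring
      exact le_of_mul_le_mul_right h3 hr0
    · have h3 : 2 / μ * r ≤ I * r := by
        refine hT.trans (hrIR.trans (le_of_eq (by ring)))
      exact le_of_mul_le_mul_right h3 hr0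
  calc (((Finset.Ico T (2 * T)).filter (fun z : ℕ => nd (z * θ - ξ) < 2 * μ ^ 3)).card : ℝ)
      ≤ (((Finset.range r).biUnion (fun j =>
        ((Finset.range I).filter (fun i : ℕ => nd (c j + i * ω) < 2 * μ ^ 3)).image
          (fun i => T + j + r * i))).card : ℝ) := by exact_mod_cast hcard
    _ ≤ ∑ j ∈ Finset.range r,
        (((((Finset.range I).filter (fun i : ℕ => nd (c j + i * ω) < 2 * μ ^ 3)).image
          (fun i => T + j + r * i)).card : ℕ) : ℝ) := by
        exact_mod_cast Finset.card_biUnion_le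
    _ ≤ ∑ _j ∈ Finset.range r, 100 * μ * I := Finset.sum_le_sum h2
    _ = 100 * μ * (r * I) := by
        rw [Finset.sum_const, Finset.card_range, nsmul_eq_mul]
        ring
    _ ≤ 100 * μ * (T + r) := by gcongr

theorem box_left (s t : ℕ) (P : ℕ → ℕ → Prop) [∀ x y, Decidable (P x y)] (K : ℝ)
    (h : ∀ z1 ∈ Finset.Ico (2 ^ s) (2 ^ (s + 1)),
      (((Finset.Ico (2 ^ t) (2 ^ (t + 1))).filter (fun z2 => P z1 z2)).card : ℝ) ≤ K) :
    (((box s t).filter (fun z => P z.1 z.2)).card : ℝ) ≤ 2 ^ s * K := by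
  have h1 : ((box s t).filter (fun z => P z.1 z.2)).card =
      ∑ z1 ∈ Finset.Ico (2 ^ s) (2 ^ (s + 1)),
        ((Finset.Ico (2 ^ t) (2 ^ (t + 1))).filter (fun z2 => P z1 z2)).card := by
    rw [Finset.card_filter]
    unfold box
    rw [Finset.sum_product]
    exact Finset.sum_congr rfl fun z1 _ => (Finset.card_filter _ _).symm
  rw [h1]
  push_cast
  refine (Finset.sum_le_sum h).trans (le_of_eq ?_)
  rw [Finset.sum_const, Nat.card_Ico, nsmul_eq_mul]
  congr 1
  have : 2 ^ (s + 1) - 2 ^ s = 2 ^ s := by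
    rw [pow_succ]
    omega
  rw [this]
  push_cast
  rfl

theorem box_right (s t : ℕ) (P : ℕ → ℕ → Prop) [∀ x y, Decidable (P x y)] (K : ℝ)
    (h : ∀ z2 ∈ Finset.Ico (2 ^ t) (2 ^ (t + 1)),
      (((Finset.Ico (2 ^ s) (2 ^ (s + 1))).filter (fun z1 => P z1 z2)).card : ℝ) ≤ K) :
    (((box s t).filter (fun z => P z.1 z.2)).card : ℝ) ≤ 2 ^ t * K := by
  have h1 : ((box s t).filter (fun z => P z.1 z.2)).card =
      ∑ z2 ∈ Finset.Ico (2 ^ t) (2 ^ (t + 1)),
        ((Finset.Ico (2 ^ s) (2 ^ (s + 1))).filter (fun z1 => P z1 z2)).card := by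
    rw [Finset.card_filter]
    unfold box
    rw [Finset.sum_product_right]
    exact Finset.sum_congr rfl fun z1 _ => (Finset.card_filter _ _).symm
  rw [h1]
  push_cast
  refine (Finset.sum_le_sum h).trans (le_of_eq ?_)
  rw [Finset.sum_const, Nat.card_Ico, nsmul_eq_mul]
  congr 1
  have : 2 ^ (t + 1) - 2 ^ t = 2 ^ t := by
    rw [pow_succ]
    omega
  rw [this]
  push_cast
  rfl

theorem ico_two (t : ℕ) : Finset.Ico (2 ^ t) (2 ^ (t + 1)) = Finset.Ico (2 ^ t) (2 * 2 ^ t) := by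
  rw [pow_succ, mul_comm]

/-- the counting on a line when `r b δ` is close to an integer -/
theorem side (h1 : SlowRot) (δ μ W ξ : ℝ) (b r t : ℕ) (hμ : 0 < μ) (hμ8 : μ ≤ 1 / 8)
    (hW : 1 ≤ W) (hb : 0 < b) (hbW : (b : ℝ) ≤ W) (ht : 4 * W / μ ^ 2 ≤ (2 : ℝ) ^ t)
    (hr : 1 ≤ r) (hrμ : (r : ℝ) ≤ 1 / μ) (hnd : nd (r * (b * δ)) < μ ^ 2 / (4 * W)) :
    ((r : ℤ) * b * round ((qmin δ (μ ^ 2 / (4 * W)) : ℝ) * δ) =
      (qmin δ (μ ^ 2 / (4 * W)) : ℤ) * round ((r : ℝ) * (b * δ))) ∧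
    (((Finset.Ico (2 ^ t) (2 ^ (t + 1))).filter (fun z : ℕ => nd (z * (b * δ) - ξ) < 2 * μ ^ 3 ∧
      μ ^ 2 / 4 ≤ b * z * |δ - round ((qmin δ (μ ^ 2 / (4 * W)) : ℝ) * δ) /
        (qmin δ (μ ^ 2 / (4 * W)) : ℝ)|)).card : ℝ) ≤ 200 * μ * 2 ^ t := by
  classical
  have hε : 0 < μ ^ 2 / (4 * W) := by positivity
  obtain ⟨hq1, hqk, hqmin, hqp⟩ := qmin_spec δ (μ ^ 2 / (4 * W)) hε
  set ε := μ ^ 2 / (4 * W) with hεd
  set q := qmin δ ε with hq
  set p : ℤ := round ((q : ℝ) * δ) with hp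
  set M : ℤ := round ((r : ℝ) * (b * δ)) with hM
  set η : ℝ := δ - p / q with hη
  have hq0 : (0 : ℝ) < q := by exact_mod_cast hq1
  have hr0 : (0 : ℝ) < r := by exact_mod_cast hr
  have hb0 : (0 : ℝ) < b := by exact_mod_cast hb
  have hW0 : (0 : ℝ) < W := by linarith
  have hrb : (r : ℝ) * b ≤ W / μ := by
    calc (r : ℝ) * b ≤ (1 / μ) * W := by gcongr
      _ = W / μ := by ring
  have hqrb : q ≤ r * b := by
    refine hqmin (r * b) (Nat.mul_pos hr hb) ?_
    push_cast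
    rw [mul_assoc]
    exact hnd
  have hqrbR : (q : ℝ) ≤ r * b := by exact_mod_cast hqrb
  have he1 : |(r : ℝ) * (b * δ) - M| < ε := hnd
  have he2 : |(q : ℝ) * δ - p| < ε := hqk
  have hWε : W / μ * ε = μ / 4 := by
    rw [hεd]
    field_simp
  have hmain : ((r : ℤ) * b * p = (q : ℤ) * M) := by
    have h2 : |((r : ℝ) * b * p - q * M)| < 1 := by
      have h3 : (r : ℝ) * b * p - q * M =
          q * ((r : ℝ) * (b * δ) - M) - (r * b) * ((q : ℝ) * δ - p) := by ring
      rw [h3]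
      calc |(q : ℝ) * ((r : ℝ) * (b * δ) - M) - (r * b) * ((q : ℝ) * δ - p)|
          ≤ |(q : ℝ) * ((r : ℝ) * (b * δ) - M)| + |(r * b : ℝ) * ((q : ℝ) * δ - p)| := abs_sub _ _
        _ = q * |(r : ℝ) * (b * δ) - M| + (r * b) * |(q : ℝ) * δ - p| := by
            rw [abs_mul, abs_mul, abs_of_pos hq0, abs_of_pos (by positivity : (0:ℝ) < r * b)]
        _ ≤ (W / μ) * ε + (W / μ) * ε := by
            refine add_le_add ?_ ?_
            · exact mul_le_mul (hqrbR.trans hrb) he1.le (abs_nonneg _) (by positivity)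
            · exact mul_le_mul hrb he2.le (abs_nonneg _) (by positivity)
        _ < 1 := by rw [hWε]; linarith
    have h4 : |(r : ℤ) * b * p - (q : ℤ) * M| < 1 := by exact_mod_cast h2
    have h5 := Int.abs_lt_one_iff.1 h4
    linarith
  refine ⟨hmain, ?_⟩
  have hmainR : (r : ℝ) * b * p = q * M := by exact_mod_cast hmain
  set ω : ℝ := r * b * η with hω
  have hrθ : (r : ℝ) * (b * δ) = M + ω := by
    rw [hω, hη]
    field_simp
    linear_combination hmainR
  have hηq : q * |η| < ε := by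
    have h2 : q * |η| = |(q : ℝ) * δ - p| := by
      rw [← abs_of_pos hq0, ← abs_mul, abs_of_pos hq0, hη]
      congr 1
      field_simp
    rw [h2]
    exact he2
  have hηε : |η| ≤ ε := by
    have h2 : (1 : ℝ) ≤ q := by exact_mod_cast hq1
    nlinarith [abs_nonneg η]
  have hωa : |ω| = r * b * |η| := by
    rw [hω, abs_mul, abs_of_pos (by positivity : (0:ℝ) < r * b)]
  have hωμ : |ω| ≤ μ := by
    rw [hωa]
    calc (r : ℝ) * b * |η| ≤ (W / μ) * ε := mul_le_mul hrb hηε (abs_nonneg _) (by positivity)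
      _ = μ / 4 := hWε
      _ ≤ μ := by linarith
  have hrT : (r : ℝ) ≤ 2 ^ t := by
    refine hrμ.trans (le_trans ?_ ht)
    rw [div_le_div_iff₀ hμ (by positivity)]
    nlinarith
  by_cases hc : μ ^ 2 / 8 ≤ (2 : ℝ) ^ t * (b * |η|)
  · have h2 := lineSlow h1 μ (b * δ) ξ ω r (2 ^ t) M hμ hμ8 hr hrθ hωμ
      (by
        rw [hωa]
        push_cast
        calc μ ^ 2 / 8 * r ≤ ((2 : ℝ) ^ t * (b * |η|)) * r := by gcongr
          _ = _ := by ring)
      (by
        push_cast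
        refine le_trans ?_ ht
        calc 2 / μ * r ≤ 2 / μ * (1 / μ) := by gcongr
          _ = 2 / μ ^ 2 := by field_simp
          _ ≤ 4 * W / μ ^ 2 := by gcongr; linarith)
    rw [← ico_two] at h2
    refine le_trans ?_ (h2.trans ?_)
    · have h3 : (Finset.Ico (2 ^ t) (2 ^ (t + 1))).filter (fun z : ℕ =>
          nd (z * (b * δ) - ξ) < 2 * μ ^ 3 ∧ μ ^ 2 / 4 ≤ b * z * |η|) ⊆
          (Finset.Ico (2 ^ t) (2 ^ (t + 1))).filter (fun z : ℕ =>
          nd (z * (b * δ) - ξ) < 2 * μ ^ 3) := by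
        intro z hz
        rw [Finset.mem_filter] at hz ⊢
        exact ⟨hz.1, hz.2.1⟩
      exact_mod_cast Finset.card_le_card h3
    · push_cast
      nlinarith
  · push Not at hc
    have h2 : (Finset.Ico (2 ^ t) (2 ^ (t + 1))).filter (fun z : ℕ =>
        nd (z * (b * δ) - ξ) < 2 * μ ^ 3 ∧ μ ^ 2 / 4 ≤ b * z * |η|) = ∅ := by
      rw [Finset.filter_eq_empty_iff]
      intro z hz hcon
      rw [Finset.mem_Ico] at hz
      have h3 : (z : ℝ) ≤ 2 * 2 ^ t := by
        have : z ≤ 2 * 2 ^ t := by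
          have := hz.2
          rw [pow_succ] at this
          omega
        exact_mod_cast this
      have h4 : (b : ℝ) * z * |η| ≤ 2 * (2 ^ t * (b * |η|)) := by
        calc (b : ℝ) * z * |η| ≤ b * (2 * 2 ^ t) * |η| := by gcongr
          _ = _ := by ring
      linarith [hcon.2]
    rw [h2]
    simp only [Finset.card_empty, Nat.cast_zero]
    positivity

theorem badDens (h1 : SlowRot) (h2 : FastRot) : BadDens := by
  classical
  intro δ μ W hμ hμ8 hW a b s t ha hb habW hs ht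
  have hW0 : (0 : ℝ) < W := by linarith
  have hε : 0 < μ ^ 2 / (4 * W) := by positivity
  have ha1 : (1 : ℝ) ≤ a := by exact_mod_cast ha
  have hb1 : (1 : ℝ) ≤ b := by exact_mod_cast hb
  have haW : (a : ℝ) ≤ W := by nlinarith
  have hbW : (b : ℝ) ≤ W := by nlinarith
  have hε3 : μ ^ 2 / (4 * W) ≤ μ ^ 2 / 3 := by gcongr; linarith
  have hεinv : 1 / (μ ^ 2 / (4 * W)) = 4 * W / μ ^ 2 := by
    field_simp
  have hndL : ∀ z1 z2 : ℕ, nd (hh (a * z1, b * z2) * δ) = nd ((z2 : ℝ) * (b * δ) - a * z1 * δ) := by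
    intro z1 z2
    rw [nd_hh]
    congr 1
    push_cast
    ring
  have hndR : ∀ z1 z2 : ℕ, nd (hh (a * z1, b * z2) * δ) = nd ((z1 : ℝ) * (a * δ) - b * z2 * δ) := by
    intro z1 z2
    rw [nd_hh, ← nd_neg]
    congr 1
    push_cast
    ring
  by_cases cb : ∀ r : ℕ, 1 ≤ r → (r : ℝ) ≤ 1 / μ → μ ^ 2 / (4 * W) ≤ nd (r * (b * δ))
  · have h3 := box_left s t (fun z1 z2 => (a * z1, b * z2) ∈ Bad δ μ W) (200 * μ * 2 ^ t) (by
      intro z1 _
      have h4 := h2 μ (μ ^ 2 / (4 * W)) (b * δ) (a * z1 * δ) (2 ^ t) hμ hμ8 hε hε3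
        (by rw [hεinv]; exact_mod_cast ht) cb
      rw [← ico_two] at h4
      push_cast at h4
      refine le_trans ?_ h4
      norm_cast
      apply Finset.card_le_card
      intro z hz
      rw [Finset.mem_filter] at hz ⊢
      refine ⟨hz.1, ?_⟩
      have h5 := hz.2.2.1
      rw [hndL] at h5
      exact_mod_cast h5)
    refine h3.trans ?_
    have : (0 : ℝ) < 2 ^ s * 2 ^ t := by positivity
    nlinarith
  by_cases ca : ∀ r : ℕ, 1 ≤ r → (r : ℝ) ≤ 1 / μ → μ ^ 2 / (4 * W) ≤ nd (r * (a * δ))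
  · have h3 := box_right s t (fun z1 z2 => (a * z1, b * z2) ∈ Bad δ μ W) (200 * μ * 2 ^ s) (by
      intro z2 _
      have h4 := h2 μ (μ ^ 2 / (4 * W)) (a * δ) (b * z2 * δ) (2 ^ s) hμ hμ8 hε hε3
        (by rw [hεinv]; exact_mod_cast hs) ca
      rw [← ico_two] at h4
      push_cast at h4
      refine le_trans ?_ h4
      norm_cast
      apply Finset.card_le_card
      intro z hz
      rw [Finset.mem_filter] at hz ⊢
      refine ⟨hz.1, ?_⟩
      have h5 := hz.2.2.1
      rw [hndR] at h5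
      exact_mod_cast h5)
    refine h3.trans ?_
    have : (0 : ℝ) < 2 ^ s * 2 ^ t := by positivity
    nlinarith
  push Not at cb ca
  obtain ⟨rb, hrb1, hrbμ, hrbnd⟩ := cb
  obtain ⟨ra, hra1, hraμ, hrand⟩ := ca
  obtain ⟨hq1, hqk, hqmin, hqp⟩ := qmin_spec δ (μ ^ 2 / (4 * W)) hε
  have hsideb := side h1 δ μ W
  have hsb := fun ξ => side h1 δ μ W ξ b rb t hμ hμ8 hW hb hbW ht hrb1 hrbμ hrbnd
  have hsa := fun ξ => side h1 δ μ W ξ a ra s hμ hμ8 hW ha haW hs hra1 hraμ hrand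
  have hdb := (hsb 0).1
  have hda := (hsa 0).1
  replace hsb := fun ξ => (hsb ξ).2
  replace hsa := fun ξ => (hsa ξ).2
  set q := qmin δ (μ ^ 2 / (4 * W)) with hq
  set p : ℤ := round ((q : ℝ) * δ) with hp
  set η : ℝ := δ - p / q with hη
  have hq0 : (0 : ℝ) < q := by exact_mod_cast hq1
  set Mb : ℤ := round ((rb : ℝ) * (b * δ)) with hMb
  set Ma : ℤ := round ((ra : ℝ) * (a * δ)) with hMa
  -- bad pairs have a large coordinate
  have hlarge : ∀ z1 z2 : ℕ, (a * z1, b * z2) ∈ Bad δ μ W →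
      μ ^ 2 / 4 ≤ b * z2 * |η| ∨ μ ^ 2 / 4 ≤ a * z1 * |η| := by
    intro z1 z2 hz
    by_contra hcon
    push Not at hcon
    obtain ⟨hz1, hz2, hz3⟩ := hz
    apply hz3
    have hmax : ((max (a * z1) (b * z2) : ℕ) : ℝ) * |η| < μ ^ 2 / 4 := by
      rcases max_choice (a * z1) (b * z2) with h | h
      · rw [h]; push_cast; exact hcon.2
      · rw [h]; push_cast; exact hcon.1
    refine ⟨?_, hmax⟩
    set H : ℕ := hh (a * z1, b * z2) with hH
    set N : ℤ := round ((H : ℝ) * δ) with hN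
    have hHabs : (H : ℝ) = |(a : ℝ) * z1 - b * z2| := by
      rw [hH]
      unfold hh
      rw [Nat.cast_natAbs]
      push_cast
      rfl
    have hHmax : (H : ℝ) ≤ (max (a * z1) (b * z2) : ℕ) := by
      rw [hH]
      unfold hh
      have : Int.natAbs (((a * z1 : ℕ) : ℤ) - ((b * z2 : ℕ) : ℤ)) ≤ max (a * z1) (b * z2) := by
        rcases le_total (a * z1) (b * z2) with h | h
        · rw [max_eq_right h]; omega
        · rw [max_eq_left h]; omega
      exact_mod_cast this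
    have hHη : |(H : ℝ) * η| < μ ^ 2 / 4 := by
      rw [abs_mul, abs_of_nonneg (by positivity : (0:ℝ) ≤ H)]
      exact lt_of_le_of_lt (mul_le_mul_of_nonneg_right hHmax (abs_nonneg _)) hmax
    have hN1 : |(H : ℝ) * δ - N| < 2 * μ ^ 3 := hz2
    have h3 : |(H : ℝ) * p / q - N| < μ ^ 2 / 2 := by
      have h4 : (H : ℝ) * p / q - N = ((H : ℝ) * δ - N) - H * η := by
        rw [hη]
        field_simp
        ring
      rw [h4]
      calc |((H : ℝ) * δ - N) - H * η| ≤ |(H : ℝ) * δ - N| + |(H : ℝ) * η| := abs_sub _ _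
        _ < 2 * μ ^ 3 + μ ^ 2 / 4 := add_lt_add hN1 hHη
        _ ≤ μ ^ 2 / 2 := by
            have : 2 * μ ^ 3 ≤ μ ^ 2 / 4 := by
              calc 2 * μ ^ 3 = 2 * μ ^ 2 * μ := by ring
                _ ≤ 2 * μ ^ 2 * (1 / 8) := by gcongr
                _ = μ ^ 2 / 4 := by ring
            linarith
    -- the integer `X` with `ra rb H p = q X`
    obtain ⟨X, hX⟩ : ∃ X : ℤ, (ra : ℤ) * rb * H * p = q * X := by
      rcases le_total ((a : ℝ) * z1) (b * z2) with h | h
      · refine ⟨ra * z2 * Mb - rb * z1 * Ma, ?_⟩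
        have h5 : (H : ℤ) = b * z2 - a * z1 := by
          have : (H : ℝ) = b * z2 - a * z1 := by
            rw [hHabs, abs_of_nonpos (by linarith)]; ring
          exact_mod_cast this
        rw [h5]
        linear_combination (ra : ℤ) * z2 * hdb - rb * z1 * hda
      · refine ⟨rb * z1 * Ma - ra * z2 * Mb, ?_⟩
        have h5 : (H : ℤ) = a * z1 - b * z2 := by
          have : (H : ℝ) = a * z1 - b * z2 := by
            rw [hHabs, abs_of_nonneg (by linarith)]
          exact_mod_cast this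
        rw [h5]
        linear_combination (rb : ℤ) * z1 * hda - ra * z2 * hdb
    have hXR : (ra : ℝ) * rb * H * p = q * X := by exact_mod_cast hX
    have hra0 : (0 : ℝ) < ra := by exact_mod_cast hra1
    have hrb0 : (0 : ℝ) < rb := by exact_mod_cast hrb1
    have h6 : |((X : ℝ) - ra * rb * N)| < 1 := by
      have h7 : (X : ℝ) - ra * rb * N = (ra * rb) * ((H : ℝ) * p / q - N) := by
        field_simp
        linear_combination -hXR
      rw [h7, abs_mul, abs_of_pos (by positivity : (0:ℝ) < ra * rb)]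
      calc (ra : ℝ) * rb * |(H : ℝ) * p / q - N| ≤ (1 / μ * (1 / μ)) * (μ ^ 2 / 2) := by
            refine mul_le_mul ?_ h3.le (abs_nonneg _) (by positivity)
            exact mul_le_mul hraμ hrbμ hrb0.le (by positivity)
        _ = 1 / 2 := by field_simp
        _ < 1 := by norm_num
    have h8 : |X - (ra : ℤ) * rb * N| < 1 := by exact_mod_cast h6
    have h9 := Int.abs_lt_one_iff.1 h8
    have h10 : ((ra : ℤ) * rb) * (N * q) = ((ra : ℤ) * rb) * (H * p) := by
      linear_combination -hX - q * h9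
    have h11 : ((ra : ℤ) * rb) ≠ 0 := by positivity
    exact mul_left_cancel₀ h11 h10
  -- count
  have hL := box_left s t (fun z1 z2 => nd ((z2 : ℝ) * (b * δ) - a * z1 * δ) < 2 * μ ^ 3 ∧
      μ ^ 2 / 4 ≤ b * z2 * |η|) (200 * μ * 2 ^ t) (fun z1 _ => hsb (a * z1 * δ))
  have hR := box_right s t (fun z1 z2 => nd ((z1 : ℝ) * (a * δ) - b * z2 * δ) < 2 * μ ^ 3 ∧
      μ ^ 2 / 4 ≤ a * z1 * |η|) (200 * μ * 2 ^ s) (fun z2 _ => hsa (b * z2 * δ))
  have hsub : (box s t).filter (fun z => (a * z.1, b * z.2) ∈ Bad δ μ W) ⊆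
      (box s t).filter (fun z => nd ((z.2 : ℝ) * (b * δ) - a * z.1 * δ) < 2 * μ ^ 3 ∧
        μ ^ 2 / 4 ≤ b * z.2 * |η|) ∪
      (box s t).filter (fun z => nd ((z.1 : ℝ) * (a * δ) - b * z.2 * δ) < 2 * μ ^ 3 ∧
        μ ^ 2 / 4 ≤ a * z.1 * |η|) := by
    intro z hz
    rw [Finset.mem_filter] at hz
    obtain ⟨hz1, hz2⟩ := hz
    rw [Finset.mem_union, Finset.mem_filter, Finset.mem_filter]
    rcases hlarge z.1 z.2 hz2 with h | h
    · left
      exact ⟨hz1, by rw [← hndL]; exact hz2.2.1, h⟩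
    · right
      exact ⟨hz1, by rw [← hndR]; exact hz2.2.1, h⟩
  have hcard := (Finset.card_le_card hsub).trans (Finset.card_union_le _ _)
  have hcardR : (((box s t).filter (fun z => (a * z.1, b * z.2) ∈ Bad δ μ W)).card : ℝ) ≤
      (((box s t).filter (fun z => nd ((z.2 : ℝ) * (b * δ) - a * z.1 * δ) < 2 * μ ^ 3 ∧
        μ ^ 2 / 4 ≤ b * z.2 * |η|)).card : ℝ) +
      (((box s t).filter (fun z => nd ((z.1 : ℝ) * (a * δ) - b * z.2 * δ) < 2 * μ ^ 3 ∧
        μ ^ 2 / 4 ≤ a * z.1 * |η|)).card : ℝ) := by exact_mod_cast hcard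
  refine hcardR.trans ((add_le_add hL hR).trans (le_of_eq ?_))
  ring

end Pool.Agent.MP_0863b8.F
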