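import Pool.Agent.Work.MP_0863b8_nt.Bd.B01

/-!
MP_0863b8_nt, F4: the base case.
-/

namespace Pool.Agent.MP_0863b8.F

private lemma base_nine {a b : ℝ} (ha : 0 ≤ a) (hb : 0 ≤ b) (ha1 : a ≤ 1) (hb1 : b ≤ 1) :
    (a * b) ^ ((5:ℝ)/9) ≤ (a + b) / 2 := by
  have hab : 0 ≤ a * b := mul_nonneg ha hb
  have hab1 : a * b ≤ 1 := mul_le_one₀ ha1 hb hb1
  have h1 : (a * b) ^ ((5:ℝ)/9) ≤ (a * b) ^ ((1:ℝ)/2) :=
    Real.rpow_le_rpow_of_exponent_ge' hab hab1 (by norm_num) (by norm_num)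
  rw [← Real.sqrt_eq_rpow] at h1
  refine h1.trans ?_
  rw [Real.sqrt_le_left (by linarith)]
  nlinarith [sq_nonneg (a - b)]

private lemma base_sum (S : Finset ℕ) (x y : ℕ → ℝ) (X Y : ℝ) (hx : ∀ i, 0 ≤ x i)
    (hy : ∀ i, 0 ≤ y i) (hX : ∑ i ∈ S, x i ≤ X) (hY : ∑ i ∈ S, y i ≤ Y) :
    ∑ i ∈ S, (x i * y i) ^ ((5:ℝ)/9) ≤ (X * Y) ^ ((5:ℝ)/9) := by
  have hx1 : ∀ i ∈ S, x i ≤ X := fun i hi =>
    (Finset.single_le_sum (fun j _ => hx j) hi).trans hX
  have hy1 : ∀ i ∈ S, y i ≤ Y := fun i hi =>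
    (Finset.single_le_sum (fun j _ => hy j) hi).trans hY
  have hX0 : 0 ≤ X := (Finset.sum_nonneg fun i _ => hx i).trans hX
  have hY0 : 0 ≤ Y := (Finset.sum_nonneg fun i _ => hy i).trans hY
  rcases hX0.eq_or_lt with hX' | hX'
  · have : ∀ i ∈ S, (x i * y i) ^ ((5:ℝ)/9) = 0 := by
      intro i hi
      have : x i = 0 := le_antisymm (by rw [hX']; exact hx1 i hi) (hx i)
      rw [this, zero_mul, Real.zero_rpow (by norm_num)]
    rw [Finset.sum_eq_zero this]
    positivity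
  rcases hY0.eq_or_lt with hY' | hY'
  · have : ∀ i ∈ S, (x i * y i) ^ ((5:ℝ)/9) = 0 := by
      intro i hi
      have : y i = 0 := le_antisymm (by rw [hY']; exact hy1 i hi) (hy i)
      rw [this, mul_zero, Real.zero_rpow (by norm_num)]
    rw [Finset.sum_eq_zero this]
    positivity
  have hterm : ∀ i ∈ S, (x i * y i) ^ ((5:ℝ)/9) ≤
      (X * Y) ^ ((5:ℝ)/9) * ((x i / X + y i / Y) / 2) := by
    intro i hi
    have h1 := base_nine (div_nonneg (hx i) hX'.le) (div_nonneg (hy i) hY'.le)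
      ((div_le_one hX').2 (hx1 i hi)) ((div_le_one hY').2 (hy1 i hi))
    have h2 : x i * y i = (X * Y) * (x i / X * (y i / Y)) := by
      field_simp
    rw [h2, Real.mul_rpow (by positivity)
      (mul_nonneg (div_nonneg (hx i) hX'.le) (div_nonneg (hy i) hY'.le))]
    exact mul_le_mul_of_nonneg_left h1 (by positivity)
  refine (Finset.sum_le_sum hterm).trans ?_
  rw [← Finset.mul_sum]
  have h3 : ∑ i ∈ S, (x i / X + y i / Y) / 2 ≤ 1 := by
    rw [← Finset.sum_div, Finset.sum_add_distrib, ← Finset.sum_div, ← Finset.sum_div]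
    have h4 : (∑ i ∈ S, x i) / X ≤ 1 := (div_le_one hX').2 hX
    have h5 : (∑ i ∈ S, y i) / Y ≤ 1 := (div_le_one hY').2 hY
    linarith
  calc (X * Y) ^ ((5:ℝ)/9) * ∑ i ∈ S, (x i / X + y i / Y) / 2
      ≤ (X * Y) ^ ((5:ℝ)/9) * 1 := mul_le_mul_of_nonneg_left h3 (by positivity)
    _ = _ := mul_one _

private lemma base_class_sum (V : Finset ℕ) (n : ℕ) :
    ∑ s ∈ Finset.range n, ms (V.filter (fun v => Nat.log 2 v = s)) ≤ ms V := by
  classical
  unfold ms
  have h : ∑ s ∈ Finset.range n, ∑ v ∈ V.filter (fun v => Nat.log 2 v = s), (v : ℝ) =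
      ∑ v ∈ V.filter (fun v => Nat.log 2 v < n), (v : ℝ) := by
    rw [← Finset.sum_fiberwise_of_maps_to (s := V.filter (fun v => Nat.log 2 v < n))
      (t := Finset.range n) (g := fun v => Nat.log 2 v)]
    · apply Finset.sum_congr rfl
      intro s hs
      apply Finset.sum_congr _ fun _ _ => rfl
      ext v
      simp only [Finset.mem_filter]
      rw [Finset.mem_range] at hs
      constructor
      · rintro ⟨h1, h2⟩
        exact ⟨⟨h1, by omega⟩, h2⟩
      · rintro ⟨⟨h1, _⟩, h2⟩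
        exact ⟨h1, h2⟩
    · intro v hv
      exact Finset.mem_range.2 (Finset.mem_filter.1 hv).2
  rw [h]
  exact Finset.sum_le_sum_of_subset_of_nonneg (Finset.filter_subset _ _)
    fun v _ _ => Nat.cast_nonneg v

theorem base : BaseF := by
  classical
  intro V W Q K L σ hK hL hV hW hQ
  have hmsV : ∀ U : Finset ℕ, 0 ≤ ms U := fun U => Finset.sum_nonneg fun v _ => Nat.cast_nonneg v
  have hpot : 0 ≤ pot K L V W := by
    unfold pot
    have := hmsV V
    have := hmsV W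
    positivity
  obtain ⟨A, hA⟩ : ∃ A : Finset (ℕ × ℕ), A = (V ×ˢ W).filter
      (fun t => L / 2 < ((t.1.lcm t.2 : ℕ) : ℝ) ∧
      ((t.1.lcm t.2 : ℕ) : ℝ) ≤ L ∧ (t.1 / t.1.gcd t.2, t.2 / t.1.gcd t.2) ∈ Q ∧
      ∀ p ∈ (t.1.gcd t.2).primeFactors, p ∈ (∅ : Set ℕ)) := ⟨_, rfl⟩
  have hen : en ∅ V W L Q = ∑ t ∈ A, (t.1 : ℝ) * t.2 := by
    unfold en
    rw [hA]
    apply Finset.sum_congr _ fun _ _ => rfl
    ext t
    simp only [Finset.mem_filter]
  rw [hen]
  -- the elements of `A`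
  have hAm : ∀ t ∈ A, t.1 ∈ V ∧ t.2 ∈ W ∧ L / 2 < (t.1 : ℝ) * t.2 ∧ (t.1 : ℝ) * t.2 ≤ L ∧
      t ∈ Q := by
    intro t ht
    rw [hA, Finset.mem_filter, Finset.mem_product] at ht
    obtain ⟨⟨h1, h2⟩, h3, h4, h5, h6⟩ := ht
    have hg : t.1.gcd t.2 = 1 := by
      have h7 : (t.1.gcd t.2).primeFactors = ∅ := by
        rw [Finset.eq_empty_iff_forall_notMem]
        exact fun p hp => h6 p hp
      rw [Nat.primeFactors_eq_empty] at h7
      rcases h7 with h7 | h7
      · have := hV _ h1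
        have := Nat.gcd_pos_of_pos_left t.2 this
        omega
      · exact h7
    have hlcm : ((t.1.lcm t.2 : ℕ) : ℝ) = (t.1 : ℝ) * t.2 := by
      have h8 := Nat.gcd_mul_lcm t.1 t.2
      rw [hg, one_mul] at h8
      rw [h8]
      push_cast
      ring
    rw [hlcm] at h3 h4
    rw [hg, Nat.div_one, Nat.div_one] at h5
    exact ⟨h1, h2, h3, h4, h5⟩
  rcases hL.eq_or_lt with hL0 | hL0
  · have : A = ∅ := by
      rw [Finset.eq_empty_iff_forall_notMem]
      intro t ht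
      obtain ⟨_, _, h3, h4, _⟩ := hAm t ht
      rw [← hL0] at h3 h4
      linarith
    rw [this, Finset.sum_empty]
    linarith
  set r0 := Nat.log 2 ⌊L⌋₊ with hr0
  have hlog : ∀ t ∈ A, 2 ^ Nat.log 2 t.1 ≤ t.1 ∧ t.1 < 2 ^ (Nat.log 2 t.1 + 1) ∧
      2 ^ Nat.log 2 t.2 ≤ t.2 ∧ t.2 < 2 ^ (Nat.log 2 t.2 + 1) := by
    intro t ht
    obtain ⟨h1, h2, _⟩ := hAm t ht
    exact ⟨Nat.pow_log_le_self 2 (hV _ h1).ne', Nat.lt_pow_succ_log_self (by norm_num) _,
      Nat.pow_log_le_self 2 (hW _ h2).ne', Nat.lt_pow_succ_log_self (by norm_num) _⟩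
  have hmaps : ∀ t ∈ A, Nat.log 2 t.1 + Nat.log 2 t.2 ∈ Finset.Icc (r0 - 2) r0 := by
    intro t ht
    obtain ⟨h1, h2, h3, h4, _⟩ := hAm t ht
    obtain ⟨g1, g2, g3, g4⟩ := hlog t ht
    have hfl : t.1 * t.2 ≤ ⌊L⌋₊ := by
      apply Nat.le_floor
      push_cast
      exact h4
    have hpos : 0 < t.1 * t.2 := Nat.mul_pos (hV _ h1) (hW _ h2)
    have hfl0 : ⌊L⌋₊ ≠ 0 := by omega
    have e1 : 2 ^ (Nat.log 2 t.1 + Nat.log 2 t.2) ≤ t.1 * t.2 := by
      rw [pow_add]
      exact Nat.mul_le_mul g1 g3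
    have e2 : t.1 * t.2 < 2 ^ (Nat.log 2 t.1 + Nat.log 2 t.2 + 2) := by
      calc t.1 * t.2 < 2 ^ (Nat.log 2 t.1 + 1) * 2 ^ (Nat.log 2 t.2 + 1) :=
            Nat.mul_lt_mul'' g2 g4
        _ = _ := by rw [← pow_add]; congr 1; ring
    have e3 : 2 ^ r0 ≤ ⌊L⌋₊ := Nat.pow_log_le_self 2 hfl0
    have e4 : ⌊L⌋₊ < 2 ^ (r0 + 1) := Nat.lt_pow_succ_log_self (by norm_num) _
    have e5 : ⌊L⌋₊ < 2 * (t.1 * t.2) := by
      have h5 : (⌊L⌋₊ : ℝ) ≤ L := Nat.floor_le hL
      have h6 : (⌊L⌋₊ : ℝ) < ((2 * (t.1 * t.2) : ℕ) : ℝ) := by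
        push_cast
        linarith
      exact_mod_cast h6
    rw [Finset.mem_Icc]
    constructor
    · have h7 : 2 ^ r0 < 2 ^ (Nat.log 2 t.1 + Nat.log 2 t.2 + 3) := by
        calc 2 ^ r0 ≤ ⌊L⌋₊ := e3
          _ < 2 * (t.1 * t.2) := e5
          _ < 2 * 2 ^ (Nat.log 2 t.1 + Nat.log 2 t.2 + 2) := by omega
          _ = _ := by rw [← pow_succ']
      have := (Nat.pow_lt_pow_iff_right (by norm_num : 1 < 2)).1 h7
      omega
    · have h7 : 2 ^ (Nat.log 2 t.1 + Nat.log 2 t.2) < 2 ^ (r0 + 1) :=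
        lt_of_le_of_lt (e1.trans hfl) e4
      have := (Nat.pow_lt_pow_iff_right (by norm_num : 1 < 2)).1 h7
      omega
  set M : ℕ → ℝ := fun s => ms (V.filter (fun v => Nat.log 2 v = s)) with hM
  set N : ℕ → ℝ := fun s => ms (W.filter (fun v => Nat.log 2 v = s)) with hN
  -- one class
  have hclass : ∀ r s : ℕ, s ≤ r →
      ∑ t ∈ (A.filter (fun t => Nat.log 2 t.1 + Nat.log 2 t.2 = r)).filter
        (fun t => Nat.log 2 t.1 = s), (t.1 : ℝ) * t.2 ≤
      K ^ ((4:ℝ)/9) * L ^ ((8:ℝ)/9) * (M s * N (r - s)) ^ ((5:ℝ)/9) := by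
    intro r s hsr
    set F := (A.filter (fun t => Nat.log 2 t.1 + Nat.log 2 t.2 = r)).filter
        (fun t => Nat.log 2 t.1 = s) with hF
    have hFm : ∀ t ∈ F, t ∈ A ∧ Nat.log 2 t.1 = s ∧ Nat.log 2 t.2 = r - s := by
      intro t ht
      rw [hF, Finset.mem_filter, Finset.mem_filter] at ht
      exact ⟨ht.1.1, ht.2, by omega⟩
    set Sg := ∑ t ∈ F, (t.1 : ℝ) * t.2 with hSg
    have hSg0 : 0 ≤ Sg := Finset.sum_nonneg fun t _ => by positivity
    have b1 : Sg ≤ M s * N (r - s) := by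
      have : M s * N (r - s) = ∑ t ∈ (V.filter (fun v => Nat.log 2 v = s)) ×ˢ
          (W.filter (fun v => Nat.log 2 v = r - s)), (t.1 : ℝ) * t.2 := by
        rw [Finset.sum_product, hM, hN]
        simp only [ms]
        rw [Finset.sum_mul_sum]
      rw [this]
      apply Finset.sum_le_sum_of_subset_of_nonneg
      · intro t ht
        obtain ⟨h1, h2, h3⟩ := hFm t ht
        obtain ⟨h4, h5, _⟩ := hAm t h1
        rw [Finset.mem_product, Finset.mem_filter, Finset.mem_filter]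
        exact ⟨⟨h4, h2⟩, h5, h3⟩
      · intro t _ _
        positivity
    have b2 : Sg ≤ K * L ^ 2 := by
      rcases F.eq_empty_or_nonempty with hE | ⟨t0, ht0⟩
      · rw [hSg, hE, Finset.sum_empty]
        positivity
      have hle : ∀ t ∈ F, (t.1 : ℝ) * t.2 ≤ L := fun t ht => (hAm t (hFm t ht).1).2.2.2.1
      have h1 : Sg ≤ F.card * L := by
        have := Finset.sum_le_card_nsmul F (fun t => (t.1 : ℝ) * t.2) L hle
        rwa [nsmul_eq_mul] at this
      have h2 : (F.card : ℝ) ≤ K * ((2:ℝ) ^ s * 2 ^ (r - s)) := by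
        have h3 := hQ 1 1 one_pos one_pos s (r - s)
        simp only [Nat.cast_one, one_mul, mul_one, Real.one_rpow] at h3
        refine le_trans ?_ h3
        have h4 : F ⊆ (box s (r - s)).filter (fun z => (z.1, z.2) ∈ Q) := by
          intro t ht
          obtain ⟨h5, h6, h7⟩ := hFm t ht
          obtain ⟨g1, g2, g3, g4⟩ := hlog t h5
          rw [h6] at g1 g2
          rw [h7] at g3 g4
          rw [Finset.mem_filter]
          unfold box
          rw [Finset.mem_product, Finset.mem_Ico, Finset.mem_Ico]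
          exact ⟨⟨⟨g1, g2⟩, g3, g4⟩, (hAm t h5).2.2.2.2⟩
        exact_mod_cast Finset.card_le_card h4
      have h3 : (2:ℝ) ^ s * 2 ^ (r - s) ≤ L := by
        obtain ⟨h5, h6, h7⟩ := hFm t0 ht0
        obtain ⟨g1, g2, g3, g4⟩ := hlog t0 h5
        rw [h6] at g1
        rw [h7] at g3
        refine le_trans ?_ (hle t0 ht0)
        have g1' : (2:ℝ) ^ s ≤ t0.1 := by exact_mod_cast g1
        have g3' : (2:ℝ) ^ (r - s) ≤ t0.2 := by exact_mod_cast g3
        exact mul_le_mul g1' g3' (by positivity) (by positivity)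
      calc Sg ≤ F.card * L := h1
        _ ≤ (K * ((2:ℝ) ^ s * 2 ^ (r - s))) * L := mul_le_mul_of_nonneg_right h2 hL
        _ ≤ (K * L) * L :=
            mul_le_mul_of_nonneg_right (mul_le_mul_of_nonneg_left h3 hK) hL
        _ = K * L ^ 2 := by ring
    have hMN : 0 ≤ M s * N (r - s) := mul_nonneg (hmsV _) (hmsV _)
    calc Sg = Sg ^ ((5:ℝ)/9) * Sg ^ ((4:ℝ)/9) := by
          rw [← Real.rpow_add_of_nonneg hSg0 (by norm_num) (by norm_num)]
          norm_num
      _ ≤ (M s * N (r - s)) ^ ((5:ℝ)/9) * (K * L ^ 2) ^ ((4:ℝ)/9) := by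
          apply mul_le_mul
          · exact Real.rpow_le_rpow hSg0 b1 (by norm_num)
          · exact Real.rpow_le_rpow hSg0 b2 (by norm_num)
          · exact Real.rpow_nonneg hSg0 _
          · exact Real.rpow_nonneg hMN _
      _ = K ^ ((4:ℝ)/9) * L ^ ((8:ℝ)/9) * (M s * N (r - s)) ^ ((5:ℝ)/9) := by
          rw [Real.mul_rpow hK (by positivity), ← Real.rpow_natCast L 2, ← Real.rpow_mul hL]
          norm_num
          ring
  -- sum over the classes
  have hr : ∀ r : ℕ, ∑ t ∈ A.filter (fun t => Nat.log 2 t.1 + Nat.log 2 t.2 = r),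
      (t.1 : ℝ) * t.2 ≤ pot K L V W := by
    intro r
    rw [← Finset.sum_fiberwise_of_maps_to (t := Finset.range (r + 1))
      (g := fun t : ℕ × ℕ => Nat.log 2 t.1)]
    · calc ∑ s ∈ Finset.range (r + 1), ∑ t ∈ (A.filter (fun t => Nat.log 2 t.1 +
            Nat.log 2 t.2 = r)).filter (fun t => Nat.log 2 t.1 = s), (t.1 : ℝ) * t.2
          ≤ ∑ s ∈ Finset.range (r + 1),
            K ^ ((4:ℝ)/9) * L ^ ((8:ℝ)/9) * (M s * N (r - s)) ^ ((5:ℝ)/9) := by
            apply Finset.sum_le_sum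
            intro s hs
            exact hclass r s (by rw [Finset.mem_range] at hs; omega)
        _ = K ^ ((4:ℝ)/9) * L ^ ((8:ℝ)/9) *
            ∑ s ∈ Finset.range (r + 1), (M s * N (r - s)) ^ ((5:ℝ)/9) := by
            rw [Finset.mul_sum]
        _ ≤ K ^ ((4:ℝ)/9) * L ^ ((8:ℝ)/9) * (ms V * ms W) ^ ((5:ℝ)/9) := by
            apply mul_le_mul_of_nonneg_left _ (by positivity)
            apply base_sum _ _ _ _ _ (fun i => hmsV _) (fun i => hmsV _)
            · exact base_class_sum V (r + 1)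
            · have h8 := Finset.sum_range_reflect N (r + 1)
              have h9 : ∑ s ∈ Finset.range (r + 1), N (r - s) =
                  ∑ s ∈ Finset.range (r + 1), N s := by
                rw [← h8]
                apply Finset.sum_congr rfl
                intro s _
                congr 1
              rw [h9]
              exact base_class_sum W (r + 1)
        _ = pot K L V W := rfl
    · intro t ht
      rw [Finset.mem_filter] at ht
      rw [Finset.mem_range]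
      omega
  rw [← Finset.sum_fiberwise_of_maps_to hmaps]
  calc ∑ r ∈ Finset.Icc (r0 - 2) r0, ∑ t ∈ A.filter (fun t => Nat.log 2 t.1 +
        Nat.log 2 t.2 = r), (t.1 : ℝ) * t.2
      ≤ ∑ _r ∈ Finset.Icc (r0 - 2) r0, pot K L V W := Finset.sum_le_sum fun r _ => hr r
    _ = ((Finset.Icc (r0 - 2) r0).card : ℝ) * pot K L V W := by
        rw [Finset.sum_const, nsmul_eq_mul]
    _ ≤ 6 * pot K L V W := by
        apply mul_le_mul_of_nonneg_right _ hpot
        have : (Finset.Icc (r0 - 2) r0).card ≤ 6 := by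
          rw [Nat.card_Icc]
          omega
        exact_mod_cast this

end Pool.Agent.MP_0863b8.F
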