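import Pool.Agent.Work.MP_0863b8_nt.Bd.B01

/-!
MP_0863b8_nt, F8a: the density of the bad pairs at all dilations.
-/

namespace Pool.Agent.MP_0863b8.F

open MeasureTheory Filter

namespace DensQQItem

lemma card_box (s t : ℕ) : ((box s t).card : ℝ) = (2:ℝ) ^ s * 2 ^ t := by
  have h : (box s t).card = 2 ^ s * 2 ^ t := by
    unfold box
    rw [Finset.card_product, Nat.card_Ico, Nat.card_Ico, pow_succ, pow_succ]
    congr 1 <;> omega
  rw [h]
  push_cast
  ring

/-- a point whose first coordinate is large cannot have a small dyadic position -/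
lemma no_point (W μ : ℝ) (hμ : 0 < μ) (hW : 1 ≤ W) (a b s x : ℕ) (hb : 0 < b)
    (hab : (a:ℝ) * b ≤ W) (hs : (2:ℝ) ^ s < 4 * W / μ ^ 2) (hx : x < 2 ^ (s + 1))
    (hl : 8 * W ^ 2 / μ ^ 2 ≤ ((a * x : ℕ) : ℝ)) : False := by
  have hμ2 : 0 < μ ^ 2 := by positivity
  have h1 : (x:ℝ) ≤ 2 ^ (s + 1) := by exact_mod_cast hx.le
  have hb1 : (1:ℝ) ≤ b := by exact_mod_cast hb
  have ha0 : (0:ℝ) ≤ a := by positivity
  have h2 : (a:ℝ) ≤ W := le_trans (by nlinarith) hab
  have h3 : (x:ℝ) < 2 * (4 * W / μ ^ 2) ∨ False := by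
    left
    calc (x:ℝ) ≤ 2 ^ (s + 1) := h1
      _ = 2 * 2 ^ s := by ring
      _ < 2 * (4 * W / μ ^ 2) := by linarith
  rcases h3 with h3 | h3
  · have h4 : 0 < 8 * W ^ 2 / μ ^ 2 := by positivity
    rcases Nat.eq_zero_or_pos a with h5 | h5
    · subst h5
      simp at hl
      linarith
    · have h6 : (0:ℝ) < a := by exact_mod_cast h5
      push_cast at hl
      have h7 : (a:ℝ) * x < a * (2 * (4 * W / μ ^ 2)) := by
        exact mul_lt_mul_of_pos_left h3 h6
      have h8 : (a:ℝ) * (2 * (4 * W / μ ^ 2)) ≤ W * (2 * (4 * W / μ ^ 2)) := by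
        apply mul_le_mul_of_nonneg_right h2
        positivity
      have h9 : W * (2 * (4 * W / μ ^ 2)) = 8 * W ^ 2 / μ ^ 2 := by
        field_simp
        ring
      linarith
  · exact h3

end DensQQItem

open DensQQItem in
/-- F8a -/
theorem densQQ (h : BadDens) : DensQQ := by
  classical
  intro δ μ W σ hμ hμ8 hW hσ hμW a b ha hb s t
  have hbox := card_box s t
  have hpos : (0:ℝ) < (2:ℝ) ^ s * 2 ^ t := by positivity
  have ha1 : (1:ℝ) ≤ a := by exact_mod_cast ha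
  have hb1 : (1:ℝ) ≤ b := by exact_mod_cast hb
  have hab1 : (1:ℝ) ≤ (a:ℝ) * b := by nlinarith
  rcases lt_or_ge W ((a:ℝ) * b) with h1 | h1
  · have h2 : W ^ σ ≤ ((a:ℝ) * b) ^ σ := Real.rpow_le_rpow (by linarith) h1.le hσ
    have h3 : 1 ≤ 400 * μ * ((a:ℝ) * b) ^ σ := by
      have : μ * W ^ σ ≤ μ * ((a:ℝ) * b) ^ σ := mul_le_mul_of_nonneg_left h2 hμ.le
      nlinarith
    calc (((box s t).filter (fun z => (a * z.1, b * z.2) ∈ QQ δ μ W)).card : ℝ)
        ≤ ((box s t).card : ℝ) := by exact_mod_cast Finset.card_filter_le _ _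
      _ = (2:ℝ) ^ s * 2 ^ t := hbox
      _ ≤ 400 * μ * ((a:ℝ) * b) ^ σ * ((2:ℝ) ^ s * 2 ^ t) := by nlinarith
  · have hr : 1 ≤ ((a:ℝ) * b) ^ σ := Real.one_le_rpow hab1 hσ
    by_cases h2 : 4 * W / μ ^ 2 ≤ (2:ℝ) ^ s ∧ 4 * W / μ ^ 2 ≤ (2:ℝ) ^ t
    · have h3 := h δ μ W hμ hμ8 hW a b s t ha hb h1 h2.1 h2.2
      have h4 : (((box s t).filter (fun z => (a * z.1, b * z.2) ∈ QQ δ μ W)).card : ℝ) ≤
          (((box s t).filter (fun z => (a * z.1, b * z.2) ∈ Bad δ μ W)).card : ℝ) := by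
        norm_cast
        apply Finset.card_le_card
        intro z hz
        rw [Finset.mem_filter] at hz ⊢
        exact ⟨hz.1, hz.2.1⟩
      calc (((box s t).filter (fun z => (a * z.1, b * z.2) ∈ QQ δ μ W)).card : ℝ)
          ≤ 400 * μ * ((2:ℝ) ^ s * 2 ^ t) := h4.trans h3
        _ = 400 * μ * 1 * ((2:ℝ) ^ s * 2 ^ t) := by ring
        _ ≤ 400 * μ * ((a:ℝ) * b) ^ σ * ((2:ℝ) ^ s * 2 ^ t) := by
            apply mul_le_mul_of_nonneg_right _ hpos.le
            apply mul_le_mul_of_nonneg_left hr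
            positivity
    · have h3 : ((box s t).filter (fun z => (a * z.1, b * z.2) ∈ QQ δ μ W)) = ∅ := by
        apply Finset.filter_eq_empty_iff.2
        rintro ⟨x, y⟩ hz hq
        unfold box at hz
        rw [Finset.mem_product, Finset.mem_Ico, Finset.mem_Ico] at hz
        rcases not_and_or.1 h2 with h4 | h4
        · exact no_point W μ hμ hW a b s x hb h1 (not_le.1 h4) hz.1.2 hq.2.1
        · exact no_point W μ hμ hW b a t y ha (by rw [mul_comm]; exact h1) (not_le.1 h4) hz.2.2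
            hq.2.2
      have h5 : (((box s t).filter (fun z => (a * z.1, b * z.2) ∈ QQ δ μ W)).card : ℝ) = 0 := by
        rw [h3]
        simp
      have h6 : (0:ℝ) ≤ 400 * μ * ((a:ℝ) * b) ^ σ * ((2:ℝ) ^ s * 2 ^ t) := by positivity
      convert h6 using 1

end Pool.Agent.MP_0863b8.F
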