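import Pool.Agent.Work.MP_0863b8_nt.Bd.B01

/-!
MP_0863b8_nt, item F9a: the sum over the early classes.
-/

namespace Pool.Agent.MP_0863b8.F

open MeasureTheory Filter

private theorem es_amgm {x y : ℝ} (hx : 0 ≤ x) (hy : 0 ≤ y) (hx1 : x ≤ 1) (hy1 : y ≤ 1) :
    (x * y) ^ ((5:ℝ)/9) ≤ (x + y) / 2 := by
  have h1 : (x * y) ^ ((5:ℝ)/9) ≤ (x * y) ^ ((1:ℝ)/2) :=
    Real.rpow_le_rpow_of_exponent_ge' (mul_nonneg hx hy) (mul_le_one₀ hx1 hy hy1) (by norm_num)
      (by norm_num)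
  refine h1.trans ?_
  rw [← Real.sqrt_eq_rpow]
  apply Real.sqrt_le_iff.mpr
  constructor
  · positivity
  · nlinarith [sq_nonneg (x - y)]

theorem earlySum : EarlySum := by
  set A : ℝ := (1 - (2:ℝ) ^ (-(1/27 : ℝ)))⁻¹ with hA
  set B : ℝ := (1 - (2:ℝ) ^ (-(1/9 : ℝ)))⁻¹ with hB
  have hApos : 0 < A := inv_pos.mpr (by linarith [cs_lt_one (1/27) (by norm_num)])
  have hBpos : 0 < B := inv_pos.mpr (by linarith [cs_lt_one (1/9) (by norm_num)])
  refine ⟨A * B, mul_pos hApos hBpos, ?_⟩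
  intro N X hX hsum
  have hX1 : ∀ k ∈ Finset.range N, X k ≤ 1 := fun k hk =>
    (Finset.single_le_sum (fun i _ => hX i) hk).trans hsum
  have hi : ∑ i ∈ Finset.range N, (2:ℝ) ^ (-(i:ℝ) / 27) ≤ A := by
    have h1 : ∀ i ∈ Finset.range N, (2:ℝ) ^ (-(i:ℝ) / 27) = ((2:ℝ) ^ (-(1/27 : ℝ))) ^ i := by
      intro i _
      apply cs_pow
      ring
    rw [Finset.sum_congr rfl h1]
    exact cs_geom _ (cs_pos _).le (cs_lt_one _ (by norm_num)) _
  have hl : ∀ k l : ℕ, k ≤ l → (2:ℝ) ^ (-((l:ℝ) - k) / 9) = ((2:ℝ) ^ (-(1/9 : ℝ))) ^ (l - k) := by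
    intro k l hkl
    apply cs_pow
    rw [Nat.cast_sub hkl]
    ring
  have hrow : ∀ k, ∑ l ∈ (Finset.range N).filter (fun l => k ≤ l),
      (2:ℝ) ^ (-((l:ℝ) - k) / 9) ≤ B := by
    intro k
    rw [Finset.sum_congr rfl (fun l hl' => hl k l (Finset.mem_filter.mp hl').2)]
    apply cs_geom_image _ (cs_pos _).le (cs_lt_one _ (by norm_num))
    intro a ha b hb hab
    rw [Finset.mem_coe, Finset.mem_filter] at ha hb
    simp only at hab
    omega
  have hcol : ∀ l, ∑ k ∈ (Finset.range N).filter (fun k => k ≤ l),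
      (2:ℝ) ^ (-((l:ℝ) - k) / 9) ≤ B := by
    intro l
    rw [Finset.sum_congr rfl (fun k hk' => hl k l (Finset.mem_filter.mp hk').2)]
    apply cs_geom_image _ (cs_pos _).le (cs_lt_one _ (by norm_num))
    intro a ha b hb hab
    rw [Finset.mem_coe, Finset.mem_filter] at ha hb
    omega
  calc ∑ k ∈ Finset.range N, ∑ l ∈ (Finset.range N).filter (fun l => k ≤ l),
      ∑ i ∈ Finset.range N,
        (2:ℝ) ^ (-(i:ℝ) / 27) * (2:ℝ) ^ (-((l:ℝ) - k) / 9) * (X k * X l) ^ ((5:ℝ)/9)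
      ≤ ∑ k ∈ Finset.range N, ∑ l ∈ (Finset.range N).filter (fun l => k ≤ l),
        (A / 2) * (X k * (2:ℝ) ^ (-((l:ℝ) - k) / 9) + X l * (2:ℝ) ^ (-((l:ℝ) - k) / 9)) := by
        apply Finset.sum_le_sum
        intro k hk
        apply Finset.sum_le_sum
        intro l hl'
        have hlN := (Finset.mem_filter.mp hl').1
        have h1 := es_amgm (hX k) (hX l) (hX1 k hk) (hX1 l hlN)
        have h2 : (0:ℝ) < (2:ℝ) ^ (-((l:ℝ) - k) / 9) := Real.rpow_pos_of_pos (by norm_num) _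
        calc ∑ i ∈ Finset.range N,
            (2:ℝ) ^ (-(i:ℝ) / 27) * (2:ℝ) ^ (-((l:ℝ) - k) / 9) * (X k * X l) ^ ((5:ℝ)/9)
            = (∑ i ∈ Finset.range N, (2:ℝ) ^ (-(i:ℝ) / 27)) *
              ((2:ℝ) ^ (-((l:ℝ) - k) / 9) * (X k * X l) ^ ((5:ℝ)/9)) := by
              rw [Finset.sum_mul]
              apply Finset.sum_congr rfl
              intro i _
              ring
          _ ≤ A * ((2:ℝ) ^ (-((l:ℝ) - k) / 9) * ((X k + X l) / 2)) := by
              apply mul_le_mul hi _ _ hApos.le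
              · exact mul_le_mul_of_nonneg_left h1 h2.le
              · exact mul_nonneg h2.le (Real.rpow_nonneg (mul_nonneg (hX k) (hX l)) _)
          _ = _ := by ring
    _ = (A / 2) * (∑ k ∈ Finset.range N, X k * ∑ l ∈ (Finset.range N).filter (fun l => k ≤ l),
          (2:ℝ) ^ (-((l:ℝ) - k) / 9) +
        ∑ l ∈ Finset.range N, X l * ∑ k ∈ (Finset.range N).filter (fun k => k ≤ l),
          (2:ℝ) ^ (-((l:ℝ) - k) / 9)) := by
        have h3 : ∑ l ∈ Finset.range N, X l * ∑ k ∈ (Finset.range N).filter (fun k => k ≤ l),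
          (2:ℝ) ^ (-((l:ℝ) - k) / 9) =
          ∑ k ∈ Finset.range N, ∑ l ∈ (Finset.range N).filter (fun l => k ≤ l),
            X l * (2:ℝ) ^ (-((l:ℝ) - k) / 9) := by
          simp only [Finset.mul_sum, Finset.sum_filter, mul_ite, mul_zero]
          rw [Finset.sum_comm]
        rw [h3, ← Finset.sum_add_distrib, Finset.mul_sum]
        apply Finset.sum_congr rfl
        intro k _
        rw [Finset.mul_sum, ← Finset.sum_add_distrib, Finset.mul_sum]
    _ ≤ (A / 2) * (∑ k ∈ Finset.range N, X k * B + ∑ l ∈ Finset.range N, X l * B) := by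
        apply mul_le_mul_of_nonneg_left _ (by positivity)
        apply add_le_add
        · exact Finset.sum_le_sum fun k _ => mul_le_mul_of_nonneg_left (hrow k) (hX k)
        · exact Finset.sum_le_sum fun l _ => mul_le_mul_of_nonneg_left (hcol l) (hX l)
    _ = A * B * ∑ k ∈ Finset.range N, X k := by
        rw [← Finset.sum_mul]
        ring
    _ ≤ A * B * 1 := by
        apply mul_le_mul_of_nonneg_left hsum (by positivity)
    _ = A * B := mul_one _

end Pool.Agent.MP_0863b8.F
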