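import Pool.Agent.Work.MP_0863b8_nt.Bd.B01
import Pool.Agent.Work.MP_0863b8_nt.Bd.B02

/-!
MP_0863b8_nt, item F11: the main theorem for quickly decaying functions.
-/

set_option autoImplicit false

namespace Pool.Agent.MP_0863b8.F

open MeasureTheory Filter

theorem log_sq_small : ∀ᶠ k : ℕ in atTop, 200 * (Real.log k) ^ 2 ≤ (k:ℝ) / 2 * Real.log 2 := by
  have h := Real.isLittleO_pow_log_id_atTop (n := 2)
  have h2 : 0 < Real.log 2 / 400 := by
    have := Real.log_pos (by norm_num : (1:ℝ) < 2)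
    positivity
  have h3 := (h.def h2)
  have h4 := tendsto_natCast_atTop_atTop (R := ℝ) |>.eventually h3
  filter_upwards [h4] with k hk
  simp only [id, Real.norm_eq_abs] at hk
  have h5 : |(Real.log (k:ℝ)) ^ 2| = (Real.log (k:ℝ)) ^ 2 := abs_of_nonneg (sq_nonneg _)
  have h6 : |(k:ℝ)| = k := abs_of_nonneg (Nat.cast_nonneg _)
  rw [h5, h6] at hk
  linarith

/-- levels and decay -/
theorem level_ok (k0 : ℕ) : ∃ T0 : ℕ, ∀ n : ℕ, T0 ≤ n → ∀ p : ℝ, 0 < p → p ≤ 1 →
    p ≤ Real.exp (-(1000 * (Real.log (Real.log n)) ^ 2)) → ∀ k : ℕ,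
    (1/2 : ℝ) ^ (k + 1) < p / n → p / n ≤ (1/2 : ℝ) ^ k → k0 ≤ k ∧ p ≤ dec k := by
  obtain ⟨K1, hK1⟩ := eventually_atTop.mp log_sq_small
  set K0 : ℕ := max (max k0 K1) 1000 with hK0
  refine ⟨2 ^ (K0 + 1), ?_⟩
  intro n hn p hp hp1 hdec k hk1 hk2
  have hn0 : 0 < n := lt_of_lt_of_le (by positivity) hn
  have hnR : (0:ℝ) < n := by exact_mod_cast hn0
  have hnk : n < 2 ^ (k + 1) := by
    have h1 : (1/2 : ℝ) ^ (k + 1) < 1 / n := by
      refine lt_of_lt_of_le hk1 ?_
      gcongr
    rw [one_div, inv_pow, one_div, inv_lt_inv₀ (by positivity) hnR] at h1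
    exact_mod_cast h1
  have hkK : K0 < k + 1 := by
    have : 2 ^ (K0 + 1) < 2 ^ (k + 1) := lt_of_le_of_lt hn hnk
    have := (Nat.pow_lt_pow_iff_right (a := 2) (by norm_num)).mp this
    omega
  have hkk0 : k0 ≤ k := by
    have : k0 ≤ K0 := le_trans (le_max_left _ _) (le_max_left _ _)
    omega
  have hkK1 : K1 ≤ k := by
    have : K1 ≤ K0 := le_trans (le_max_right _ _) (le_max_left _ _)
    omega
  have hk1000 : 1000 ≤ k := by
    have : 1000 ≤ K0 := le_max_right _ _
    omega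
  refine ⟨hkk0, ?_⟩
  have hkR : (1000:ℝ) ≤ k := by exact_mod_cast hk1000
  have hkpos : (0:ℝ) < k := by linarith
  have hlog2 : 0.69 < Real.log 2 := by
    have := Real.log_two_gt_d9
    linarith
  have hlogk : 6 ≤ Real.log k := by
    rw [Real.le_log_iff_exp_le hkpos]
    have h1 : Real.exp 6 = (Real.exp 1) ^ 6 := by
      rw [← Real.exp_nat_mul]
      norm_num
    have h2 := Real.exp_one_lt_d9
    rw [h1]
    calc (Real.exp 1) ^ 6 ≤ (2.7182818286) ^ 6 := by
          gcongr
      _ ≤ 1000 := by norm_num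
      _ ≤ k := hkR
  unfold dec
  rcases le_or_gt (2 ^ k) (n ^ 2) with hcase | hcase
  · -- n is large
    refine hdec.trans ?_
    apply Real.exp_le_exp.mpr
    apply neg_le_neg
    have h1 : (k:ℝ) * Real.log 2 ≤ 2 * Real.log n := by
      have h2 : ((2:ℝ) ^ k) ≤ (n:ℝ) ^ 2 := by exact_mod_cast hcase
      have h3 := Real.log_le_log (by positivity) h2
      rw [Real.log_pow, Real.log_pow] at h3
      exact_mod_cast h3
    have h2 : (k:ℝ) / 3 ≤ Real.log n := by nlinarith
    have h3 : Real.log k - Real.log 3 ≤ Real.log (Real.log n) := by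
      rw [← Real.log_div hkpos.ne' (by norm_num)]
      exact Real.log_le_log (by positivity) h2
    have h4 : Real.log 3 ≤ 2 := by
      rw [Real.log_le_iff_le_exp (by norm_num)]
      have := Real.add_one_le_exp (2:ℝ)
      linarith
    have h5 : Real.log k / 2 ≤ Real.log (Real.log n) := by linarith
    have h6 : (Real.log k / 2) ^ 2 ≤ (Real.log (Real.log n)) ^ 2 := by
      apply pow_le_pow_left₀ (by linarith) h5
    nlinarith [sq_nonneg (Real.log (k:ℝ))]
  · -- n is small
    have h1 : p ≤ n * (1/2:ℝ) ^ k := by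
      rw [div_le_iff₀ hnR] at hk2
      linarith
    have h2 : p ^ 2 ≤ (1/2:ℝ) ^ k := by
      have h3 : p ^ 2 ≤ (n * (1/2:ℝ) ^ k) ^ 2 := pow_le_pow_left₀ hp.le h1 2
      have h4 : (n:ℝ) ^ 2 ≤ 2 ^ k := by exact_mod_cast hcase.le
      calc p ^ 2 ≤ (n * (1/2:ℝ) ^ k) ^ 2 := h3
        _ = (n:ℝ) ^ 2 * ((1/2:ℝ) ^ k * (1/2) ^ k) := by ring
        _ ≤ 2 ^ k * ((1/2:ℝ) ^ k * (1/2) ^ k) := by gcongr
        _ = (1/2:ℝ) ^ k := by
            rw [← mul_assoc, ← mul_pow]
            norm_num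
    have h3 : 2 * Real.log p ≤ -(k * Real.log 2) := by
      have h4 := Real.log_le_log (by positivity) h2
      rw [Real.log_pow, Real.log_pow, one_div, Real.log_inv] at h4
      push_cast at h4
      linarith
    have h4 := hK1 k hkK1
    rw [← Real.log_le_iff_le_exp hp]
    linarith

theorem main (h1 : SecondF) : MainF := by
  classical
  intro δ Φ h0 hH1 hH2 hdecay
  obtain ⟨c, hc, hdiv⟩ := diverge Φ h0 hH1 hH2
  choose S hSmem hSlo hShi using blocks Φ h0 c hdiv
  set ψ : ℕ → ℝ := fun n => min (Φ n) (1/8) with hψ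
  have hψ0 : ∀ n, 0 ≤ ψ n := fun n => le_min (h0 n) (by norm_num)
  have hψ8 : ∀ n, ψ n ≤ 1/8 := fun n => min_le_right _ _
  obtain ⟨C, hC, k0, hsec⟩ := h1 c hc
  obtain ⟨T1, hT1⟩ := eventually_atTop.mp hdecay
  obtain ⟨T2, hT2⟩ := level_ok k0
  set T0 := max T1 T2 with hT0
  set E : ℕ → Set ℝ := fun n => if n = 0 then ∅ else BB δ ψ n with hE
  have hEpos : ∀ n, 0 < n → E n = BB δ ψ n := by
    intro n hn
    simp only [hE]
    rw [if_neg hn.ne']
  have hEm : ∀ n, MeasurableSet (E n) := by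
    intro n
    by_cases hn : n = 0
    · simp [hE, hn]
    · rw [hEpos n (Nat.pos_of_ne_zero hn)]
      exact (single δ (ψ n) n _ _ (Nat.pos_of_ne_zero hn) (hψ0 n)).1
  have hEsub : ∀ n, E n ⊆ Set.Ico 0 1 := by
    intro n
    by_cases hn : n = 0
    · simp [hE, hn]
    · rw [hEpos n (Nat.pos_of_ne_zero hn)]
      intro β hβ
      exact ⟨hβ.1, hβ.2.1⟩
  have hψS : ∀ t, ∀ n ∈ S t, 0 < ψ n := by
    intro t n hn
    exact lt_min (hSmem t n hn).2.2.2 (by norm_num)
  have hbc := bc (fun t => S (t + T0)) E C (c / 2) (by positivity) hEm hEsub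
    (by
      intro t
      have := hsec δ ψ (S (t + T0))
        (fun n hn => ⟨(hSmem _ n hn).2.1, (hSmem _ n hn).2.2.1, hψS _ n hn, hψ8 n,
          fun k hk => by
            have hn1 := (hSmem _ n hn).1
            have hn2 : T1 ≤ n := le_trans (le_trans (le_max_left _ _) (Nat.le_add_left _ _)) hn1
            have hn3 : T2 ≤ n := le_trans (le_trans (le_max_right _ _) (Nat.le_add_left _ _)) hn1
            exact hT2 n hn3 (ψ n) (hψS _ n hn) (by have := hψ8 n; linarith)
              (le_trans (min_le_left _ _) (hT1 n hn2)) k hk.1 hk.2⟩)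
        (hShi _)
      refine le_trans (le_of_eq ?_) this
      apply Finset.sum_congr rfl
      intro x hx
      apply Finset.sum_congr rfl
      intro y hy
      rw [hEpos x (hSmem _ x hx).2.1, hEpos y (hSmem _ y hy).2.1])
    (by
      intro a b ha hab hb
      obtain ⟨n0, hn0⟩ := first_moment c a b hc ha hab hb
      filter_upwards [eventually_ge_atTop n0] with t ht
      calc c / 2 * (b - a) = 1 / 2 * (c * (b - a)) := by ring
        _ ≤ (∑ n ∈ S (t + T0), ψ n) * (c * (b - a)) := by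
            apply mul_le_mul_of_nonneg_right (hSlo _)
            have : 0 < b - a := by linarith
            positivity
        _ = ∑ n ∈ S (t + T0), c * ψ n * (b - a) := by
            rw [Finset.sum_mul]
            apply Finset.sum_congr rfl
            intro n _
            ring
        _ ≤ ∑ v ∈ S (t + T0), (volume (E v ∩ Set.Ioo a b)).toReal := by
            apply Finset.sum_le_sum
            intro n hn
            obtain ⟨m1, m2, m3, m4⟩ := hSmem _ n hn
            rw [hEpos n m2]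
            have hτ : 0 < tau (ψ n) := by
              unfold tau
              apply Real.sqrt_pos.mpr
              have := hψS _ n hn
              linarith
            exact hn0 n (le_trans (le_trans ht (Nat.le_add_right _ _)) m1) m3 δ (ψ n) _ _
              (hψS _ n hn) (hψ8 n) (qmin_spec δ (tau (ψ n)) hτ).2.2.2)
  apply ae_of_unit
  filter_upwards [hbc] with β hβ
  rw [Set.infinite_iff_exists_gt]
  intro M
  have hβ' := (hβ.and_eventually (eventually_gt_atTop M)).exists
  obtain ⟨t, ⟨v, hv, hβv⟩, htM⟩ := hβ'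
  obtain ⟨m1, m2, m3, m4⟩ := hSmem _ v hv
  refine ⟨v, ⟨m2, ?_⟩, lt_of_lt_of_le htM (le_trans (Nat.le_add_right _ _) m1)⟩
  rw [hEpos v m2] at hβv
  obtain ⟨-, -, r, -, hr⟩ := hβv
  calc nd (v * β - δ) ≤ |(v:ℝ) * β - δ - r| := nd_le_abs _ r
    _ < ψ v := hr
    _ ≤ Φ v := min_le_left _ _

end Pool.Agent.MP_0863b8.F
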