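import Pool.Agent.Work.MP_0863b8_nt.Bd.B01

namespace Pool.Agent.MP_0863b8.F

open MeasureTheory Filter

theorem np_rps_zero (n : ℕ) : rps 0 n = rp n := by
  unfold rps rp
  apply Finset.sum_congr rfl
  intro p _
  rw [sub_zero, Real.rpow_neg_one, one_div]

theorem np_card_filter {α : Type*} (s : Finset α) (p : α → Prop) (inst : DecidablePred p) :
    (@Finset.filter α p inst s).card ≤ s.card := Finset.card_filter_le _ _

theorem np_mem {α : Type*} {s : Finset α} {p : α → Prop} {inst : DecidablePred p} {a : α} :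
    a ∈ @Finset.filter α p inst s ↔ a ∈ s ∧ p a := Finset.mem_filter

theorem np_dens_univ : Dens 1 0 Set.univ := by
  intro a b _ _ s t
  refine le_trans (Nat.cast_le.mpr (np_card_filter _ _ _)) ?_
  unfold box
  rw [Finset.card_product, Nat.card_Ico, Nat.card_Ico, pow_succ, pow_succ, Real.rpow_zero]
  have e1 : (2 ^ s * 2 - 2 ^ s : ℕ) = 2 ^ s := by omega
  have e2 : (2 ^ t * 2 - 2 ^ t : ℕ) = 2 ^ t := by omega
  rw [e1, e2]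
  push_cast
  linarith

/-- one term -/
theorem np_term (ψ : ℕ → ℝ) (x y l : ℕ) (L : ℝ) (hx : 0 < x) (hy : 0 < y) (hL : 0 < L)
    (hψ : ψ y / y ≤ (1/2 : ℝ) ^ l) (h : L / 2 < ((x.lcm y : ℕ) : ℝ)) :
    ψ y / ((y / x.gcd y : ℕ) : ℝ) ≤ (2 * (1/2 : ℝ) ^ l / L) * ((x:ℝ) * y) := by
  have hlcm : x.lcm y = x * (y / x.gcd y) := by
    unfold Nat.lcm
    rw [Nat.mul_div_assoc _ (Nat.gcd_dvd_right x y)]
  have hb : 0 < y / x.gcd y :=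
    Nat.div_pos (Nat.le_of_dvd hy (Nat.gcd_dvd_right x y)) (Nat.gcd_pos_of_pos_left y hx)
  rw [hlcm] at h
  push_cast at h
  have hbR : (0:ℝ) < ((y / x.gcd y : ℕ) : ℝ) := by exact_mod_cast hb
  have hxR : (0:ℝ) < x := by exact_mod_cast hx
  have hyR : (0:ℝ) < y := by exact_mod_cast hy
  set b : ℝ := ((y / x.gcd y : ℕ) : ℝ) with hbdef
  have h' : L / 2 < x * b := h
  have h2 : ψ y ≤ (1/2 : ℝ) ^ l * y := by
    rwa [div_le_iff₀ hyR] at hψ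
  have h3 : 0 < (1/2 : ℝ) ^ l := by positivity
  rw [div_le_iff₀ hbR]
  have h4 : (2 * (1/2 : ℝ) ^ l / L) * ((x:ℝ) * y) * b = ((1/2 : ℝ) ^ l * y) * (2 * (x * b) / L) := by
    field_simp
  rw [h4]
  have h5 : 1 ≤ 2 * (x * b) / L := by
    rw [le_div_iff₀ hL]
    linarith
  have h6 : 0 ≤ (1/2 : ℝ) ^ l * y := by positivity
  calc ψ y ≤ (1/2 : ℝ) ^ l * y := h2
    _ = (1/2 : ℝ) ^ l * y * 1 := (mul_one _).symm
    _ ≤ _ := mul_le_mul_of_nonneg_left h5 h6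

theorem np_ms (ψ : ℕ → ℝ) (k : ℕ) (V : Finset ℕ) (hV : ∀ v ∈ V, 0 < v ∧ lv ψ k v) :
    ms V ≤ (2:ℝ) ^ (k + 1) * ∑ v ∈ V, ψ v := by
  unfold ms
  rw [Finset.mul_sum]
  apply Finset.sum_le_sum
  intro v hv
  obtain ⟨h0, h1, -⟩ := hV v hv
  have hvR : (0:ℝ) < v := by exact_mod_cast h0
  rw [lt_div_iff₀ hvR] at h1
  have h2 : (2:ℝ) ^ (k + 1) * (1/2 : ℝ) ^ (k + 1) = 1 := by
    rw [← mul_pow]
    norm_num
  calc (v:ℝ) = (2:ℝ) ^ (k + 1) * ((1/2 : ℝ) ^ (k + 1) * v) := by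
        rw [← mul_assoc, h2, one_mul]
    _ ≤ _ := by
        apply mul_le_mul_of_nonneg_left h1.le
        positivity

open Classical in
/-- the estimate for a general set `Q` -/
theorem np_core (C2 CT : ℝ) (hCT : 0 < CT)
    (hT : ∀ σ : ℝ, 0 ≤ σ → σ ≤ 1/16 →
      ∀ (V W : Finset ℕ) (Q : Set (ℕ × ℕ)) (K L : ℝ), 0 ≤ K → 0 ≤ L →
      (∀ v ∈ V, 0 < v ∧ rps σ v ≤ C2) → (∀ w ∈ W, 0 < w ∧ rps σ w ≤ C2) → Dens K σ Q →
      en Set.univ V W L Q ≤ CT * pot K L V W)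
    (σ : ℝ) (h0 : 0 ≤ σ) (h1 : σ ≤ 1/16) (ψ : ℕ → ℝ) (k l i : ℕ) (V W : Finset ℕ)
    (Q : Set (ℕ × ℕ)) (K : ℝ) (hK : 0 ≤ K)
    (hV : ∀ v ∈ V, 0 < v ∧ rps σ v ≤ C2 ∧ 0 < ψ v ∧ lv ψ k v)
    (hW : ∀ w ∈ W, 0 < w ∧ rps σ w ≤ C2 ∧ 0 < ψ w ∧ lv ψ l w)
    (hD : Dens K σ Q) (P : Finset (ℕ × ℕ))
    (hP : ∀ z ∈ P, z.1 ∈ V ∧ z.2 ∈ W ∧ (2:ℝ) ^ ((k:ℝ) - i) / 2 < ((z.1.lcm z.2 : ℕ) : ℝ) ∧
        ((z.1.lcm z.2 : ℕ) : ℝ) ≤ (2:ℝ) ^ ((k:ℝ) - i) ∧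
        (z.1 / z.1.gcd z.2, z.2 / z.1.gcd z.2) ∈ Q) :
    ∑ z ∈ P, ψ z.2 / (z.2 / z.1.gcd z.2 : ℕ) ≤
      (2:ℝ) ^ ((19:ℝ)/9) * CT * (K ^ ((4:ℝ)/9) * (2:ℝ) ^ ((i:ℝ)/9)) *
        (2:ℝ) ^ (-(4 * ((l:ℝ) - k)) / 9) *
        ((∑ v ∈ V, ψ v) * (∑ w ∈ W, ψ w)) ^ ((5:ℝ)/9) := by
  have two0 : (0:ℝ) < 2 := by norm_num
  have hL : (0:ℝ) < (2:ℝ) ^ ((k:ℝ) - i) := Real.rpow_pos_of_pos two0 _
  set L : ℝ := (2:ℝ) ^ ((k:ℝ) - i) with hLdef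
  have hX : 0 ≤ ∑ v ∈ V, ψ v := Finset.sum_nonneg (fun v hv => (hV v hv).2.2.1.le)
  have hY : 0 ≤ ∑ w ∈ W, ψ w := Finset.sum_nonneg (fun w hw => (hW w hw).2.2.1.le)
  set X : ℝ := ∑ v ∈ V, ψ v with hXdef
  set Y : ℝ := ∑ w ∈ W, ψ w with hYdef
  have hcoef : 0 ≤ 2 * (1/2 : ℝ) ^ l / L := by positivity
  -- step 1
  have s1 : ∑ z ∈ P, ψ z.2 / ((z.2 / z.1.gcd z.2 : ℕ) : ℝ) ≤
      (2 * (1/2 : ℝ) ^ l / L) * ∑ z ∈ P, ((z.1:ℝ) * z.2) := by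
    rw [Finset.mul_sum]
    apply Finset.sum_le_sum
    intro z hz
    obtain ⟨p1, p2, p3, p4, p5⟩ := hP z hz
    exact np_term ψ z.1 z.2 l L (hV _ p1).1 (hW _ p2).1 hL (hW _ p2).2.2.2.2 p3
  -- step 2
  have s2 : ∑ z ∈ P, ((z.1:ℝ) * z.2) ≤ en Set.univ V W L Q := by
    unfold en
    apply Finset.sum_le_sum_of_subset_of_nonneg
    · intro z hz
      obtain ⟨p1, p2, p3, p4, p5⟩ := hP z hz
      exact np_mem.mpr ⟨Finset.mem_product.mpr ⟨p1, p2⟩, p3, p4, p5,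
        fun p _ => Set.mem_univ p⟩
    · intro z _ _
      positivity
  have s3 := hT σ h0 h1 V W Q K L hK hL.le (fun v hv => ⟨(hV v hv).1, (hV v hv).2.1⟩)
    (fun w hw => ⟨(hW w hw).1, (hW w hw).2.1⟩) hD
  -- step 3
  have m1 := np_ms ψ k V (fun v hv => ⟨(hV v hv).1, (hV v hv).2.2.2⟩)
  have m2 := np_ms ψ l W (fun v hv => ⟨(hW v hv).1, (hW v hv).2.2.2⟩)
  have ms0 : ∀ U : Finset ℕ, 0 ≤ ms U := by
    intro U
    unfold ms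
    apply Finset.sum_nonneg
    intro u _
    positivity
  have m3 : (ms V * ms W) ^ ((5:ℝ)/9) ≤
      (2:ℝ) ^ ((5:ℝ)/9 * ((k:ℝ) + l + 2)) * (X * Y) ^ ((5:ℝ)/9) := by
    have q1 : ms V * ms W ≤ (2:ℝ) ^ ((k:ℝ) + l + 2) * (X * Y) := by
      have q2 : (2:ℝ) ^ ((k:ℝ) + l + 2) = (2:ℝ) ^ (k + 1) * (2:ℝ) ^ (l + 1) := by
        rw [← Real.rpow_natCast, ← Real.rpow_natCast, ← Real.rpow_add two0]
        congr 1
        push_cast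
        ring
      rw [q2]
      calc ms V * ms W ≤ ((2:ℝ) ^ (k + 1) * X) * ((2:ℝ) ^ (l + 1) * Y) := by
            apply mul_le_mul m1 m2 (ms0 W)
            positivity
        _ = _ := by ring
    calc (ms V * ms W) ^ ((5:ℝ)/9) ≤ ((2:ℝ) ^ ((k:ℝ) + l + 2) * (X * Y)) ^ ((5:ℝ)/9) := by
          apply Real.rpow_le_rpow (mul_nonneg (ms0 V) (ms0 W)) q1 (by norm_num)
      _ = _ := by
          rw [Real.mul_rpow (Real.rpow_nonneg two0.le _) (mul_nonneg hX hY), ← Real.rpow_mul two0.le]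
          congr 2
          ring
  have hKp : 0 ≤ K ^ ((4:ℝ)/9) := Real.rpow_nonneg hK _
  have hLp : 0 ≤ L ^ ((8:ℝ)/9) := Real.rpow_nonneg hL.le _
  have m4 : pot K L V W ≤ K ^ ((4:ℝ)/9) * L ^ ((8:ℝ)/9) *
      ((2:ℝ) ^ ((5:ℝ)/9 * ((k:ℝ) + l + 2)) * (X * Y) ^ ((5:ℝ)/9)) := by
    unfold pot
    exact mul_le_mul_of_nonneg_left m3 (mul_nonneg hKp hLp)
  calc ∑ z ∈ P, ψ z.2 / ((z.2 / z.1.gcd z.2 : ℕ) : ℝ)
      ≤ (2 * (1/2 : ℝ) ^ l / L) * ∑ z ∈ P, ((z.1:ℝ) * z.2) := s1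
    _ ≤ (2 * (1/2 : ℝ) ^ l / L) * (CT * (K ^ ((4:ℝ)/9) * L ^ ((8:ℝ)/9) *
      ((2:ℝ) ^ ((5:ℝ)/9 * ((k:ℝ) + l + 2)) * (X * Y) ^ ((5:ℝ)/9)))) := by
        apply mul_le_mul_of_nonneg_left _ hcoef
        refine le_trans s2 (le_trans s3 ?_)
        exact mul_le_mul_of_nonneg_left m4 hCT.le
    _ = ((2 * (1/2 : ℝ) ^ l / L) * L ^ ((8:ℝ)/9) * (2:ℝ) ^ ((5:ℝ)/9 * ((k:ℝ) + l + 2))) *
        (CT * K ^ ((4:ℝ)/9) * (X * Y) ^ ((5:ℝ)/9)) := by ring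
    _ = ((2:ℝ) ^ ((19:ℝ)/9) * (2:ℝ) ^ ((i:ℝ)/9) * (2:ℝ) ^ (-(4 * ((l:ℝ) - k)) / 9)) *
        (CT * K ^ ((4:ℝ)/9) * (X * Y) ^ ((5:ℝ)/9)) := by
        congr 1
        have e1 : (2 * (1/2 : ℝ) ^ l / L) = (2:ℝ) ^ (1 - (l:ℝ) - ((k:ℝ) - i)) := by
          rw [Real.rpow_sub two0, Real.rpow_sub two0, Real.rpow_one, Real.rpow_natCast, one_div,
            inv_pow, hLdef]
          rfl
        have e2 : L ^ ((8:ℝ)/9) = (2:ℝ) ^ (((k:ℝ) - i) * ((8:ℝ)/9)) := by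
          rw [hLdef, ← Real.rpow_mul two0.le]
        rw [e1, e2, ← Real.rpow_add two0, ← Real.rpow_add two0, ← Real.rpow_add two0,
          ← Real.rpow_add two0]
        congr 1
        ring
    _ = _ := by ring

theorem np_dec (k : ℕ) (hk : 3 ≤ k) : dec k ≤ 1 / 8 := by
  unfold dec
  have h1 : 1 ≤ Real.log k := by
    have h3 : (3:ℝ) ≤ k := by exact_mod_cast hk
    rw [Real.le_log_iff_exp_le (by linarith)]
    have := Real.exp_one_lt_d9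
    linarith
  have h2 : 200 ≤ 200 * (Real.log k) ^ 2 := by nlinarith
  have h3 : (8:ℝ) ≤ Real.exp (200 * (Real.log k) ^ 2) := by
    have := Real.add_one_le_exp (200 * (Real.log k) ^ 2)
    linarith
  rw [Real.exp_neg, one_div]
  exact inv_anti₀ (by norm_num) h3

theorem np_size (ψ : ℕ → ℝ) (k n m : ℕ) (hk : 3 ≤ k) (hn : 0 < n) (h : lv ψ k n)
    (hd : ψ n ≤ dec k) (hm : k ≤ m + 2) : n < 2 ^ m := by
  have hnR : (0:ℝ) < n := by exact_mod_cast hn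
  have h1 := h.1
  rw [lt_div_iff₀ hnR] at h1
  have h2 : ψ n ≤ 1 / 8 := le_trans hd (np_dec k hk)
  have h3 : (1/2 : ℝ) ^ (m + 3) ≤ (1/2 : ℝ) ^ (k + 1) :=
    pow_le_pow_of_le_one (by norm_num) (by norm_num) (by omega)
  have h4 : (1/2 : ℝ) ^ (m + 3) * n < 1 / 8 := by
    calc (1/2 : ℝ) ^ (m + 3) * n ≤ (1/2 : ℝ) ^ (k + 1) * n :=
          mul_le_mul_of_nonneg_right h3 hnR.le
      _ < ψ n := h1
      _ ≤ 1 / 8 := h2
  have h5 : (1/2 : ℝ) ^ m * n < 1 := by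
    rw [pow_add] at h4
    norm_num at h4 ⊢
    linarith
  have h6 : (n:ℝ) < 2 ^ m := by
    have h7 : (0:ℝ) < 2 ^ m := by positivity
    rw [one_div, inv_pow] at h5
    rwa [inv_mul_lt_iff₀ h7, mul_one] at h5
  exact_mod_cast h6

open Classical in
theorem newPair (h1 : TreeF) (h2 : DensQQ) (h3 : PairType) (h4 : RpsStmt) : NewPair := by
  intro C1
  obtain ⟨Ca, hCa, hTa⟩ := h1 C1
  obtain ⟨Cb, hCb, hTb⟩ := h1 (2 * C1 + 1)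
  obtain ⟨k1, hk1⟩ := h3
  obtain ⟨k2, hk2, hr⟩ := h4
  have hev : ∀ᶠ k : ℕ in atTop, (k:ℝ) ^ 12 / (2:ℝ) ^ k < 1 := by
    have := tendsto_pow_const_div_const_pow_of_one_lt 12 (r := (2:ℝ)) (by norm_num)
    exact this.eventually_lt_const (by norm_num)
  obtain ⟨k3, hk3⟩ := eventually_atTop.mp hev
  refine ⟨(2:ℝ) ^ ((19:ℝ)/9) * (Ca * 4 + Cb * (400:ℝ) ^ ((4:ℝ)/9)), by positivity,
    max k1 (max k2 (max k3 3)), ?_⟩
  intro δ ψ k l i V W hk hkl hi hik hV hW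
  have hkk1 : k1 ≤ k := le_trans (le_max_left _ _) hk
  have hkk2 : k2 ≤ k := le_trans (le_trans (le_max_left _ _) (le_max_right _ _)) hk
  have hkk3 : k3 ≤ k :=
    le_trans (le_trans (le_trans (le_max_left _ _) (le_max_right _ _)) (le_max_right _ _)) hk
  have hk3' : 3 ≤ k :=
    le_trans (le_trans (le_trans (le_max_right _ _) (le_max_right _ _)) (le_max_right _ _)) hk
  have two0 : (0:ℝ) < 2 := by norm_num
  have hkl' : (k:ℝ) ≤ l := by exact_mod_cast hkl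
  have hX : 0 ≤ ∑ v ∈ V, ψ v := Finset.sum_nonneg (fun v hv => (hV v hv).2.2.1.le)
  have hY : 0 ≤ ∑ w ∈ W, ψ w := Finset.sum_nonneg (fun w hw => (hW w hw).2.2.1.le)
  have hXY : 0 ≤ ((∑ v ∈ V, ψ v) * (∑ w ∈ W, ψ w)) ^ ((5:ℝ)/9) :=
    Real.rpow_nonneg (mul_nonneg hX hY) _
  have hE : (0:ℝ) < (2:ℝ) ^ ((19:ℝ)/9) := Real.rpow_pos_of_pos two0 _
  have h400 : (0:ℝ) < (400:ℝ) ^ ((4:ℝ)/9) := Real.rpow_pos_of_pos (by norm_num) _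
  have hA : (0:ℝ) < (2:ℝ) ^ (-(i:ℝ) / 27) := Real.rpow_pos_of_pos two0 _
  have hB : (0:ℝ) < (2:ℝ) ^ (-((l:ℝ) - k) / 9) := Real.rpow_pos_of_pos two0 _
  by_cases hcase : i < 9 ∨ k + i ≤ l
  · -- the trivial case
    refine le_trans (np_core C1 Ca hCa hTa 0 le_rfl (by norm_num) ψ k l i V W Set.univ 1
      zero_le_one (fun v hv => ⟨(hV v hv).1, ?_, (hV v hv).2.2.1, (hV v hv).2.2.2.2⟩)
      (fun w hw => ⟨(hW w hw).1, ?_, (hW w hw).2.2.1, (hW w hw).2.2.2.2⟩) np_dens_univ _ ?_) ?_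
    · rw [np_rps_zero]
      exact (hV v hv).2.1
    · rw [np_rps_zero]
      exact (hW w hw).2.1
    · intro z hz
      obtain ⟨hz1, -, -, -, p3, p4, -⟩ := Finset.mem_filter.mp hz
      obtain ⟨p1, p2⟩ := Finset.mem_product.mp hz1
      exact ⟨p1, p2, p3, p4, Set.mem_univ _⟩
    · have key : (2:ℝ) ^ ((i:ℝ)/9) * (2:ℝ) ^ (-(4 * ((l:ℝ) - k)) / 9) ≤
          4 * ((2:ℝ) ^ (-(i:ℝ) / 27) * (2:ℝ) ^ (-((l:ℝ) - k) / 9)) := by
        have e4 : (4:ℝ) = (2:ℝ) ^ (2:ℝ) := by norm_num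
        rw [e4, ← Real.rpow_add two0, ← Real.rpow_add two0, ← Real.rpow_add two0]
        apply Real.rpow_le_rpow_of_exponent_le (by norm_num)
        rcases hcase with hc | hc
        · have : (i:ℝ) ≤ 8 := by
            have : i ≤ 8 := by omega
            exact_mod_cast this
          linarith
        · have : (k:ℝ) + i ≤ l := by exact_mod_cast hc
          have hi0 : (0:ℝ) ≤ i := by positivity
          linarith
      rw [Real.one_rpow, one_mul]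
      calc (2:ℝ) ^ ((19:ℝ)/9) * Ca * (2:ℝ) ^ ((i:ℝ)/9) * (2:ℝ) ^ (-(4 * ((l:ℝ) - k)) / 9) *
            ((∑ v ∈ V, ψ v) * (∑ w ∈ W, ψ w)) ^ ((5:ℝ)/9)
          = ((2:ℝ) ^ ((i:ℝ)/9) * (2:ℝ) ^ (-(4 * ((l:ℝ) - k)) / 9)) *
            ((2:ℝ) ^ ((19:ℝ)/9) * Ca *
              ((∑ v ∈ V, ψ v) * (∑ w ∈ W, ψ w)) ^ ((5:ℝ)/9)) := by ring
        _ ≤ (4 * ((2:ℝ) ^ (-(i:ℝ) / 27) * (2:ℝ) ^ (-((l:ℝ) - k) / 9))) *
            ((2:ℝ) ^ ((19:ℝ)/9) * Ca *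
              ((∑ v ∈ V, ψ v) * (∑ w ∈ W, ψ w)) ^ ((5:ℝ)/9)) := by
            apply mul_le_mul_of_nonneg_right key
            positivity
        _ = (2:ℝ) ^ ((19:ℝ)/9) * (Ca * 4) * (2:ℝ) ^ (-(i:ℝ) / 27) *
            (2:ℝ) ^ (-((l:ℝ) - k) / 9) *
            ((∑ v ∈ V, ψ v) * (∑ w ∈ W, ψ w)) ^ ((5:ℝ)/9) := by ring
        _ ≤ _ := by
            gcongr
            have : 0 < Cb * (400:ℝ) ^ ((4:ℝ)/9) := by positivity
            linarith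
  · push Not at hcase
    obtain ⟨hi9, hlki⟩ := hcase
    -- i < k
    have hik' : i < k := by
      have g1 := hk3 k hkk3
      have g2 : (0:ℝ) < (2:ℝ) ^ k := by positivity
      rw [div_lt_one g2] at g1
      have g3 : k ^ 12 < 2 ^ k := by exact_mod_cast g1
      have g4 : 2 ^ i < 2 ^ k := lt_of_le_of_lt hik g3
      exact (Nat.pow_lt_pow_iff_right (by norm_num)).mp g4
    have hlog : 1 ≤ Real.log k := by
      have h3 : (3:ℝ) ≤ k := by exact_mod_cast hk3'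
      rw [Real.le_log_iff_exp_le (by linarith)]
      have := Real.exp_one_lt_d9
      linarith
    have hmu0 : 0 < muI i := by
      unfold muI
      exact Real.rpow_pos_of_pos two0 _
    have hi9R : (9:ℝ) ≤ i := by exact_mod_cast hi9
    have hmu8 : muI i ≤ 1 / 8 := by
      unfold muI
      calc (2:ℝ) ^ (-(i:ℝ) / 3) ≤ (2:ℝ) ^ (-3:ℝ) := by
            apply Real.rpow_le_rpow_of_exponent_le (by norm_num)
            linarith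
        _ = 1 / 8 := by
            rw [Real.rpow_neg two0.le]
            norm_num
    have hmu1 : muI i ≤ 1 := by linarith
    have hσ0 : (0:ℝ) ≤ 1 / (16 * Real.log k) := by positivity
    have hσ1 : 1 / (16 * Real.log k) ≤ 1 / 16 := by
      apply one_div_le_one_div_of_le (by norm_num)
      linarith
    have hW1 : 1 ≤ WI k i := by
      unfold WI
      apply Real.one_le_rpow_of_pos_of_le_one_of_nonpos hmu0 hmu1
      linarith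
    have hWσ : 1 ≤ muI i * (WI k i) ^ (1 / (16 * Real.log k)) := by
      unfold WI
      rw [← Real.rpow_mul hmu0.le]
      have e1 : -(16 * Real.log k) * (1 / (16 * Real.log k)) = -1 := by
        field_simp
      rw [e1, Real.rpow_neg_one, mul_inv_cancel₀ hmu0.ne']
    have hD := h2 δ (muI i) (WI k i) (1 / (16 * Real.log k)) hmu0 hmu8 hW1 hσ0 hWσ
    refine le_trans (np_core (2 * C1 + 1) Cb hCb hTb (1 / (16 * Real.log k)) hσ0 hσ1 ψ k l i V W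
      (QQ δ (muI i) (WI k i)) (400 * muI i) (by positivity)
      (fun v hv => ⟨(hV v hv).1, ?_, (hV v hv).2.2.1, (hV v hv).2.2.2.2⟩)
      (fun w hw => ⟨(hW w hw).1, ?_, (hW w hw).2.2.1, (hW w hw).2.2.2.2⟩) hD _ ?_) ?_
    · obtain ⟨a1, a2, a3, a4, a5⟩ := hV v hv
      exact hr k v C1 hkk2 a1 (np_size ψ k v (2 * k) hk3' a1 a5 a4 (by omega)) a2
    · obtain ⟨a1, a2, a3, a4, a5⟩ := hW w hw
      exact hr k w C1 hkk2 a1 (np_size ψ l w (2 * k) (by omega) a1 a5 a4 (by omega)) a2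
    · intro z hz
      obtain ⟨hz1, n1, n2, n3, p3, p4, n4⟩ := Finset.mem_filter.mp hz
      obtain ⟨p1, p2⟩ := Finset.mem_product.mp hz1
      obtain ⟨a1, a2, a3, a4, a5⟩ := hV _ p1
      obtain ⟨b1, b2, b3, b4, b5⟩ := hW _ p2
      exact ⟨p1, p2, p3, p4, hk1 δ ψ k l i z.1 z.2 hkk1 hkl hlki hi9 hik a1 b1 n1 a3 b3 a4 b4
        n2 a5 b5 n3 p3 p4 n4⟩
    · have key1 : (400 * muI i) ^ ((4:ℝ)/9) * (2:ℝ) ^ ((i:ℝ)/9) =
          (400:ℝ) ^ ((4:ℝ)/9) * (2:ℝ) ^ (-(i:ℝ) / 27) := by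
        rw [Real.mul_rpow (by norm_num) hmu0.le, mul_assoc]
        congr 1
        unfold muI
        rw [← Real.rpow_mul two0.le, ← Real.rpow_add two0]
        congr 1
        ring
      have key2 : (2:ℝ) ^ (-(4 * ((l:ℝ) - k)) / 9) ≤ (2:ℝ) ^ (-((l:ℝ) - k) / 9) := by
        apply Real.rpow_le_rpow_of_exponent_le (by norm_num)
        linarith
      rw [key1]
      calc (2:ℝ) ^ ((19:ℝ)/9) * Cb * ((400:ℝ) ^ ((4:ℝ)/9) * (2:ℝ) ^ (-(i:ℝ) / 27)) *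
            (2:ℝ) ^ (-(4 * ((l:ℝ) - k)) / 9) *
            ((∑ v ∈ V, ψ v) * (∑ w ∈ W, ψ w)) ^ ((5:ℝ)/9)
          ≤ (2:ℝ) ^ ((19:ℝ)/9) * Cb * ((400:ℝ) ^ ((4:ℝ)/9) * (2:ℝ) ^ (-(i:ℝ) / 27)) *
            (2:ℝ) ^ (-((l:ℝ) - k) / 9) *
            ((∑ v ∈ V, ψ v) * (∑ w ∈ W, ψ w)) ^ ((5:ℝ)/9) := by
            gcongr
        _ = (2:ℝ) ^ ((19:ℝ)/9) * (Cb * (400:ℝ) ^ ((4:ℝ)/9)) * (2:ℝ) ^ (-(i:ℝ) / 27) *
            (2:ℝ) ^ (-((l:ℝ) - k) / 9) *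
            ((∑ v ∈ V, ψ v) * (∑ w ∈ W, ψ w)) ^ ((5:ℝ)/9) := by ring
        _ ≤ _ := by
            gcongr
            linarith

end Pool.Agent.MP_0863b8.F
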