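import Pool.Agent.Work.MP_0863b8_nt.Bd.B01
import Pool.Agent.Work.MP_0863b8_nt.Overlap

/-!
MP_0863b8_nt, F8c: the type of an overlapping pair.
-/

namespace Pool.Agent.MP_0863b8.F

private lemma pt_log (k : ℕ) (hk : 3 ≤ k) : 1 ≤ Real.log k := by
  have hkr : (3 : ℝ) ≤ k := by exact_mod_cast hk
  rw [Real.le_log_iff_exp_le (by linarith)]
  have := Real.exp_one_lt_d9
  linarith

private lemma pt_num (k i : ℕ) (hk : 3 ≤ k) (hi : 9 ≤ i) (hik : 2 ^ i ≤ k ^ 12) :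
    0 < muI i ∧ muI i ≤ 1 / 8 ∧ (muI i) ^ 3 = (2:ℝ) ^ (-(i:ℝ)) ∧ 1 ≤ WI k i ∧
      dec k * (32 * (WI k i) ^ 2) ≤ (muI i) ^ 8 := by
  have hkr : (3 : ℝ) ≤ k := by exact_mod_cast hk
  have hk0 : (0 : ℝ) < k := by linarith
  have hL1 := pt_log k hk
  set L := Real.log k with hL
  have hir : (9 : ℝ) ≤ i := by exact_mod_cast hi
  have hl2 := Real.log_two_gt_d9
  have hmu0 : 0 < muI i := Real.rpow_pos_of_pos (by norm_num) _
  have hmulog : Real.log (muI i) = -((i:ℝ) / 3 * Real.log 2) := by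
    unfold muI
    rw [Real.log_rpow (by norm_num)]
    ring
  set v := (i:ℝ) / 3 * Real.log 2 with hv
  have hmu : muI i = Real.exp (-v) := by
    rw [← hmulog, Real.exp_log hmu0]
  have hv4 : v ≤ 4 * L := by
    have h1 : ((2:ℝ) ^ i) ≤ (k:ℝ) ^ 12 := by exact_mod_cast hik
    have h2 := Real.log_le_log (by positivity) h1
    rw [Real.log_pow, Real.log_pow] at h2
    push_cast at h2
    rw [hv]
    linarith
  have hv0 : 0 ≤ v := by positivity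
  have hmu3 : (muI i) ^ 3 = (2:ℝ) ^ (-(i:ℝ)) := by
    unfold muI
    rw [← Real.rpow_natCast, ← Real.rpow_mul (by norm_num)]
    congr 1
    push_cast
    ring
  have hmu8 : muI i ≤ 1 / 8 := by
    have h1 : muI i ≤ (2:ℝ) ^ (-(3:ℝ)) := by
      unfold muI
      apply Real.rpow_le_rpow_of_exponent_le (by norm_num)
      linarith
    have h2 : (2:ℝ) ^ (-(3:ℝ)) = 1 / 8 := by
      rw [Real.rpow_neg (by norm_num)]
      norm_num
    rw [h2] at h1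
    exact h1
  have hW : WI k i = Real.exp (16 * L * v) := by
    unfold WI
    rw [Real.rpow_def_of_pos hmu0, hmulog]
    congr 1
    ring
  have hLv : 0 ≤ L * v := mul_nonneg (by linarith) hv0
  refine ⟨hmu0, hmu8, hmu3, ?_, ?_⟩
  · rw [hW]
    apply Real.one_le_exp
    have : 16 * L * v = 16 * (L * v) := by ring
    rw [this]
    linarith
  · rw [hW, hmu]
    unfold dec
    rw [← Real.exp_nat_mul, ← Real.exp_nat_mul]
    have h32 : (32 : ℝ) ≤ Real.exp 4 := by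
      have h1 : Real.exp 4 = Real.exp 1 ^ 4 := by
        rw [← Real.exp_nat_mul]
        norm_num
      rw [h1]
      have h2 := Real.exp_one_gt_d9
      have h3 : (2.7 : ℝ) ≤ Real.exp 1 := by linarith
      calc (32 : ℝ) ≤ 2.7 ^ 4 := by norm_num
        _ ≤ Real.exp 1 ^ 4 := pow_le_pow_left₀ (by norm_num) h3 4
    calc Real.exp (-(200 * Real.log k ^ 2)) * (32 * Real.exp ((2:ℕ) * (16 * L * v)))
        ≤ Real.exp (-(200 * Real.log k ^ 2)) * (Real.exp 4 * Real.exp ((2:ℕ) * (16 * L * v))) := by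
          gcongr
      _ = Real.exp (-(200 * L ^ 2) + (4 + 32 * (L * v))) := by
          rw [Real.exp_add, Real.exp_add]
          congr 3
          push_cast
          ring
      _ ≤ Real.exp ((8:ℕ) * -v) := by
          apply Real.exp_le_exp.2
          push_cast
          have h5 : L * v ≤ L * (4 * L) := mul_le_mul_of_nonneg_left hv4 (by linarith)
          nlinarith

private lemma pt_dec (k l : ℕ) (hk : 3 ≤ k) (hkl : k ≤ l) : dec l ≤ dec k := by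
  unfold dec
  apply Real.exp_le_exp.2
  have h1 := pt_log k hk
  have hkr : (3 : ℝ) ≤ k := by exact_mod_cast hk
  have h2 : Real.log k ≤ Real.log l := Real.log_le_log (by linarith) (by exact_mod_cast hkl)
  nlinarith

private lemma pt_q (δ ε : ℝ) (h0 : 0 < ε) (h1 : ε ≤ 1) : (qmin δ ε : ℝ) ≤ 1 / ε := by
  have h2 : (1:ℝ) ≤ 1 / ε := by
    rw [le_div_iff₀ h0]
    linarith
  have h3 : 1 ≤ ⌊1 / ε⌋₊ := Nat.le_floor (by exact_mod_cast h2)
  obtain ⟨q, hq0, hq, hq2⟩ := Real.exists_nat_abs_mul_sub_round_le δ (n := ⌊1 / ε⌋₊) (by omega)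
  have h4 : nd (q * δ) < ε := by
    unfold nd
    refine lt_of_le_of_lt hq2 ?_
    have h5 : 1 / ε < (⌊1 / ε⌋₊ : ℝ) + 1 := Nat.lt_floor_add_one _
    rw [div_lt_iff₀ (by positivity)]
    rw [div_lt_iff₀ h0] at h5
    linarith
  have h5 := (qmin_spec δ ε h0).2.2.1 q hq0 h4
  have h6 : (⌊1 / ε⌋₊ : ℝ) ≤ 1 / ε := Nat.floor_le (by positivity)
  have h7 : ((qmin δ ε : ℕ) : ℝ) ≤ (⌊1 / ε⌋₊ : ℝ) := by exact_mod_cast h5.trans hq
  linarith

set_option maxHeartbeats 4000000 in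
theorem pairType : PairType := by
  refine ⟨3, ?_⟩
  intro δ ψ k l i x y hk hkl hlk hi hik hx hy hxy hψx hψy hdx hdy hψ hlx hly ha2 hlo hup hne
  obtain ⟨hmu0, hmu8, hmu3, hW1, hD⟩ := pt_num k i hk hi hik
  have hdy' : ψ y ≤ dec k := hdy.trans (pt_dec k l hk hkl)
  set μ := muI i with hμ
  set W := WI k i with hW
  obtain ⟨g, hg⟩ : ∃ g, g = x.gcd y := ⟨_, rfl⟩
  obtain ⟨a, ha⟩ : ∃ a, a = x / x.gcd y := ⟨_, rfl⟩
  obtain ⟨b, hb⟩ : ∃ b, b = y / x.gcd y := ⟨_, rfl⟩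
  rw [← ha] at ha2
  have hg0 : 0 < g := by rw [hg]; exact Nat.gcd_pos_of_pos_left y hx
  have hxg : x = g * a := by rw [ha, hg]; exact (Nat.mul_div_cancel' (Nat.gcd_dvd_left x y)).symm
  have hyg : y = g * b := by rw [hb, hg]; exact (Nat.mul_div_cancel' (Nat.gcd_dvd_right x y)).symm
  have hb0 : 0 < b := by
    rcases Nat.eq_zero_or_pos b with h0 | h0
    · rw [h0, mul_zero] at hyg; omega
    · exact h0
  have hlcm : x.lcm y = g * (a * b) := by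
    have h1 := Nat.gcd_mul_lcm x y
    rw [← hg] at h1
    have h2 : g * x.lcm y = g * (g * (a * b)) := by
      rw [h1]
      calc x * y = (g * a) * (g * b) := by rw [← hxg, ← hyg]
        _ = _ := by ring
    exact Nat.eq_of_mul_eq_mul_left hg0 h2
  have hgR : (0:ℝ) < g := by exact_mod_cast hg0
  have haR : (0:ℝ) < a := by
    have : (2:ℝ) ≤ a := by exact_mod_cast ha2
    linarith
  have hbR : (0:ℝ) < b := by exact_mod_cast hb0
  have hxR : (x:ℝ) = g * a := by rw [hxg]; push_cast; ring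
  have hyR : (y:ℝ) = g * b := by rw [hyg]; push_cast; ring
  have hxR0 : (0:ℝ) < x := by exact_mod_cast hx
  have hyR0 : (0:ℝ) < y := by exact_mod_cast hy
  have hlcmb : ((x.lcm y : ℕ) : ℝ) = b * x := by rw [hlcm, hxR]; push_cast; ring
  have hlcma : ((x.lcm y : ℕ) : ℝ) = a * y := by rw [hlcm, hyR]; push_cast; ring
  have hab : a ≠ b := by
    intro h
    apply hxy
    rw [hxg, hyg, h]
  -- powers of two
  have hpow : (2:ℝ) ^ ((k:ℝ) - i) = (2:ℝ) ^ k * μ ^ 3 := by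
    rw [hmu3, sub_eq_add_neg, Real.rpow_add (by norm_num), Real.rpow_natCast]
  rw [hpow] at hlo hup
  obtain ⟨hlx1, hlx2⟩ := hlx
  obtain ⟨hly1, hly2⟩ := hly
  rw [lt_div_iff₀ hxR0] at hlx1
  rw [div_le_iff₀ hxR0] at hlx2
  rw [lt_div_iff₀ hyR0] at hly1
  have h2k : (0:ℝ) < 2 ^ k := by positivity
  have hhk : ((1:ℝ)/2) ^ k * 2 ^ k = 1 := by rw [← mul_pow]; norm_num
  have hhl : ((1:ℝ)/2) ^ l * 2 ^ l = 1 := by rw [← mul_pow]; norm_num
  -- b ψ x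
  have hbx : μ ^ 3 / 4 < b * ψ x := by
    have h1 : ((1:ℝ)/2) ^ (k + 1) * (b * x) < b * ψ x := by
      have := mul_lt_mul_of_pos_left hlx1 hbR
      linarith
    rw [hlcmb] at hlo
    have h2 : ((1:ℝ)/2) ^ (k + 1) * (2 ^ k * μ ^ 3 / 2) < ((1:ℝ)/2) ^ (k + 1) * (b * x) :=
      mul_lt_mul_of_pos_left hlo (by positivity)
    have h3 : ((1:ℝ)/2) ^ (k + 1) * (2 ^ k * μ ^ 3 / 2) = μ ^ 3 / 4 := by
      rw [pow_succ]
      linear_combination (μ ^ 3 / 4) * hhk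
    linarith
  have hbx2 : 2 * b * ψ x ≤ 2 * μ ^ 3 := by
    have h1 : b * ψ x ≤ ((1:ℝ)/2) ^ k * (b * x) := by
      have := mul_le_mul_of_nonneg_left hlx2 hbR.le
      linarith
    rw [hlcmb] at hup
    have h2 : ((1:ℝ)/2) ^ k * (b * x) ≤ ((1:ℝ)/2) ^ k * (2 ^ k * μ ^ 3) :=
      mul_le_mul_of_nonneg_left hup (by positivity)
    have h3 : ((1:ℝ)/2) ^ k * (2 ^ k * μ ^ 3) = μ ^ 3 := by
      linear_combination (μ ^ 3) * hhk
    linarith
  -- a ψ y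
  have hay : μ ^ 6 / 4 < a * ψ y := by
    have h1 : ((1:ℝ)/2) ^ (l + 1) * (a * y) < a * ψ y := by
      have := mul_lt_mul_of_pos_left hly1 haR
      linarith
    rw [hlcma] at hlo
    have h2 : ((1:ℝ)/2) ^ (l + 1) * (2 ^ k * μ ^ 3 / 2) < ((1:ℝ)/2) ^ (l + 1) * (a * y) :=
      mul_lt_mul_of_pos_left hlo (by positivity)
    have h3 : μ ^ 3 ≤ ((1:ℝ)/2) ^ l * 2 ^ k := by
      have h4 : μ ^ 3 * 2 ^ i = 1 := by
        rw [hmu3, Real.rpow_neg (by norm_num), Real.rpow_natCast]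
        field_simp
      have h5 : (2:ℝ) ^ l ≤ 2 ^ k * 2 ^ i := by
        rw [← pow_add]
        exact pow_le_pow_right₀ (by norm_num) hlk.le
      have h6 : μ ^ 3 * 2 ^ l ≤ μ ^ 3 * (2 ^ k * 2 ^ i) :=
        mul_le_mul_of_nonneg_left h5 (by positivity)
      have h7 : μ ^ 3 * (2 ^ k * 2 ^ i) = 2 ^ k := by linear_combination (2 ^ k) * h4
      have h8 : ((1:ℝ)/2) ^ l * (μ ^ 3 * 2 ^ l) ≤ ((1:ℝ)/2) ^ l * 2 ^ k :=
        mul_le_mul_of_nonneg_left (h6.trans_eq h7) (by positivity)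
      have h9 : ((1:ℝ)/2) ^ l * (μ ^ 3 * 2 ^ l) = μ ^ 3 := by linear_combination (μ ^ 3) * hhl
      linarith
    have h4 : ((1:ℝ)/2) ^ (l + 1) * (2 ^ k * μ ^ 3 / 2) =
        (((1:ℝ)/2) ^ l * 2 ^ k) * (μ ^ 3 / 4) := by
      rw [pow_succ]
      ring
    have h5 : μ ^ 3 * (μ ^ 3 / 4) ≤ (((1:ℝ)/2) ^ l * 2 ^ k) * (μ ^ 3 / 4) :=
      mul_le_mul_of_nonneg_right h3 (by positivity)
    have h6 : μ ^ 6 / 4 = μ ^ 3 * (μ ^ 3 / 4) := by ring
    linarith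
  have hW0 : 0 < W := by linarith
  have hDx : ψ x * (32 * W ^ 2) ≤ μ ^ 8 :=
    (mul_le_mul_of_nonneg_right hdx (by positivity)).trans hD
  have hDy : ψ y * (32 * W ^ 2) ≤ μ ^ 8 :=
    (mul_le_mul_of_nonneg_right hdy' (by positivity)).trans hD
  have hmu1 : μ ≤ 1 := by linarith
  have hmup : ∀ m n : ℕ, m ≤ n → μ ^ n ≤ μ ^ m := fun m n hmn =>
    pow_le_pow_of_le_one hmu0.le hmu1 hmn
  -- lower bounds
  have hbW : 8 * W ^ 2 / μ ^ 2 ≤ b := by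
    rw [div_le_iff₀ (by positivity)]
    have h1 : ψ x * (8 * W ^ 2) ≤ ψ x * (b * μ ^ 2) := by
      have h2 : ψ x * (8 * W ^ 2) ≤ μ ^ 8 / 4 := by linarith
      have h3 : μ ^ 2 * (μ ^ 3 / 4) ≤ μ ^ 2 * (b * ψ x) :=
        mul_le_mul_of_nonneg_left hbx.le (by positivity)
      have h4 : μ ^ 2 * (μ ^ 3 / 4) = μ ^ 5 / 4 := by ring
      have h5 := hmup 5 8 (by norm_num)
      linarith
    exact le_of_mul_le_mul_left h1 hψx
  have haW : 8 * W ^ 2 / μ ^ 2 ≤ a := by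
    rw [div_le_iff₀ (by positivity)]
    have h1 : ψ y * (8 * W ^ 2) ≤ ψ y * (a * μ ^ 2) := by
      have h2 : ψ y * (8 * W ^ 2) ≤ μ ^ 8 / 4 := by linarith
      have h3 : μ ^ 2 * (μ ^ 6 / 4) ≤ μ ^ 2 * (a * ψ y) :=
        mul_le_mul_of_nonneg_left hay.le (by positivity)
      have h4 : μ ^ 2 * (μ ^ 6 / 4) = μ ^ 8 / 4 := by ring
      linarith
    exact le_of_mul_le_mul_left h1 hψy
  -- smallness
  have hmu3s : μ ^ 3 ≤ 1 / 512 := by
    calc μ ^ 3 ≤ (1 / 8 : ℝ) ^ 3 := pow_le_pow_left₀ hmu0.le hmu8 3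
      _ = 1 / 512 := by norm_num
  have hsmall : 2 * b * ψ x < 1 / 2 := by linarith
  have hov := overlap δ (ψ x) (ψ y) x y a b (Int.natAbs ((a:ℤ) - b))
    (qmin δ (tau (ψ x))) (round ((qmin δ (tau (ψ x)) : ℝ) * δ))
    (qmin δ (tau (ψ y))) (round ((qmin δ (tau (ψ y)) : ℝ) * δ)) hx hy hxy hψx hψy hψ ha hb rfl
  have hnd : nd ((Int.natAbs ((a:ℤ) - b) : ℕ) * δ) < 2 * μ ^ 3 :=
    lt_of_lt_of_le (hov.2.2.1 hsmall hne) hbx2
  rw [← ha, ← hb]
  refine ⟨⟨hab, hnd, ?_⟩, haW, hbW⟩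
  rintro ⟨hr1, hr2⟩
  -- the convergent
  obtain ⟨ε, hε⟩ : ∃ ε, ε = μ ^ 2 / (4 * W) := ⟨_, rfl⟩
  rw [← hε] at hr1 hr2
  have hε0 : 0 < ε := by rw [hε]; positivity
  have hεW : ε * (4 * W) = μ ^ 2 := by rw [hε]; field_simp
  have hε1 : ε ≤ 1 := by
    rw [hε, div_le_one (by positivity)]
    have e1 := hmup 0 2 (by norm_num)
    rw [pow_zero] at e1
    linarith only [e1, hW1]
  have hq := pt_q δ ε hε0 hε1
  obtain ⟨hq1, hqnd, hqmin, _⟩ := qmin_spec δ ε hε0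
  obtain ⟨q, hqq⟩ : ∃ q, q = qmin δ ε := ⟨_, rfl⟩
  rw [← hqq] at hr1 hr2 hq hq1 hqnd hqmin
  have hq0 : (0:ℝ) < q := by exact_mod_cast hq1
  obtain ⟨η, hη⟩ : ∃ η : ℝ, η = |δ - round ((q : ℝ) * δ) / (q : ℝ)| := ⟨_, rfl⟩
  have hη0 : 0 ≤ η := by rw [hη]; exact abs_nonneg _
  have hmax : (b:ℝ) * η < μ ^ 2 / 4 := by
    have h1 : (b:ℝ) ≤ ((max a b : ℕ) : ℝ) := by exact_mod_cast le_max_right a b
    have h2 : (b:ℝ) * η ≤ ((max a b : ℕ) : ℝ) * η := mul_le_mul_of_nonneg_right h1 hη0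
    rw [hη] at h2 ⊢
    exact lt_of_le_of_lt h2 hr2
  have hηx : μ * η ≤ ψ x := by
    -- `μ^3 / 4 η < b ψ η < ψ μ^2 / 4`
    have h1 : (μ ^ 3 / 4) * η ≤ (b * ψ x) * η := mul_le_mul_of_nonneg_right hbx.le hη0
    have h2 : ψ x * (b * η) ≤ ψ x * (μ ^ 2 / 4) := mul_le_mul_of_nonneg_left hmax.le hψx.le
    have h3 : (μ ^ 2 / 4) * (μ * η) ≤ (μ ^ 2 / 4) * ψ x := by
      calc (μ ^ 2 / 4) * (μ * η) = (μ ^ 3 / 4) * η := by ring
        _ ≤ (b * ψ x) * η := h1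
        _ = ψ x * (b * η) := by ring
        _ ≤ ψ x * (μ ^ 2 / 4) := h2
        _ = (μ ^ 2 / 4) * ψ x := by ring
    exact le_of_mul_le_mul_left h3 (by positivity)
  have hndq : nd (q * δ) = q * η := by
    unfold nd
    rw [hη]
    have h1 : (q:ℝ) * δ - round ((q:ℝ) * δ) = q * (δ - round ((q : ℝ) * δ) / (q : ℝ)) := by
      field_simp
    rw [h1, abs_mul, abs_of_pos hq0]
  have hqε : (q:ℝ) * ε ≤ 1 := by
    rw [le_div_iff₀ hε0] at hq
    exact hq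
  -- `nd (q δ) < tau (ψ x)`
  have hsq : (nd (q * δ)) ^ 2 < 2 * ψ x := by
    rw [hndq]
    -- `(μ^3 q η)^2 ≤ (4 W ψ)^2`
    have h1 : μ ^ 3 * (q * η) ≤ 4 * W * ψ x := by
      calc μ ^ 3 * (q * η) = (q * (ε * (4 * W))) * (μ * η) := by rw [hεW]; ring
        _ = (q * ε) * (4 * W) * (μ * η) := by ring
        _ ≤ 1 * (4 * W) * (μ * η) := by gcongr
        _ ≤ 1 * (4 * W) * ψ x := by gcongr
        _ = 4 * W * ψ x := by ring
    have h2 : (μ ^ 3 * (q * η)) ^ 2 ≤ (4 * W * ψ x) ^ 2 :=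
      pow_le_pow_left₀ (by positivity) h1 2
    have h3 : (4 * W * ψ x) ^ 2 ≤ ψ x * (μ ^ 8 / 2) := by
      have : (4 * W * ψ x) ^ 2 = ψ x * (ψ x * (32 * W ^ 2) / 2) := by ring
      rw [this]
      exact mul_le_mul_of_nonneg_left (by linarith only [hDx]) hψx.le
    have h4 : μ ^ 6 * (q * η) ^ 2 < μ ^ 6 * (2 * ψ x) := by
      have h5 := hmup 6 8 (by norm_num)
      have h6 : ψ x * (μ ^ 8 / 2) ≤ ψ x * (μ ^ 6 / 2) :=
        mul_le_mul_of_nonneg_left (by linarith only [h5]) hψx.le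
      have h7 : 0 < ψ x * μ ^ 6 := by positivity
      calc μ ^ 6 * (q * η) ^ 2 = (μ ^ 3 * (q * η)) ^ 2 := by ring
        _ ≤ ψ x * (μ ^ 6 / 2) := (h2.trans h3).trans h6
        _ < μ ^ 6 * (2 * ψ x) := by
            have e1 : ψ x * (μ ^ 6 / 2) = (ψ x * μ ^ 6) / 2 := by ring
            have e2 : μ ^ 6 * (2 * ψ x) = 2 * (ψ x * μ ^ 6) := by ring
            rw [e1, e2]
            linarith only [h7]
    exact lt_of_mul_lt_mul_left h4 (by positivity)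
  have htau1 : nd (q * δ) < tau (ψ x) := by
    unfold tau
    exact Real.lt_sqrt_of_sq_lt hsq
  have htau0 : 0 < tau (ψ x) := by
    unfold tau
    exact Real.sqrt_pos.2 (by linarith)
  have htau2 : tau (ψ x) ≤ ε := by
    unfold tau
    rw [Real.sqrt_le_left hε0.le]
    have h1 : ε ^ 2 * (16 * W ^ 2) = μ ^ 4 := by
      have : ε ^ 2 * (16 * W ^ 2) = (ε * (4 * W)) ^ 2 := by ring
      rw [this, hεW]
      ring
    have h2 : (2 * ψ x) * (16 * W ^ 2) ≤ ε ^ 2 * (16 * W ^ 2) := by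
      rw [h1]
      have h3 := hmup 4 8 (by norm_num)
      linarith only [h3, hDx]
    exact le_of_mul_le_mul_right h2 (by positivity)
  have hqtau : qmin δ (tau (ψ x)) = q := by
    obtain ⟨t1, t2, t3, _⟩ := qmin_spec δ (tau (ψ x)) htau0
    apply le_antisymm
    · exact t3 q hq1 htau1
    · exact hqmin _ t1 (lt_of_lt_of_le t2 htau2)
  have hempty := hov.2.2.2 hsmall ha2 (by
    rw [hqtau]
    exact hr1)
  have : BB δ ψ x ∩ BB δ ψ y = ∅ := hempty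
  rw [this] at hne
  exact Set.not_nonempty_empty hne

end Pool.Agent.MP_0863b8.F
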