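import Pool.Agent.Work.MP_0863b8_nt.Bd.B01

/-!
MP_0863b8_nt, F7: counting points of a rotation near the integers.
-/

namespace Pool.Agent.MP_0863b8.F

open Classical in
/-- a finite set of integers of diameter at most `L` -/
private theorem card_int (F : Finset ℤ) (L : ℝ) (hL : 0 ≤ L)
    (h : ∀ x ∈ F, ∀ y ∈ F, (x:ℝ) - y ≤ L) : (F.card : ℝ) ≤ L + 1 := by
  rcases F.eq_empty_or_nonempty with h0 | hne
  · subst h0; simp; linarith
  · have hmin := F.min'_mem hne
    have hsub : F ⊆ Finset.Icc (F.min' hne) (F.min' hne + ⌊L⌋) := by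
      intro x hx
      rw [Finset.mem_Icc]
      refine ⟨F.min'_le x hx, ?_⟩
      have := h x hx _ hmin
      have h2 : ((x - F.min' hne : ℤ) : ℝ) ≤ L := by push_cast; exact this
      have h3 := Int.le_floor.mpr h2
      omega
    have hc := Finset.card_le_card hsub
    rw [Int.card_Icc] at hc
    have h0 : 0 ≤ ⌊L⌋ := Int.floor_nonneg.mpr hL
    have h1 : ((F.min' hne + ⌊L⌋ + 1 - F.min' hne).toNat : ℤ) = ⌊L⌋ + 1 := by
      rw [Int.toNat_of_nonneg (by omega)]; ring
    have h2 : (F.card : ℤ) ≤ ⌊L⌋ + 1 := by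
      rw [← h1]; exact_mod_cast hc
    have h3 : (F.card : ℝ) ≤ (⌊L⌋ : ℝ) + 1 := by exact_mod_cast h2
    have h4 := Int.floor_le L
    linarith

open Classical in
private theorem card_nat (F : Finset ℕ) (L : ℝ) (hL : 0 ≤ L)
    (h : ∀ x ∈ F, ∀ y ∈ F, (x:ℝ) - y ≤ L) : (F.card : ℝ) ≤ L + 1 := by
  have h1 := card_int (F.image (fun n : ℕ => (n : ℤ))) L hL (by
    intro x hx y hy
    simp only [Finset.mem_image] at hx hy
    obtain ⟨a, ha, rfl⟩ := hx
    obtain ⟨b, hb, rfl⟩ := hy
    have := h a ha b hb
    push_cast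
    exact this)
  rw [Finset.card_image_of_injective _ Nat.cast_injective] at h1
  exact h1

private theorem nd_neg' (x : ℝ) : nd (-x) ≤ nd x := by
  unfold nd
  have h := round_le (-x) (-round x)
  calc |-x - round (-x)| ≤ |-x - ((-round x : ℤ) : ℝ)| := h
    _ = |x - round x| := by
      push_cast
      rw [← abs_neg]; congr 1; ring

private theorem nd_neg'' (x : ℝ) : nd (-x) = nd x := by
  apply le_antisymm (nd_neg' x)
  have := nd_neg' (-x)
  rwa [neg_neg] at this

private theorem nd_add_int (x : ℝ) (m : ℤ) : nd (x + m) = nd x := by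
  unfold nd
  rw [round_add_intCast]
  push_cast
  congr 1; ring

open Classical in
private theorem slow_pos (μ c ω : ℝ) (I : ℕ) (hμ : 0 < μ) (hμ8 : μ ≤ 1/8) (h0 : 0 < ω)
    (hω : ω ≤ μ) (hI : μ ^ 2 / 8 ≤ I * ω) (hI2 : 2 / μ ≤ I) :
    (((Finset.range I).filter (fun i : ℕ => nd (c + i * ω) < 2 * μ ^ 3)).card : ℝ) ≤
      100 * μ * I := by
  set S := (Finset.range I).filter (fun i : ℕ => nd (c + i * ω) < 2 * μ ^ 3) with hS
  set f : ℕ → ℤ := fun i => round (c + i * ω) with hf
  have hmem : ∀ i ∈ S, i < I ∧ |c + i * ω - f i| < 2 * μ ^ 3 := by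
    intro i hi
    rw [hS, Finset.mem_filter, Finset.mem_range] at hi
    exact hi
  have hIpos : (0:ℝ) < I := lt_of_lt_of_le (by positivity) hI2
  have hI1 : 1 ≤ I := by
    have : 0 < I := by exact_mod_cast hIpos
    omega
  have hμ3 : 4 * μ ^ 3 ≤ 1 := by
    have : μ ^ 3 ≤ (1/8)^3 := pow_le_pow_left₀ hμ.le hμ8 3
    linarith
  -- the image
  have him : ((S.image f).card : ℝ) ≤ I * ω + 2 := by
    have := card_int (S.image f) (I * ω + 1) (by positivity) (by
      intro x hx y hy
      rw [Finset.mem_image] at hx hy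
      obtain ⟨i, hi, rfl⟩ := hx
      obtain ⟨j, hj, rfl⟩ := hy
      obtain ⟨hi1, hi2⟩ := hmem i hi
      obtain ⟨hj1, hj2⟩ := hmem j hj
      rw [abs_lt] at hi2 hj2
      have h1 : ((i:ℝ) - j) * ω ≤ I * ω := by
        apply mul_le_mul_of_nonneg_right _ h0.le
        have : (i:ℝ) < I := by exact_mod_cast hi1
        have h2 : (0:ℝ) ≤ j := Nat.cast_nonneg j
        linarith
      linarith [hi2.1, hi2.2, hj2.1, hj2.2])
    linarith
  -- the fibres
  set n : ℕ := ⌊4 * μ ^ 3 / ω + 1⌋₊ with hn
  have hfib : ∀ b ∈ S.image f, (S.filter (fun a => f a = b)).card ≤ n := by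
    intro b _
    rw [hn]
    apply Nat.le_floor
    apply card_nat _ _ (by positivity)
    intro x hx y hy
    rw [Finset.mem_filter] at hx hy
    obtain ⟨hx1, hx2⟩ := hx
    obtain ⟨hy1, hy2⟩ := hy
    obtain ⟨_, hx3⟩ := hmem x hx1
    obtain ⟨_, hy3⟩ := hmem y hy1
    rw [hx2] at hx3
    rw [hy2] at hy3
    rw [abs_lt] at hx3 hy3
    rw [le_div_iff₀ h0]
    linarith [hx3.1, hx3.2, hy3.1, hy3.2]
  have hcard := Finset.card_le_mul_card_image S n hfib
  have hcard' : (S.card : ℝ) ≤ n * ((S.image f).card : ℝ) := by exact_mod_cast hcard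
  have hnle : (n : ℝ) ≤ 4 * μ ^ 3 / ω + 1 := Nat.floor_le (by positivity)
  have h1 : (S.card : ℝ) ≤ (4 * μ ^ 3 / ω + 1) * (I * ω + 2) :=
    hcard'.trans (mul_le_mul hnle him (Nat.cast_nonneg _) (by positivity))
  have h2 : (4 * μ ^ 3 / ω + 1) * (I * ω + 2) =
      4 * μ ^ 3 * I + I * ω + 8 * μ ^ 3 * (1 / ω) + 2 := by
    field_simp
    ring
  have h3 : 1 / ω ≤ 8 * I / μ ^ 2 := by
    rw [div_le_div_iff₀ h0 (by positivity)]
    linarith
  have h4 : 8 * μ ^ 3 * (1 / ω) ≤ 64 * (μ * I) := by
    calc 8 * μ ^ 3 * (1 / ω) ≤ 8 * μ ^ 3 * (8 * I / μ ^ 2) :=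
          mul_le_mul_of_nonneg_left h3 (by positivity)
      _ = 64 * (μ * I) := by field_simp; ring
  have h5 : 2 ≤ μ * I := by
    rw [div_le_iff₀ hμ] at hI2
    linarith
  have h6 : I * ω ≤ μ * I := by
    rw [mul_comm]
    exact mul_le_mul_of_nonneg_right hω hIpos.le
  have h7 : 4 * μ ^ 3 * I ≤ μ * I := by
    apply mul_le_mul_of_nonneg_right _ hIpos.le
    have : μ ^ 2 ≤ (1/8)^2 := pow_le_pow_left₀ hμ.le hμ8 2
    nlinarith
  have h8 : 0 ≤ μ * I := by positivity
  rw [h2] at h1
  calc (S.card : ℝ) ≤ _ := h1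
    _ ≤ 100 * μ * I := by nlinarith

theorem slowRot : SlowRot := by
  intro μ c ω I hμ hμ8 hω hI hI2
  rcases lt_trichotomy ω 0 with h | h | h
  · rw [abs_of_neg h] at hω hI
    have := slow_pos μ (-c) (-ω) I hμ hμ8 (by linarith) hω hI hI2
    have e : (Finset.range I).filter (fun i : ℕ => nd (c + i * ω) < 2 * μ ^ 3) =
        (Finset.range I).filter (fun i : ℕ => nd (-c + i * -ω) < 2 * μ ^ 3) := by
      apply Finset.filter_congr
      intro i _
      have : -c + (i:ℝ) * -ω = -(c + i * ω) := by ring
      rw [this, nd_neg'']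
    rw [e]
    exact this
  · exfalso
    subst h
    simp at hI
    have : 0 < μ ^ 2 := by positivity
    linarith
  · rw [abs_of_pos h] at hω hI
    exact slow_pos μ c ω I hμ hμ8 h hω hI hI2

theorem fastRot (hslow : SlowRot) : FastRot := by
  classical
  intro μ ε θ ξ B hμ hμ8 hε hε2 hB hr
  set S := (Finset.Ico B (2 * B)).filter (fun b : ℕ => nd (b * θ - ξ) < 2 * μ ^ 3) with hS
  have hBpos : (0:ℝ) < B := lt_of_lt_of_le (by positivity) hB
  have hμB : 24 ≤ μ * B := by
    have h1 : 3 / μ ^ 2 ≤ 1 / ε := by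
      rw [div_le_div_iff₀ (by positivity) hε]
      linarith
    have h2 : 3 / μ ≤ μ * B := by
      calc 3 / μ = μ * (3 / μ ^ 2) := by field_simp
        _ ≤ μ * B := mul_le_mul_of_nonneg_left (h1.trans hB) hμ.le
    have h3 : 24 ≤ 3 / μ := by
      rw [le_div_iff₀ hμ]; linarith
    linarith
  have hmem : ∀ b ∈ S, (B ≤ b ∧ b < 2 * B) ∧ nd (b * θ - ξ) < 2 * μ ^ 3 := by
    intro b hb
    rw [hS, Finset.mem_filter, Finset.mem_Ico] at hb
    exact hb
  -- differences
  have hdiff : ∀ b ∈ S, ∀ b' ∈ S, b < b' → nd (((b' - b : ℕ) : ℝ) * θ) < 4 * μ ^ 3 := by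
    intro b hb b' hb' hlt
    have h1 := (hmem b hb).2
    have h2 := (hmem b' hb').2
    unfold nd at h1 h2
    rw [abs_lt] at h1 h2
    have h3 := round_le (((b' - b : ℕ) : ℝ) * θ)
      (round ((b':ℝ) * θ - ξ) - round ((b:ℝ) * θ - ξ))
    unfold nd
    refine lt_of_le_of_lt h3 ?_
    rw [Nat.cast_sub hlt.le]
    push_cast
    rw [abs_lt]
    constructor <;> nlinarith [h1.1, h1.2, h2.1, h2.2]
  by_cases hex : ∃ d : ℕ, 1 ≤ d ∧ nd ((d:ℝ) * θ) < 4 * μ ^ 3
  swap
  · -- at most one element
    have hcard : S.card ≤ 1 := by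
      rw [Finset.card_le_one]
      intro a ha b hb
      by_contra hne
      rcases lt_or_gt_of_ne hne with h | h
      · exact hex ⟨b - a, by omega, hdiff a ha b hb h⟩
      · exact hex ⟨a - b, by omega, hdiff b hb a ha h⟩
    have : (S.card : ℝ) ≤ 1 := by exact_mod_cast hcard
    linarith
  · set r := Nat.find hex with hrdef
    have hr1 : 1 ≤ r := (Nat.find_spec hex).1
    have hr2 : nd ((r:ℝ) * θ) < 4 * μ ^ 3 := (Nat.find_spec hex).2
    have hrmin : ∀ d : ℕ, 1 ≤ d → nd ((d:ℝ) * θ) < 4 * μ ^ 3 → r ≤ d :=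
      fun d h1 h2 => Nat.find_min' hex ⟨h1, h2⟩
    have hrpos : (0:ℝ) < r := by exact_mod_cast hr1
    rcases lt_or_ge (1 / μ) (r:ℝ) with hcase | hcase
    · -- large gaps
      have hinj : Set.InjOn (fun b : ℕ => b / r) (S : Set ℕ) := by
        intro a ha b hb hab
        by_contra hne
        simp only at hab
        have key : ∀ x ∈ S, ∀ y ∈ S, x < y → x / r = y / r → False := by
          intro x hx y hy hxy hq
          have h1 := hrmin (y - x) (by omega) (hdiff x hx y hy hxy)
          have h2 := Nat.div_add_mod x r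
          have h3 := Nat.div_add_mod y r
          have h4 := Nat.mod_lt y (show 0 < r by omega)
          rw [hq] at h2
          omega
        rcases lt_or_gt_of_ne hne with h | h
        · exact key a ha b hb h hab
        · exact key b hb a ha h hab.symm
      have hc : S.card = (S.image (fun b : ℕ => b / r)).card :=
        (Finset.card_image_of_injOn hinj).symm
      have hle : ((S.image (fun b : ℕ => b / r)).card : ℝ) ≤ (B / r + 1) + 1 := by
        apply card_nat _ _ (by positivity)
        intro x hx y hy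
        rw [Finset.mem_image] at hx hy
        obtain ⟨a, ha, rfl⟩ := hx
        obtain ⟨b, hb, rfl⟩ := hy
        have ha' := (hmem a ha).1
        have hb' := (hmem b hb).1
        have h1 : ((a / r : ℕ) : ℝ) ≤ a / r := Nat.cast_div_le
        have h2 : (b:ℝ) / r < ((b / r : ℕ) : ℝ) + 1 := by
          rw [div_lt_iff₀ hrpos]
          have h3 := Nat.div_add_mod b r
          have h4 := Nat.mod_lt b (show 0 < r by omega)
          have h5 : b < (b / r + 1) * r := by
            calc b = r * (b / r) + b % r := h3.symm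
              _ < r * (b / r) + r := by omega
              _ = (b / r + 1) * r := by ring
          exact_mod_cast h5
        have h3 : (a:ℝ) / r - b / r ≤ B / r := by
          rw [← sub_div]
          apply div_le_div_of_nonneg_right _ hrpos.le
          have : (a:ℝ) < 2 * B := by exact_mod_cast ha'.2
          have : (B:ℝ) ≤ b := by exact_mod_cast hb'.1
          linarith
        linarith
      have hBr : (B:ℝ) / r ≤ μ * B := by
        rw [div_le_iff₀ hrpos]
        have h1 : 1 ≤ μ * r := by
          rw [div_lt_iff₀ hμ] at hcase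
          linarith
        nlinarith
      rw [hc]
      linarith
    · -- small denominators
      have hεr : ε ≤ nd ((r:ℝ) * θ) := hr r hr1 hcase
      set I : ℕ := B / r + 1 with hI
      set ω : ℝ := (r:ℝ) * θ - round ((r:ℝ) * θ) with hω
      have hωabs : |ω| = nd ((r:ℝ) * θ) := rfl
      have hI1 : (B:ℝ) / r ≤ I := by
        rw [div_le_iff₀ hrpos]
        have h3 := Nat.div_add_mod B r
        have h4 := Nat.mod_lt B (show 0 < r by omega)
        have h5 : B ≤ (B / r + 1) * r := by
          calc B = r * (B / r) + B % r := h3.symm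
            _ ≤ r * (B / r) + r := by omega
            _ = (B / r + 1) * r := by ring
        exact_mod_cast h5
      have hI2 : (I:ℝ) ≤ B / r + 1 := by
        rw [hI]
        push_cast
        have : ((B / r : ℕ) : ℝ) ≤ B / r := Nat.cast_div_le
        linarith
      have hrμ : (r:ℝ) * μ ≤ 1 := by
        rw [le_div_iff₀ hμ] at hcase
        exact hcase
      have hω1 : |ω| ≤ μ := by
        rw [hωabs]
        have : 4 * μ ^ 3 ≤ μ := by
          have : μ ^ 2 ≤ (1/8)^2 := pow_le_pow_left₀ hμ.le hμ8 2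
          nlinarith
        linarith
      have hBε : 1 ≤ B * ε := by
        rw [div_le_iff₀ hε] at hB
        exact hB
      have hIω : μ ^ 2 / 8 ≤ I * |ω| := by
        have h1 : (B:ℝ) / r * ε ≤ I * |ω| :=
          mul_le_mul hI1 (by rw [hωabs]; exact hεr) hε.le (Nat.cast_nonneg _)
        have h2 : μ ≤ (B:ℝ) / r * ε := by
          rw [div_mul_eq_mul_div, le_div_iff₀ hrpos]
          linarith
        have h3 : μ ^ 2 / 8 ≤ μ := by nlinarith
        linarith
      have hI3 : 2 / μ ≤ I := by
        have h1 : μ * B ≤ (B:ℝ) / r := by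
          rw [le_div_iff₀ hrpos]
          nlinarith
        have h2 : 2 / μ ≤ μ * B := by
          rw [div_le_iff₀ hμ]
          have h3 : 3 / μ ^ 2 ≤ 1 / ε := by
            rw [div_le_div_iff₀ (by positivity) hε]
            linarith
          have h4 : 3 ≤ B * μ ^ 2 := by
            have := h3.trans hB
            rw [div_le_iff₀ (by positivity)] at this
            exact this
          nlinarith
        linarith
      -- classes
      have hsub : S.card ≤ ∑ j ∈ Finset.range r, ((Finset.range I).filter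
          (fun i : ℕ => nd ((((B + j : ℕ) : ℝ) * θ - ξ) + i * ω) < 2 * μ ^ 3)).card := by
        have hsub1 : S ⊆ (Finset.range r).biUnion (fun j =>
            ((Finset.range I).filter
              (fun i : ℕ => nd ((((B + j : ℕ) : ℝ) * θ - ξ) + i * ω) < 2 * μ ^ 3)).image
              (fun i => B + j + r * i)) := by
          intro b hb
          obtain ⟨⟨hb1, hb2⟩, hb3⟩ := hmem b hb
          rw [Finset.mem_biUnion]
          refine ⟨(b - B) % r, Finset.mem_range.mpr (Nat.mod_lt _ (by omega)), ?_⟩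
          rw [Finset.mem_image]
          have hdm := Nat.div_add_mod (b - B) r
          refine ⟨(b - B) / r, ?_, by omega⟩
          rw [Finset.mem_filter, Finset.mem_range]
          constructor
          · rw [hI]
            have : (b - B) / r ≤ B / r := Nat.div_le_div_right (by omega)
            omega
          · have hbe : (b:ℝ) = ((B + (b - B) % r : ℕ) : ℝ) + r * (((b - B) / r : ℕ) : ℝ) := by
              have : b = B + (b - B) % r + r * ((b - B) / r) := by omega
              exact_mod_cast this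
            have e0 : ∀ (q : ℕ) (x : ℝ), x + q * ((r:ℝ) * θ) =
                (x + q * ω) + ((((q : ℕ) : ℤ) * round ((r:ℝ) * θ) : ℤ) : ℝ) := by
              intro q x
              rw [hω]
              push_cast
              ring
            have e : (b:ℝ) * θ - ξ =
                (((B + (b - B) % r : ℕ) : ℝ) * θ - ξ) + (((b - B) / r : ℕ) : ℝ) * ((r:ℝ) * θ) := by
              rw [hbe]
              ring
            rw [e0] at e
            rw [e, nd_add_int] at hb3
            exact hb3
        refine (Finset.card_le_card hsub1).trans ?_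
        refine Finset.card_biUnion_le.trans ?_
        apply Finset.sum_le_sum
        intro j _
        exact Finset.card_image_le
      have hsub' : (S.card : ℝ) ≤ ∑ j ∈ Finset.range r, 100 * μ * I := by
        calc (S.card : ℝ) ≤ ((∑ j ∈ Finset.range r, ((Finset.range I).filter
          (fun i : ℕ => nd ((((B + j : ℕ) : ℝ) * θ - ξ) + i * ω) < 2 * μ ^ 3)).card : ℕ) : ℝ) := by
              exact_mod_cast hsub
          _ = ∑ j ∈ Finset.range r, (((Finset.range I).filter
          (fun i : ℕ => nd ((((B + j : ℕ) : ℝ) * θ - ξ) + i * ω) < 2 * μ ^ 3)).card : ℝ) := by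
              push_cast; rfl
          _ ≤ _ := by
              apply Finset.sum_le_sum
              intro j _
              have := hslow μ (((B + j : ℕ) : ℝ) * θ - ξ) ω I hμ hμ8 hω1 hIω hI3
              convert this using 2
      rw [Finset.sum_const, Finset.card_range, nsmul_eq_mul] at hsub'
      have h1 : (r:ℝ) * (100 * μ * I) ≤ r * (100 * μ * (B / r + 1)) := by
        apply mul_le_mul_of_nonneg_left _ hrpos.le
        apply mul_le_mul_of_nonneg_left hI2 (by positivity)
      have h2 : (r:ℝ) * (100 * μ * (B / r + 1)) = 100 * μ * B + 100 * (r * μ) := by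
        field_simp
      rw [h2] at h1
      linarith

end Pool.Agent.MP_0863b8.F
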