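import Pool.Agent.Work.MP_0863b8_nt.Bd.B01

/-!
MP_0863b8_nt, F8d: the modified sums over primes.
-/

namespace Pool.Agent.MP_0863b8.F

theorem rpsStmt : RpsStmt := by
  refine ⟨3, le_rfl, ?_⟩
  intro k n C1 hk hn hn2 hC
  have hkr : (3 : ℝ) ≤ k := by exact_mod_cast hk
  have hk0 : (0 : ℝ) < k := by linarith
  have hk1 : (1 : ℝ) ≤ k := by linarith
  set L := Real.log k with hL
  have hL1 : 1 ≤ L := by
    rw [hL, Real.le_log_iff_exp_le hk0]
    have := Real.exp_one_lt_d9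
    linarith
  have hL0 : 0 < L := by linarith
  set σ : ℝ := 1 / (16 * L) with hσ
  have hσ0 : 0 < σ := by positivity
  have hσ1 : σ ≤ 1 / 16 := by
    rw [hσ]
    apply one_div_le_one_div_of_le (by norm_num)
    linarith
  have hσL : σ * L = 1 / 16 := by
    rw [hσ]
    field_simp
  have h2 : Real.exp (11 / 16) ≤ 2 := by
    rw [← Real.le_log_iff_exp_le (by norm_num)]
    have := Real.log_two_gt_d9
    linarith
  have hterm : ∀ p ∈ n.primeFactors,
      (p : ℝ) ^ (-(1 - σ)) ≤ 2 * ((1 : ℝ) / p) + (k : ℝ) ^ (-(10 : ℝ)) := by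
    intro p hp
    have hpp := Nat.prime_of_mem_primeFactors hp
    have hp0 : (0 : ℝ) < p := by exact_mod_cast hpp.pos
    have hpk0 : 0 ≤ (k : ℝ) ^ (-(10 : ℝ)) := Real.rpow_nonneg hk0.le _
    by_cases hpk : (p : ℝ) ≤ (k : ℝ) ^ (11 : ℝ)
    · have h3 : (p : ℝ) ^ (-(1 - σ)) = (p : ℝ) ^ σ * (1 / p) := by
        rw [show -(1 - σ) = σ + (-1) by ring, Real.rpow_add hp0, Real.rpow_neg_one, one_div]
      have h4 : (p : ℝ) ^ σ ≤ 2 := by
        calc (p : ℝ) ^ σ ≤ ((k : ℝ) ^ (11 : ℝ)) ^ σ := Real.rpow_le_rpow hp0.le hpk hσ0.le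
          _ = Real.exp (11 / 16) := by
              rw [← Real.rpow_mul hk0.le, Real.rpow_def_of_pos hk0]
              congr 1
              rw [← hL]
              linear_combination 11 * hσL
          _ ≤ 2 := h2
      have h5 : 0 ≤ (1 : ℝ) / p := by positivity
      rw [h3]
      nlinarith
    · push Not at hpk
      have h3 : (p : ℝ) ^ (-(1 - σ)) ≤ ((k : ℝ) ^ (11 : ℝ)) ^ (-(1 - σ)) :=
        Real.rpow_le_rpow_of_nonpos (Real.rpow_pos_of_pos hk0 _) hpk.le (by linarith)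
      have h4 : ((k : ℝ) ^ (11 : ℝ)) ^ (-(1 - σ)) ≤ (k : ℝ) ^ (-(10 : ℝ)) := by
        rw [← Real.rpow_mul hk0.le]
        apply Real.rpow_le_rpow_of_exponent_le hk1
        linarith
      have h5 : 0 ≤ (1 : ℝ) / p := by positivity
      linarith
  have hcard : n.primeFactors.card ≤ 2 * k := by
    have h3 : 2 ^ n.primeFactors.card ≤ ∏ p ∈ n.primeFactors, p :=
      Finset.pow_card_le_prod _ _ _ fun p hp => (Nat.prime_of_mem_primeFactors hp).two_le
    have h4 : ∏ p ∈ n.primeFactors, p ≤ n := Nat.le_of_dvd hn (Nat.prod_primeFactors_dvd n)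
    have h5 : 2 ^ n.primeFactors.card < 2 ^ (2 * k) := lt_of_le_of_lt (h3.trans h4) hn2
    exact ((Nat.pow_lt_pow_iff_right (by norm_num)).1 h5).le
  have hcardr : (n.primeFactors.card : ℝ) ≤ 2 * k := by exact_mod_cast hcard
  have hlast : (n.primeFactors.card : ℝ) * (k : ℝ) ^ (-(10 : ℝ)) ≤ 1 := by
    have h3 : (k : ℝ) ^ (-(10 : ℝ)) = ((k : ℝ) ^ 10)⁻¹ := by
      rw [Real.rpow_neg hk0.le]
      congr 1
      exact_mod_cast Real.rpow_natCast (k : ℝ) 10
    rw [h3, ← div_eq_mul_inv, div_le_one (by positivity)]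
    have h4 : (2 : ℝ) ≤ (k : ℝ) ^ 9 := by
      have : (1 : ℝ) ≤ (k : ℝ) ^ 8 := one_le_pow₀ hk1
      rw [pow_succ]
      nlinarith
    calc (n.primeFactors.card : ℝ) ≤ 2 * k := hcardr
      _ ≤ (k : ℝ) ^ 9 * k := by gcongr
      _ = (k : ℝ) ^ 10 := by ring
  calc rps σ n ≤ ∑ p ∈ n.primeFactors, (2 * ((1 : ℝ) / p) + (k : ℝ) ^ (-(10 : ℝ))) :=
        Finset.sum_le_sum hterm
    _ = 2 * rp n + (n.primeFactors.card : ℝ) * (k : ℝ) ^ (-(10 : ℝ)) := by
        rw [Finset.sum_add_distrib, ← Finset.mul_sum, Finset.sum_const, nsmul_eq_mul]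
        rfl
    _ ≤ 2 * C1 + 1 := by linarith

end Pool.Agent.MP_0863b8.F
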