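import Pool.Agent.Work.MP_0863b8_nt.Bd.B01
import Pool.Agent.Work.MP_0863b8_nt.Bd.B02

/-!
MP_0863b8_nt, item F10: the second moment bound for quickly decaying functions.
-/

set_option autoImplicit false

namespace Pool.Agent.MP_0863b8.F

open MeasureTheory Filter

/-- late pairs: nonspecial with small lcm -/
def LateP (δ : ℝ) (lev : ℕ → ℕ) (z : ℕ × ℕ) : Prop :=
  NSP δ lev z ∧ (lev z.1) ^ 12 * (z.1.lcm z.2) < 2 ^ (lev z.1)

/-- early pairs -/
def EarlyP (δ : ℝ) (ψ : ℕ → ℝ) (lev : ℕ → ℕ) (z : ℕ × ℕ) : Prop :=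
  z.1 ≠ z.2 ∧ ψ z.2 / z.2 ≤ ψ z.1 / z.1 ∧ 2 ≤ z.1 / z.1.gcd z.2 ∧
  2 * ((z.2 / z.1.gcd z.2 : ℕ) : ℝ) * ψ z.1 < 1 / 2 ∧
  2 ^ (lev z.1) ≤ (lev z.1) ^ 12 * (z.1.lcm z.2) ∧
  (BB δ ψ z.1 ∩ BB δ ψ z.2).Nonempty

theorem lev_unique (ψ : ℕ → ℝ) (k k' n : ℕ) (h : lv ψ k n) (h' : lv ψ k' n) : k = k' := by
  obtain ⟨g1, g2⟩ := h
  obtain ⟨l1, l2⟩ := h'
  apply le_antisymm
  · by_contra hcon
    push Not at hcon
    have : (1/2:ℝ) ^ k ≤ (1/2) ^ (k' + 1) :=
      pow_le_pow_of_le_one (by norm_num) (by norm_num) hcon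
    linarith
  · by_contra hcon
    push Not at hcon
    have : (1/2:ℝ) ^ k' ≤ (1/2) ^ (k + 1) :=
      pow_le_pow_of_le_one (by norm_num) (by norm_num) hcon
    linarith

theorem lt_pow_lev (ψ : ℕ → ℝ) (k n : ℕ) (hn : 0 < n) (h8 : ψ n ≤ 1 / 8) (h : lv ψ k n) :
    n < 2 ^ k := by
  have hnR : (0:ℝ) < n := by exact_mod_cast hn
  have h1 := h.1
  rw [lt_div_iff₀ hnR] at h1
  have h2 : (1/2:ℝ) ^ (k + 1) * n < 1 / 8 := lt_of_lt_of_le h1 h8
  have h3 : (n:ℝ) < 2 ^ k := by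
    have h4 : (2:ℝ) ^ (k + 1) * ((1/2:ℝ) ^ (k + 1) * n) = n := by
      rw [← mul_assoc, ← mul_pow]
      norm_num
    have h5 : (2:ℝ) ^ (k + 1) * ((1/2:ℝ) ^ (k + 1) * n) < 2 ^ (k + 1) * (1 / 8) :=
      mul_lt_mul_of_pos_left h2 (by positivity)
    rw [h4, pow_succ] at h5
    have : (0:ℝ) < 2 ^ k := by positivity
    linarith
  exact_mod_cast h3

open Classical in
/-- the late pairs -/
theorem sum_late (h5 : NonspecStmt) (h6 : LateSum) (h7 : DivSumStmt) (c : ℝ)
    (hc : 0 < c) :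
    ∃ C : ℝ, 0 < C ∧ ∀ (δ : ℝ) (ψ : ℕ → ℝ) (S : Finset ℕ) (lev : ℕ → ℕ),
    (∀ n ∈ S, 0 < n ∧ c ≤ (Nat.totient n : ℝ) / n ∧ 0 < ψ n ∧ ψ n ≤ 1 / 8) →
    ∑ n ∈ S, ψ n ≤ 1 →
    (∀ n ∈ S, lv ψ (lev n) n) →
    ∑ z ∈ (S ×ˢ S).filter (fun z => LateP δ lev z), ψ z.2 / ((z.2 / z.1.gcd z.2 : ℕ) : ℝ) ≤ C := by
  obtain ⟨Cn, hCn, hn⟩ := h5 (1 / c)
  obtain ⟨Cs, hCs, hs⟩ := h6
  refine ⟨Cn * Cs, by positivity, ?_⟩
  intro δ ψ S lev hS hsum hlev
  -- a bound for all indices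
  obtain ⟨N, hN⟩ : ∃ N : ℕ, ∀ n ∈ S, lev n < N ∧ Nat.log 2 n < N ∧
      ∀ b : ℕ, b ≤ n → Nat.clog 2 b < N := by
    refine ⟨∑ n ∈ S, (lev n + Nat.log 2 n + Nat.clog 2 n + 1), ?_⟩
    intro n hn
    have h1 : lev n + Nat.log 2 n + Nat.clog 2 n + 1 ≤
        ∑ n ∈ S, (lev n + Nat.log 2 n + Nat.clog 2 n + 1) :=
      Finset.single_le_sum (f := fun n => lev n + Nat.log 2 n + Nat.clog 2 n + 1)
        (fun _ _ => Nat.zero_le _) hn
    refine ⟨by omega, by omega, ?_⟩
    intro b hb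
    have := Nat.clog_mono_right 2 hb
    omega
  -- class masses
  set xx : ℕ → ℕ → ℝ := fun k s => cmass ψ S k s with hxx
  have hcm : ∀ k s, cmass ψ S k s = ∑ n ∈ S.filter (fun n => inClass ψ k s n), ψ n := by
    intro k s
    rfl
  have hclass : ∀ n ∈ S, inClass ψ (lev n) (Nat.log 2 n) n := by
    intro n hn
    have hn0 := (hS n hn).1
    exact ⟨Nat.pow_log_le_self 2 hn0.ne', Nat.lt_pow_succ_log_self (by norm_num) n,
      (hlev n hn).1, (hlev n hn).2⟩
  have hclassu : ∀ n k s, inClass ψ k s n → n ∈ S → k = lev n ∧ s = Nat.log 2 n := by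
    intro n k s hk hn
    obtain ⟨g1, g2, g3, g4⟩ := hk
    exact ⟨lev_unique ψ k (lev n) n ⟨g3, g4⟩ (hlev n hn),
      (Nat.log_eq_of_pow_le_of_lt_pow g1 g2).symm⟩
  have hlog : ∀ n ∈ S, Nat.log 2 n ≤ lev n := by
    intro n hn
    have h1 := lt_pow_lev ψ (lev n) n (hS n hn).1 (hS n hn).2.2.2 (hlev n hn)
    have h2 := Nat.log_lt_of_lt_pow (hS n hn).1.ne' h1
    omega
  have hx0 : ∀ k s, 0 ≤ xx k s := by
    intro k s
    apply Finset.sum_nonneg
    intro n hn
    rw [Finset.mem_filter] at hn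
    exact (hS n hn.1).2.2.1.le
  have hxsum : ∑ k ∈ Finset.range N, ∑ s ∈ Finset.range N, xx k s ≤ 1 := by
    refine le_trans (le_of_eq ?_) hsum
    have hm1 : ∀ n ∈ S, lev n ∈ Finset.range N := fun n hn => Finset.mem_range.mpr (hN n hn).1
    rw [← Finset.sum_fiberwise_of_maps_to hm1]
    apply Finset.sum_congr rfl
    intro k _
    have hm2 : ∀ n ∈ S.filter (fun n => lev n = k), Nat.log 2 n ∈ Finset.range N := by
      intro n hn
      rw [Finset.mem_filter] at hn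
      exact Finset.mem_range.mpr (hN n hn.1).2.1
    rw [← Finset.sum_fiberwise_of_maps_to hm2]
    apply Finset.sum_congr rfl
    intro s _
    rw [hxx]
    simp only
    rw [hcm]
    apply Finset.sum_congr _ (fun _ _ => rfl)
    ext n
    simp only [Finset.mem_filter]
    constructor
    · rintro ⟨h1, h2⟩
      obtain ⟨e1, e2⟩ := hclassu n k s h2 h1
      exact ⟨⟨h1, e1.symm⟩, e2.symm⟩
    · rintro ⟨⟨h1, h2⟩, h3⟩
      refine ⟨h1, ?_⟩
      rw [← h2, ← h3]
      exact hclass n h1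
  have hmain := hs N xx hx0 hxsum
  have hrp : ∀ n ∈ S, rp n ≤ 1 / c := fun n hn => (h7 c n hc (hS n hn).1 (hS n hn).2.1).2
  have hψ0 : ∀ n ∈ S, 0 < ψ n := fun n hn => (hS n hn).2.2.1
  calc ∑ z ∈ (S ×ˢ S).filter (fun z => LateP δ lev z), ψ z.2 / ((z.2 / z.1.gcd z.2 : ℕ) : ℝ)
      ≤ ∑ k ∈ Finset.range N, ∑ l ∈ (Finset.range N).filter (fun l => k ≤ l),
      ∑ s ∈ (Finset.range N).filter (fun s => s ≤ k),
      ∑ t ∈ (Finset.range N).filter (fun t => t ≤ l),
      ∑ m ∈ (Finset.range N).filter (fun m => m + s ≤ k ∧ k ^ 12 * 2 ^ (m + s) ≤ 2 * 2 ^ k),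
        Cn * ((2:ℝ) ^ (((m:ℝ) + s - k) / 7) * (2:ℝ) ^ (-(3 * ((l:ℝ) - k)) / 7) *
          (xx k s * xx l t) ^ ((4:ℝ)/7)) := by
        apply sum_fiber_le _ _ (fun z => lev z.1)
        · intro z hz
          rw [Finset.mem_filter, Finset.mem_product] at hz
          exact Finset.mem_range.mpr (hN z.1 hz.1.1).1
        intro k _
        apply sum_fiber_le _ _ (fun z => lev z.2)
        · intro z hz
          rw [Finset.mem_filter, Finset.mem_filter, Finset.mem_product] at hz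
          rw [Finset.mem_filter]
          refine ⟨Finset.mem_range.mpr (hN z.2 hz.1.1.2).1, ?_⟩
          rw [← hz.2]
          exact hz.1.2.1.2.1
        intro l hl
        apply sum_fiber_le _ _ (fun z => Nat.log 2 z.1)
        · intro z hz
          simp only [Finset.mem_filter, Finset.mem_product] at hz
          obtain ⟨⟨⟨⟨hz1, hz2⟩, hzN⟩, e1⟩, e2⟩ := hz
          rw [Finset.mem_filter]
          refine ⟨Finset.mem_range.mpr (hN z.1 hz1).2.1, ?_⟩
          rw [← e1]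
          exact hlog z.1 hz1
        intro s _
        apply sum_fiber_le _ _ (fun z => Nat.log 2 z.2)
        · intro z hz
          simp only [Finset.mem_filter, Finset.mem_product] at hz
          obtain ⟨⟨⟨⟨⟨hz1, hz2⟩, hzN⟩, e1⟩, e2⟩, e3⟩ := hz
          rw [Finset.mem_filter]
          refine ⟨Finset.mem_range.mpr (hN z.2 hz2).2.1, ?_⟩
          rw [← e2]
          exact hlog z.2 hz2
        intro t _
        apply sum_fiber_le _ _ (fun z => Nat.clog 2 (z.2 / z.1.gcd z.2))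
        · intro z hz
          simp only [Finset.mem_filter, Finset.mem_product] at hz
          obtain ⟨⟨⟨⟨⟨⟨hz1, hz2⟩, hzN⟩, e1⟩, e2⟩, e3⟩, e4⟩ := hz
          rw [Finset.mem_filter]
          have hz10 : 0 < z.1 := (hS z.1 hz1).1
          have hz20 : 0 < z.2 := (hS z.2 hz2).1
          have hb0 : 0 < z.2 / z.1.gcd z.2 :=
            Nat.div_pos (Nat.le_of_dvd hz20 (Nat.gcd_dvd_right _ _))
              (Nat.gcd_pos_of_pos_left _ hz10)
          refine ⟨Finset.mem_range.mpr ((hN z.2 hz2).2.2 _ (Nat.div_le_self _ _)), ?_, ?_⟩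
          · have := hzN.1.2.2.1
            rw [e1, e3] at this
            exact this
          · have hlt := hzN.2
            rw [e1] at hlt
            have hb2 : 2 ^ (Nat.clog 2 (z.2 / z.1.gcd z.2)) < 2 * (z.2 / z.1.gcd z.2) := by
              rcases Nat.eq_or_lt_of_le (show 1 ≤ z.2 / z.1.gcd z.2 from hb0) with h1 | h1
              · rw [← h1]
                simp
              · have := Nat.pow_pred_clog_lt_self (b := 2) (by norm_num) h1
                have hcl : 0 < Nat.clog 2 (z.2 / z.1.gcd z.2) :=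
                  Nat.clog_pos (by norm_num) h1
                obtain ⟨q, hq⟩ := Nat.exists_eq_succ_of_ne_zero hcl.ne'
                rw [hq] at this ⊢
                simp only [Nat.pred_succ] at this
                rw [pow_succ]
                omega
            have hs' : 2 ^ s ≤ z.1 := by
              rw [← e3]
              exact Nat.pow_log_le_self 2 hz10.ne'
            have hlcm : z.1.lcm z.2 = z.1 * (z.2 / z.1.gcd z.2) := by
              rw [Nat.lcm, Nat.mul_div_assoc _ (Nat.gcd_dvd_right _ _)]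
            calc k ^ 12 * 2 ^ (Nat.clog 2 (z.2 / z.1.gcd z.2) + s)
                = k ^ 12 * (2 ^ (Nat.clog 2 (z.2 / z.1.gcd z.2)) * 2 ^ s) := by rw [pow_add]
              _ ≤ k ^ 12 * ((2 * (z.2 / z.1.gcd z.2)) * z.1) := by
                  exact Nat.mul_le_mul_left _ (Nat.mul_le_mul hb2.le hs')
              _ = 2 * (k ^ 12 * (z.1.lcm z.2)) := by rw [hlcm]; ring
              _ ≤ 2 * 2 ^ k := Nat.mul_le_mul_left _ hlt.le
        intro m hm
        rw [Finset.mem_filter] at hl hm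
        set V := S.filter (fun n => inClass ψ k s n) with hV
        set W := S.filter (fun n => inClass ψ l t n) with hW
        set G := ((((((S ×ˢ S).filter (fun z => LateP δ lev z)).filter
          (fun z => lev z.1 = k)).filter (fun z => lev z.2 = l)).filter
          (fun z => Nat.log 2 z.1 = s)).filter (fun z => Nat.log 2 z.2 = t)).filter
          (fun z => Nat.clog 2 (z.2 / z.1.gcd z.2) = m) with hG
        have hGmem : ∀ z ∈ G, z.1 ∈ S ∧ z.2 ∈ S ∧ NSP δ lev z ∧ lev z.1 = k ∧ lev z.2 = l ∧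
            Nat.log 2 z.1 = s ∧ Nat.log 2 z.2 = t ∧ Nat.clog 2 (z.2 / z.1.gcd z.2) = m := by
          intro z hz
          simp only [hG, Finset.mem_filter, Finset.mem_product] at hz
          obtain ⟨⟨⟨⟨⟨⟨⟨hz1, hz2⟩, hzN⟩, e1⟩, e2⟩, e3⟩, e4⟩, e5⟩ := hz
          exact ⟨hz1, hz2, hzN.1, e1, e2, e3, e4, e5⟩
        rcases G.eq_empty_or_nonempty with hGe | ⟨z0, hz0⟩
        · rw [hGe, Finset.sum_empty]
          have := hx0 k s
          have := hx0 l t
          positivity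
        · have hcond : (hcount δ ((2:ℝ) ^ ((m:ℤ) + s + 2 - k))
              (max ((2:ℝ) ^ ((m:ℤ) + s + 1 - t)) (2 ^ m)) : ℝ) ≤
              24 * ((2:ℝ) ^ ((m:ℤ) + s + 2 - k)) *
              (max ((2:ℝ) ^ ((m:ℤ) + s + 1 - t)) (2 ^ m)) := by
            obtain ⟨-, -, hzN, e1, e2, e3, e4, e5⟩ := hGmem z0 hz0
            have := hzN.2.2.2.1
            rw [e1, e3, e4, e5] at this
            exact this
          have hb := hn δ ψ k s l t m V W hl.2 hm.2.1
            (by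
              intro v hv
              rw [hV, Finset.mem_filter] at hv
              exact ⟨(hS v hv.1).1, hrp v hv.1, hv.2⟩)
            (by
              intro v hv
              rw [hW, Finset.mem_filter] at hv
              exact ⟨(hS v hv.1).1, hrp v hv.1, hv.2⟩) hcond
          have hxk : ∑ v ∈ V, ψ v = xx k s := rfl
          have hxl : ∑ v ∈ W, ψ v = xx l t := rfl
          rw [hxk, hxl] at hb
          refine le_trans ?_ (hb.trans (le_of_eq (by ring)))
          apply Finset.sum_le_sum_of_subset_of_nonneg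
          · intro z hz
            obtain ⟨z1, z2, hzN, e1, e2, e3, e4, e5⟩ := hGmem z hz
            have hz10 : 0 < z.1 := (hS z.1 z1).1
            have hz20 : 0 < z.2 := (hS z.2 z2).1
            have hb0 : 0 < z.2 / z.1.gcd z.2 :=
              Nat.div_pos (Nat.le_of_dvd hz20 (Nat.gcd_dvd_right _ _))
                (Nat.gcd_pos_of_pos_left _ hz10)
            rw [Finset.mem_filter, Finset.mem_product]
            refine ⟨⟨?_, ?_⟩, hzN.1, ?_, ?_, ?_⟩
            · rw [hV, Finset.mem_filter]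
              refine ⟨z1, ?_⟩
              rw [← e1, ← e3]
              exact hclass z.1 z1
            · rw [hW, Finset.mem_filter]
              refine ⟨z2, ?_⟩
              rw [← e2, ← e4]
              exact hclass z.2 z2
            · rw [← e5]
              exact Nat.le_pow_clog (by norm_num) _
            · rw [← e5]
              rcases Nat.eq_or_lt_of_le (show 1 ≤ z.2 / z.1.gcd z.2 from hb0) with h1 | h1
              · rw [← h1]
                simp
              · have := Nat.pow_pred_clog_lt_self (b := 2) (by norm_num) h1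
                have hcl : 0 < Nat.clog 2 (z.2 / z.1.gcd z.2) :=
                  Nat.clog_pos (by norm_num) h1
                obtain ⟨q, hq⟩ := Nat.exists_eq_succ_of_ne_zero hcl.ne'
                rw [hq] at this ⊢
                simp only [Nat.pred_succ] at this
                rw [pow_succ]
                omega
            · have := hzN.2.2.2.2
              rw [e1, e3, e5] at this
              exact this
          · intro z hz _
            rw [Finset.mem_filter, Finset.mem_product] at hz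
            have := hψ0 z.2 (Finset.mem_filter.mp hz.1.2).1
            positivity
    _ = Cn * ∑ k ∈ Finset.range N, ∑ l ∈ (Finset.range N).filter (fun l => k ≤ l),
      ∑ s ∈ (Finset.range N).filter (fun s => s ≤ k),
      ∑ t ∈ (Finset.range N).filter (fun t => t ≤ l),
      ∑ m ∈ (Finset.range N).filter (fun m => m + s ≤ k ∧ k ^ 12 * 2 ^ (m + s) ≤ 2 * 2 ^ k),
        ((2:ℝ) ^ (((m:ℝ) + s - k) / 7) * (2:ℝ) ^ (-(3 * ((l:ℝ) - k)) / 7) *
          (xx k s * xx l t) ^ ((4:ℝ)/7)) := by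
        simp only [Finset.mul_sum]
    _ ≤ Cn * Cs := by
        apply mul_le_mul_of_nonneg_left hmain hCn.le

theorem lev_le (ψ : ℕ → ℝ) (k l x y : ℕ) (hρ : ψ y / y ≤ ψ x / x) (hx : lv ψ k x)
    (hy : lv ψ l y) : k ≤ l := by
  by_contra hcon
  push Not at hcon
  have : (1/2:ℝ) ^ k ≤ (1/2) ^ (l + 1) :=
    pow_le_pow_of_le_one (by norm_num) (by norm_num) hcon
  linarith [hx.2, hy.1]

open Classical in
/-- the early pairs -/
theorem sum_early (h5 : NewPair) (h6 : EarlySum) (h7 : DivSumStmt) (c : ℝ) (hc : 0 < c) :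
    ∃ C : ℝ, 0 < C ∧ ∃ k0 : ℕ, ∀ (δ : ℝ) (ψ : ℕ → ℝ) (S : Finset ℕ) (lev : ℕ → ℕ),
    (∀ n ∈ S, 0 < n ∧ c ≤ (Nat.totient n : ℝ) / n ∧ 0 < ψ n ∧ ψ n ≤ 1 / 8 ∧
      lv ψ (lev n) n ∧ k0 ≤ lev n ∧ ψ n ≤ dec (lev n)) →
    ∑ n ∈ S, ψ n ≤ 1 →
    ∑ z ∈ (S ×ˢ S).filter (fun z => EarlyP δ ψ lev z),
      ψ z.2 / ((z.2 / z.1.gcd z.2 : ℕ) : ℝ) ≤ C := by
  obtain ⟨Cn, hCn, k0, hn⟩ := h5 (1 / c)
  obtain ⟨Cs, hCs, hs⟩ := h6
  refine ⟨Cn * Cs, by positivity, k0, ?_⟩
  intro δ ψ S lev hS hsum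
  obtain ⟨N, hN⟩ : ∃ N : ℕ, ∀ n ∈ S, lev n < N := by
    refine ⟨∑ n ∈ S, (lev n + 1), ?_⟩
    intro n hn
    have h1 : lev n + 1 ≤ ∑ n ∈ S, (lev n + 1) :=
      Finset.single_le_sum (f := fun n => lev n + 1) (fun _ _ => Nat.zero_le _) hn
    omega
  set X : ℕ → ℝ := fun k => ∑ n ∈ S.filter (fun n => lev n = k), ψ n with hX
  have hX0 : ∀ k, 0 ≤ X k := by
    intro k
    apply Finset.sum_nonneg
    intro n hn
    exact (hS n (Finset.mem_filter.mp hn).1).2.2.1.le
  have hXsum : ∑ k ∈ Finset.range N, X k ≤ 1 := by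
    refine le_trans (le_of_eq ?_) hsum
    exact Finset.sum_fiberwise_of_maps_to (fun n hn => Finset.mem_range.mpr (hN n hn)) _
  have hmain := hs N X hX0 hXsum
  have hrp : ∀ n ∈ S, rp n ≤ 1 / c := fun n hn => (h7 c n hc (hS n hn).1 (hS n hn).2.1).2
  -- facts on an early pair
  have hfacts : ∀ z ∈ (S ×ˢ S).filter (fun z => EarlyP δ ψ lev z),
      z.1 ∈ S ∧ z.2 ∈ S ∧ EarlyP δ ψ lev z ∧ lev z.1 ≤ lev z.2 ∧
      Nat.clog 2 (z.1.lcm z.2) + 1 ≤ lev z.1 ∧
      2 ^ (lev z.1 - Nat.clog 2 (z.1.lcm z.2)) ≤ (lev z.1) ^ 12 ∧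
      2 ^ (Nat.clog 2 (z.1.lcm z.2)) < 2 * (z.1.lcm z.2) ∧
      z.1.lcm z.2 ≤ 2 ^ (Nat.clog 2 (z.1.lcm z.2)) := by
    intro z hz
    rw [Finset.mem_filter, Finset.mem_product] at hz
    obtain ⟨⟨hz1, hz2⟩, hE⟩ := hz
    obtain ⟨hx0, -, hψx, -, hlx, -, -⟩ := hS z.1 hz1
    obtain ⟨hy0, -, hψy, -, hly, -, -⟩ := hS z.2 hz2
    obtain ⟨e1, e2, e3, e4, e5, e6⟩ := id hE
    have hxR : (0:ℝ) < z.1 := by exact_mod_cast hx0
    have hlcm : z.1.lcm z.2 = z.1 * (z.2 / z.1.gcd z.2) := by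
      rw [Nat.lcm, Nat.mul_div_assoc _ (Nat.gcd_dvd_right _ _)]
    have hlcm0 : 0 < z.1.lcm z.2 := Nat.lcm_pos hx0 hy0
    have hup : z.1.lcm z.2 ≤ 2 ^ (Nat.clog 2 (z.1.lcm z.2)) := Nat.le_pow_clog (by norm_num) _
    have hlo : 2 ^ (Nat.clog 2 (z.1.lcm z.2)) < 2 * (z.1.lcm z.2) := by
      rcases Nat.eq_or_lt_of_le (show 1 ≤ z.1.lcm z.2 from hlcm0) with h1 | h1
      · rw [← h1]
        simp
      · have := Nat.pow_pred_clog_lt_self (b := 2) (by norm_num) h1
        have hcl : 0 < Nat.clog 2 (z.1.lcm z.2) := Nat.clog_pos (by norm_num) h1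
        obtain ⟨q, hq⟩ := Nat.exists_eq_succ_of_ne_zero hcl.ne'
        rw [hq] at this ⊢
        simp only [Nat.pred_succ] at this
        rw [pow_succ]
        omega
    have hsmall : 2 * (z.1.lcm z.2) < 2 ^ (lev z.1) := by
      have h1 := hlx.1
      rw [lt_div_iff₀ hxR] at h1
      have h2 : (1/2:ℝ) ^ (lev z.1 + 1) * (z.1.lcm z.2 : ℕ) < 1 / 4 := by
        rw [hlcm]
        push_cast
        have h3 : (0:ℝ) ≤ ((z.2 / z.1.gcd z.2 : ℕ) : ℝ) := Nat.cast_nonneg _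
        nlinarith [mul_le_mul_of_nonneg_right h1.le h3]
      have h4 : (2:ℝ) ^ (lev z.1 + 1) * ((1/2:ℝ) ^ (lev z.1 + 1) * (z.1.lcm z.2 : ℕ)) =
          (z.1.lcm z.2 : ℕ) := by
        rw [← mul_assoc, ← mul_pow]
        norm_num
      have h5 : (2:ℝ) ^ (lev z.1 + 1) * ((1/2:ℝ) ^ (lev z.1 + 1) * (z.1.lcm z.2 : ℕ)) <
          2 ^ (lev z.1 + 1) * (1 / 4) := mul_lt_mul_of_pos_left h2 (by positivity)
      rw [h4, pow_succ] at h5
      have h6 : (2:ℝ) * (z.1.lcm z.2 : ℕ) < 2 ^ (lev z.1) := by linarith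
      exact_mod_cast h6
    have hcl : Nat.clog 2 (z.1.lcm z.2) < lev z.1 := by
      have : 2 ^ (Nat.clog 2 (z.1.lcm z.2)) < 2 ^ (lev z.1) := lt_trans hlo hsmall
      exact (Nat.pow_lt_pow_iff_right (by norm_num)).mp this
    refine ⟨hz1, hz2, hE, lev_le ψ _ _ z.1 z.2 e2 hlx hly, hcl, ?_, hlo, hup⟩
    have h7 : 2 ^ (lev z.1 - Nat.clog 2 (z.1.lcm z.2)) * 2 ^ (Nat.clog 2 (z.1.lcm z.2)) =
        2 ^ (lev z.1) := by
      rw [← pow_add]
      congr 1
      omega
    have h8 : 2 ^ (lev z.1 - Nat.clog 2 (z.1.lcm z.2)) * (z.1.lcm z.2) ≤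
        (lev z.1) ^ 12 * (z.1.lcm z.2) := by
      calc 2 ^ (lev z.1 - Nat.clog 2 (z.1.lcm z.2)) * (z.1.lcm z.2)
          ≤ 2 ^ (lev z.1 - Nat.clog 2 (z.1.lcm z.2)) * 2 ^ (Nat.clog 2 (z.1.lcm z.2)) :=
            Nat.mul_le_mul_left _ hup
        _ = 2 ^ (lev z.1) := h7
        _ ≤ _ := e5
    exact Nat.le_of_mul_le_mul_right h8 hlcm0
  calc ∑ z ∈ (S ×ˢ S).filter (fun z => EarlyP δ ψ lev z),
        ψ z.2 / ((z.2 / z.1.gcd z.2 : ℕ) : ℝ)
      ≤ ∑ k ∈ Finset.range N, ∑ l ∈ (Finset.range N).filter (fun l => k ≤ l),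
        ∑ i ∈ Finset.range N, Cn * ((2:ℝ) ^ (-(i:ℝ) / 27) * (2:ℝ) ^ (-((l:ℝ) - k) / 9) *
          (X k * X l) ^ ((5:ℝ)/9)) := by
        apply sum_fiber_le _ _ (fun z => lev z.1)
        · intro z hz
          exact Finset.mem_range.mpr (hN z.1 (hfacts z hz).1)
        intro k _
        apply sum_fiber_le _ _ (fun z => lev z.2)
        · intro z hz
          rw [Finset.mem_filter] at hz
          obtain ⟨hz, e1⟩ := hz
          obtain ⟨g1, g2, g3, g4, -⟩ := hfacts z hz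
          rw [Finset.mem_filter, ← e1]
          exact ⟨Finset.mem_range.mpr (hN z.2 g2), g4⟩
        intro l hl
        rw [Finset.mem_filter] at hl
        apply sum_fiber_le _ _ (fun z => lev z.1 - Nat.clog 2 (z.1.lcm z.2))
        · intro z hz
          simp only [Finset.mem_filter, Finset.mem_product] at hz
          have := hN z.1 hz.1.1.1.1
          exact Finset.mem_range.mpr (by omega)
        intro i _
        set G := ((((S ×ˢ S).filter (fun z => EarlyP δ ψ lev z)).filter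
          (fun z => lev z.1 = k)).filter (fun z => lev z.2 = l)).filter
          (fun z => lev z.1 - Nat.clog 2 (z.1.lcm z.2) = i) with hG
        have hGmem : ∀ z ∈ G, z ∈ (S ×ˢ S).filter (fun z => EarlyP δ ψ lev z) ∧
            lev z.1 = k ∧ lev z.2 = l ∧ lev z.1 - Nat.clog 2 (z.1.lcm z.2) = i := by
          intro z hz
          rw [hG, Finset.mem_filter, Finset.mem_filter, Finset.mem_filter] at hz
          exact ⟨hz.1.1.1, hz.1.1.2, hz.1.2, hz.2⟩
        rcases G.eq_empty_or_nonempty with hGe | ⟨z0, hz0⟩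
        · rw [hGe, Finset.sum_empty]
          have := hX0 k
          have := hX0 l
          positivity
        · obtain ⟨g0, e1, e2, e3⟩ := hGmem z0 hz0
          obtain ⟨g1, g2, g3, g4, g5, g6, g7, g8⟩ := hfacts z0 g0
          have hk0 : k0 ≤ k := by
            rw [← e1]
            exact (hS z0.1 g1).2.2.2.2.2.1
          have hi1 : 1 ≤ i := by omega
          have hik : 2 ^ i ≤ k ^ 12 := by
            rw [← e3]
            rw [← e1]
            exact g6
          have hb := hn δ ψ k l i (S.filter (fun n => lev n = k)) (S.filter (fun n => lev n = l))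
            hk0 hl.2 hi1 hik
            (by
              intro v hv
              rw [Finset.mem_filter] at hv
              obtain ⟨a1, a2, a3, a4, a5, a6, a7⟩ := hS v hv.1
              rw [hv.2] at a5 a7
              exact ⟨a1, hrp v hv.1, a3, a7, a5⟩)
            (by
              intro v hv
              rw [Finset.mem_filter] at hv
              obtain ⟨a1, a2, a3, a4, a5, a6, a7⟩ := hS v hv.1
              rw [hv.2] at a5 a7
              exact ⟨a1, hrp v hv.1, a3, a7, a5⟩)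
          refine le_trans ?_ (hb.trans (le_of_eq (by simp only [hX]; ring)))
          apply Finset.sum_le_sum_of_subset_of_nonneg
          · intro z hz
            obtain ⟨g0, e1, e2, e3⟩ := hGmem z hz
            obtain ⟨g1, g2, ⟨f1, f2, f3, f4, f5, f6⟩, g4, g5, g6, g7, g8⟩ := hfacts z g0
            have hki : ((k:ℝ) - i) = ((Nat.clog 2 (z.1.lcm z.2) : ℕ) : ℝ) := by
              have : k = i + Nat.clog 2 (z.1.lcm z.2) := by omega
              rw [this]
              push_cast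
              ring
            rw [Finset.mem_filter, Finset.mem_product]
            refine ⟨⟨Finset.mem_filter.mpr ⟨g1, e1⟩, Finset.mem_filter.mpr ⟨g2, e2⟩⟩, f1, f2,
              f3, ?_, ?_, f6⟩
            · rw [hki, Real.rpow_natCast, div_lt_iff₀ (by norm_num)]
              have : (2:ℝ) ^ (Nat.clog 2 (z.1.lcm z.2)) < 2 * (z.1.lcm z.2 : ℕ) := by
                exact_mod_cast g7
              linarith
            · rw [hki, Real.rpow_natCast]
              exact_mod_cast g8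
          · intro z hz _
            rw [Finset.mem_filter, Finset.mem_product] at hz
            have := (hS z.2 (Finset.mem_filter.mp hz.1.2).1).2.2.1
            positivity
    _ = Cn * ∑ k ∈ Finset.range N, ∑ l ∈ (Finset.range N).filter (fun l => k ≤ l),
        ∑ i ∈ Finset.range N, ((2:ℝ) ^ (-(i:ℝ) / 27) * (2:ℝ) ^ (-((l:ℝ) - k) / 9) *
          (X k * X l) ^ ((5:ℝ)/9)) := by
        simp only [Finset.mul_sum]
    _ ≤ Cn * Cs := mul_le_mul_of_nonneg_left hmain hCn.le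

open Classical in
/-- the bound for a single pair -/
theorem pair_boundF (h1 : OverlapStmt) (h4 : ClassifyStmt)
    (δ : ℝ) (ψ : ℕ → ℝ) (lev : ℕ → ℕ) (x y : ℕ) (hx0 : 0 < x) (hy0 : 0 < y)
    (hxy : x ≠ y) (hψx : 0 < ψ x) (hψx8 : ψ x ≤ 1 / 8) (hψy : 0 < ψ y)
    (hρ : ψ y / y ≤ ψ x / x) (hlx : lv ψ (lev x) x) (hly : lv ψ (lev y) y) :
    (volume (BB δ ψ x ∩ BB δ ψ y)).toReal ≤
      48 * (ψ x * ψ y) +
      (if x / x.gcd y = 1 then 6 * (ψ y / ((y / x.gcd y : ℕ) : ℝ)) else 0) +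
      (if Exc δ (ψ x) (x / x.gcd y) (y / x.gcd y) then
        6 * (ψ x / ((x / x.gcd y : ℕ) : ℝ)) else 0) +
      (if LateP δ lev (x, y) then 6 * (ψ y / ((y / x.gcd y : ℕ) : ℝ)) else 0) +
      (if EarlyP δ ψ lev (x, y) then 6 * (ψ y / ((y / x.gcd y : ℕ) : ℝ)) else 0) := by
  have hpb := pair_bound h1 h4 δ ψ lev x y hx0 hy0 hxy hψx hψx8 hψy hρ hlx hly
  obtain ⟨o1, o2, -, -⟩ := h1 δ (ψ x) (ψ y) x y (x / x.gcd y) (y / x.gcd y)
    (Int.natAbs (((x / x.gcd y : ℕ):ℤ) - (y / x.gcd y : ℕ)))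
    (qmin δ (tau (ψ x))) (round ((qmin δ (tau (ψ x)) : ℝ) * δ))
    (qmin δ (tau (ψ y))) (round ((qmin δ (tau (ψ y)) : ℝ) * δ)) hx0 hy0 hxy hψx hψy hρ
    rfl rfl rfl
  have n1 : 0 ≤ 48 * (ψ x * ψ y) := by positivity
  have n2 : 0 ≤ (if x / x.gcd y = 1 then 6 * (ψ y / ((y / x.gcd y : ℕ) : ℝ)) else 0) := by
    split_ifs <;> positivity
  have n3 : 0 ≤ (if Exc δ (ψ x) (x / x.gcd y) (y / x.gcd y) then
        6 * (ψ x / ((x / x.gcd y : ℕ) : ℝ)) else 0) := by
    split_ifs <;> positivity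
  have n4 : 0 ≤ (if LateP δ lev (x, y) then 6 * (ψ y / ((y / x.gcd y : ℕ) : ℝ)) else 0) := by
    split_ifs <;> positivity
  have n5 : 0 ≤ (if EarlyP δ ψ lev (x, y) then 6 * (ψ y / ((y / x.gcd y : ℕ) : ℝ)) else 0) := by
    split_ifs <;> positivity
  rcases le_or_gt (1/2) (2 * ((y / x.gcd y : ℕ) : ℝ) * ψ x) with hη | hη
  · have := o1 hη
    unfold BB
    nlinarith [this]
  have hov := o2 hη
  change (volume (BB δ ψ x ∩ BB δ ψ y)).toReal ≤ 6 * (ψ y / ((y / x.gcd y : ℕ) : ℝ)) at hov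
  have ha0 : 0 < x / x.gcd y := Nat.div_pos (Nat.le_of_dvd hx0 (Nat.gcd_dvd_left _ _))
    (Nat.gcd_pos_of_pos_left _ hx0)
  by_cases ha1 : x / x.gcd y = 1
  · rw [if_pos ha1] at n2 ⊢
    linarith
  have ha2 : 2 ≤ x / x.gcd y := by omega
  rcases (BB δ ψ x ∩ BB δ ψ y).eq_empty_or_nonempty with he | hne
  · rw [he, measure_empty]
    simp only [ENNReal.toReal_zero]
    linarith
  rcases le_or_gt (2 ^ (lev x)) ((lev x) ^ 12 * (x.lcm y)) with hE | hL
  · have : EarlyP δ ψ lev (x, y) := ⟨hxy, hρ, ha2, hη, hE, hne⟩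
    rw [if_pos this] at n5 ⊢
    linarith
  · by_cases hN : NSP δ lev (x, y)
    · have : LateP δ lev (x, y) := ⟨hN, hL⟩
      rw [if_pos this] at n4 ⊢
      linarith
    · rw [if_neg hN] at hpb
      linarith

theorem second (h1 : NewPair) (h2 : EarlySum) (h3 : LateSum) : SecondF := by
  classical
  intro c hc
  obtain ⟨Cl, hCl, hlate⟩ := sum_late (nonspec treeStmt) h3 divsum c hc
  obtain ⟨Ce, hCe, k0, hearly⟩ := sum_early h1 h2 divsum c hc
  refine ⟨6 + 2 * (48 + 6 * (1 / c) + 6 * (50 * (1 / c)) + 6 * Cl + 6 * Ce), by positivity,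
    k0, ?_⟩
  intro δ ψ S hS hsum
  have hρ1 : ∀ n ∈ S, ∃ k : ℕ, lv ψ k n := by
    intro n hn
    obtain ⟨hn0, -, hψ, hψ8, -⟩ := hS n hn
    have hnR : (1:ℝ) ≤ n := by exact_mod_cast hn0
    apply exists_nat_pow_near_of_lt_one (by positivity) _ (by norm_num) (by norm_num)
    rw [div_le_one (by linarith)]
    linarith
  choose! lev hlev using hρ1
  have hS' : ∀ n ∈ S, 0 < n ∧ c ≤ (Nat.totient n : ℝ) / n ∧ 0 < ψ n ∧ ψ n ≤ 1 / 8 :=
    fun n hn => ⟨(hS n hn).1, (hS n hn).2.1, (hS n hn).2.2.1, (hS n hn).2.2.2.1⟩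
  have hLate := hlate δ ψ S lev hS' hsum hlev
  have hEarly := hearly δ ψ S lev (fun n hn =>
    ⟨(hS n hn).1, (hS n hn).2.1, (hS n hn).2.2.1, (hS n hn).2.2.2.1, hlev n hn,
      ((hS n hn).2.2.2.2 _ (hlev n hn)).1, ((hS n hn).2.2.2.2 _ (hlev n hn)).2⟩) hsum
  set ov : ℕ → ℕ → ℝ := fun x y => (volume (BB δ ψ x ∩ BB δ ψ y)).toReal with hov
  have hov0 : ∀ x y, 0 ≤ ov x y := fun x y => ENNReal.toReal_nonneg
  have hovs : ∀ x y, ov x y = ov y x := by
    intro x y
    simp only [hov]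
    rw [Set.inter_comm]
  set F : ℕ → ℕ → ℝ := fun x y => 48 * (ψ x * ψ y) +
      (if x / x.gcd y = 1 then 6 * (ψ y / ((y / x.gcd y : ℕ) : ℝ)) else 0) +
      (if Exc δ (ψ x) (x / x.gcd y) (y / x.gcd y) then
        6 * (ψ x / ((x / x.gcd y : ℕ) : ℝ)) else 0) +
      (if LateP δ lev (x, y) then 6 * (ψ y / ((y / x.gcd y : ℕ) : ℝ)) else 0) +
      (if EarlyP δ ψ lev (x, y) then 6 * (ψ y / ((y / x.gcd y : ℕ) : ℝ)) else 0) with hF
  have hF0 : ∀ x ∈ S, ∀ y ∈ S, 0 ≤ F x y := by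
    intro x hx y hy
    have := (hS x hx).2.2.1
    have := (hS y hy).2.2.1
    simp only [hF]
    have n2 : 0 ≤ (if x / x.gcd y = 1 then 6 * (ψ y / ((y / x.gcd y : ℕ) : ℝ)) else 0) := by
      split_ifs <;> positivity
    have n3 : 0 ≤ (if Exc δ (ψ x) (x / x.gcd y) (y / x.gcd y) then
        6 * (ψ x / ((x / x.gcd y : ℕ) : ℝ)) else 0) := by
      split_ifs <;> positivity
    have n4 : 0 ≤ (if LateP δ lev (x, y) then
        6 * (ψ y / ((y / x.gcd y : ℕ) : ℝ)) else 0) := by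
      split_ifs <;> positivity
    have n5 : 0 ≤ (if EarlyP δ ψ lev (x, y) then
        6 * (ψ y / ((y / x.gcd y : ℕ) : ℝ)) else 0) := by
      split_ifs <;> positivity
    positivity
  have hpt : ∀ x ∈ S, ∀ y ∈ S, ov x y ≤ (if x = y then 6 * ψ x else 0) + F x y + F y x := by
    intro x hx y hy
    obtain ⟨hx0, hxc, hψx, hψx8⟩ := hS' x hx
    obtain ⟨hy0, hyc, hψy, hψy8⟩ := hS' y hy
    by_cases hxy : x = y
    · rw [if_pos hxy]
      subst hxy
      have e : ov x x = (volume (BB δ ψ x)).toReal := by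
        simp only [hov, Set.inter_self]
      have := (single δ (ψ x) x (qmin δ (tau (ψ x))) (round ((qmin δ (tau (ψ x)) : ℝ) * δ)) hx0
        hψx.le).2
      rw [e]
      have h3 := hF0 x hx x hx
      change (volume (BB δ ψ x)).toReal ≤ _ at this
      linarith
    · rw [if_neg hxy]
      rcases le_total (ψ y / y) (ψ x / x) with hρ | hρ
      · have := pair_boundF overlap classifyStmt δ ψ lev x y hx0 hy0 hxy hψx hψx8 hψy hρ
          (hlev x hx) (hlev y hy)
        have h3 := hF0 y hy x hx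
        change ov x y ≤ F x y at this
        linarith
      · have := pair_boundF overlap classifyStmt δ ψ lev y x hy0 hx0 (Ne.symm hxy) hψy hψy8 hψx
          hρ (hlev y hy) (hlev x hx)
        have h3 := hF0 x hx y hy
        change ov y x ≤ F y x at this
        rw [hovs x y]
        linarith
  have hFsum : ∑ x ∈ S, ∑ y ∈ S, F x y ≤
      48 + 6 * (1 / c) + 6 * (50 * (1 / c)) + 6 * Cl + 6 * Ce := by
    have s0 : 0 ≤ ∑ n ∈ S, ψ n := Finset.sum_nonneg (fun n hn => (hS n hn).2.2.1.le)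
    have s1 : ∑ x ∈ S, ∑ y ∈ S, 48 * (ψ x * ψ y) ≤ 48 := by
      have : ∑ x ∈ S, ∑ y ∈ S, 48 * (ψ x * ψ y) = 48 * ((∑ n ∈ S, ψ n) * (∑ n ∈ S, ψ n)) := by
        rw [Finset.sum_mul_sum, Finset.mul_sum]
        apply Finset.sum_congr rfl
        intro x _
        rw [Finset.mul_sum]
      rw [this]
      nlinarith
    have s2 : ∑ x ∈ S, ∑ y ∈ S,
        (if x / x.gcd y = 1 then 6 * (ψ y / ((y / x.gcd y : ℕ) : ℝ)) else 0) ≤ 6 * (1 / c) := by
      rw [Finset.sum_comm]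
      calc ∑ y ∈ S, ∑ x ∈ S,
          (if x / x.gcd y = 1 then 6 * (ψ y / ((y / x.gcd y : ℕ) : ℝ)) else 0)
          ≤ ∑ y ∈ S, 6 * (ψ y * (1 / c)) := by
            apply Finset.sum_le_sum
            intro y hy
            rw [← Finset.sum_filter, ← Finset.mul_sum]
            apply mul_le_mul_of_nonneg_left _ (by norm_num)
            exact sum_dvd_pairs S ψ c hc divsum hS' y hy
        _ = 6 * (1 / c) * ∑ y ∈ S, ψ y := by
            rw [Finset.mul_sum]
            apply Finset.sum_congr rfl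
            intro y _
            ring
        _ ≤ 6 * (1 / c) * 1 := by
            apply mul_le_mul_of_nonneg_left hsum (by positivity)
        _ = 6 * (1 / c) := by ring
    have s3 : ∑ x ∈ S, ∑ y ∈ S,
        (if Exc δ (ψ x) (x / x.gcd y) (y / x.gcd y) then
        6 * (ψ x / ((x / x.gcd y : ℕ) : ℝ)) else 0) ≤ 6 * (50 * (1 / c)) := by
      calc ∑ x ∈ S, ∑ y ∈ S,
          (if Exc δ (ψ x) (x / x.gcd y) (y / x.gcd y) then
          6 * (ψ x / ((x / x.gcd y : ℕ) : ℝ)) else 0)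
          ≤ ∑ x ∈ S, 6 * (50 * (ψ x * (1 / c))) := by
            apply Finset.sum_le_sum
            intro x hx
            rw [← Finset.sum_filter, ← Finset.mul_sum]
            apply mul_le_mul_of_nonneg_left _ (by norm_num)
            exact sum_exc_pairs S δ ψ c hc mult divsum hS' x hx
        _ = 6 * (50 * (1 / c)) * ∑ x ∈ S, ψ x := by
            rw [Finset.mul_sum]
            apply Finset.sum_congr rfl
            intro y _
            ring
        _ ≤ 6 * (50 * (1 / c)) * 1 := by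
            apply mul_le_mul_of_nonneg_left hsum (by positivity)
        _ = 6 * (50 * (1 / c)) := by ring
    have s4 : ∑ x ∈ S, ∑ y ∈ S,
        (if LateP δ lev (x, y) then 6 * (ψ y / ((y / x.gcd y : ℕ) : ℝ)) else 0) ≤ 6 * Cl := by
      rw [← Finset.sum_product' S S (fun x y =>
        (if LateP δ lev (x, y) then 6 * (ψ y / ((y / x.gcd y : ℕ) : ℝ)) else 0))]
      have : ∑ z ∈ S ×ˢ S, (if LateP δ lev (z.1, z.2) then
          6 * (ψ z.2 / ((z.2 / z.1.gcd z.2 : ℕ) : ℝ)) else 0) =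
          6 * ∑ z ∈ (S ×ˢ S).filter (fun z => LateP δ lev z),
            ψ z.2 / ((z.2 / z.1.gcd z.2 : ℕ) : ℝ) := by
        rw [Finset.mul_sum, Finset.sum_filter]
      rw [this]
      apply mul_le_mul_of_nonneg_left hLate (by norm_num)
    have s5 : ∑ x ∈ S, ∑ y ∈ S,
        (if EarlyP δ ψ lev (x, y) then 6 * (ψ y / ((y / x.gcd y : ℕ) : ℝ)) else 0) ≤ 6 * Ce := by
      rw [← Finset.sum_product' S S (fun x y =>
        (if EarlyP δ ψ lev (x, y) then 6 * (ψ y / ((y / x.gcd y : ℕ) : ℝ)) else 0))]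
      have : ∑ z ∈ S ×ˢ S, (if EarlyP δ ψ lev (z.1, z.2) then
          6 * (ψ z.2 / ((z.2 / z.1.gcd z.2 : ℕ) : ℝ)) else 0) =
          6 * ∑ z ∈ (S ×ˢ S).filter (fun z => EarlyP δ ψ lev z),
            ψ z.2 / ((z.2 / z.1.gcd z.2 : ℕ) : ℝ) := by
        rw [Finset.mul_sum, Finset.sum_filter]
      rw [this]
      apply mul_le_mul_of_nonneg_left hEarly (by norm_num)
    calc ∑ x ∈ S, ∑ y ∈ S, F x y = ∑ x ∈ S, ∑ y ∈ S, 48 * (ψ x * ψ y) +
        ∑ x ∈ S, ∑ y ∈ S,
        (if x / x.gcd y = 1 then 6 * (ψ y / ((y / x.gcd y : ℕ) : ℝ)) else 0) +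
        ∑ x ∈ S, ∑ y ∈ S,
        (if Exc δ (ψ x) (x / x.gcd y) (y / x.gcd y) then
        6 * (ψ x / ((x / x.gcd y : ℕ) : ℝ)) else 0) +
        ∑ x ∈ S, ∑ y ∈ S,
        (if LateP δ lev (x, y) then 6 * (ψ y / ((y / x.gcd y : ℕ) : ℝ)) else 0) +
        ∑ x ∈ S, ∑ y ∈ S,
        (if EarlyP δ ψ lev (x, y) then 6 * (ψ y / ((y / x.gcd y : ℕ) : ℝ)) else 0) := by
          simp only [hF, Finset.sum_add_distrib]
      _ ≤ _ := by linarith
  calc ∑ x ∈ S, ∑ y ∈ S, (volume (BB δ ψ x ∩ BB δ ψ y)).toReal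
      = ∑ x ∈ S, ∑ y ∈ S, ov x y := rfl
    _ ≤ ∑ x ∈ S, ∑ y ∈ S, ((if x = y then 6 * ψ x else 0) + F x y + F y x) := by
        apply Finset.sum_le_sum
        intro x hx
        apply Finset.sum_le_sum
        intro y hy
        exact hpt x hx y hy
    _ = ∑ x ∈ S, 6 * ψ x + ∑ x ∈ S, ∑ y ∈ S, F x y + ∑ x ∈ S, ∑ y ∈ S, F y x := by
        simp only [Finset.sum_add_distrib]
        congr 2
        apply Finset.sum_congr rfl
        intro x hx
        rw [Finset.sum_ite_eq]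
        rw [if_pos hx]
    _ = 6 * ∑ x ∈ S, ψ x + 2 * ∑ x ∈ S, ∑ y ∈ S, F x y := by
        rw [Finset.sum_comm (f := fun x y => F y x), ← Finset.mul_sum]
        ring
    _ ≤ 6 * 1 + 2 * (48 + 6 * (1 / c) + 6 * (50 * (1 / c)) + 6 * Cl + 6 * Ce) := by
        have : 6 * ∑ x ∈ S, ψ x ≤ 6 * 1 := by linarith
        linarith
    _ = _ := by ring

end Pool.Agent.MP_0863b8.F
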