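import Pool.Agent.Work.MP_0863b8_nt.Bd.B01

/-! The tree inequality, with masses. -/

set_option autoImplicit false

namespace Pool.Agent.MP_0863b8.F

open Finset

private theorem tf_injOn (l i : ℕ) (V : Finset ℕ) :
    Set.InjOn (fun v => v / l ^ i) (V.filter (fun v => v.factorization l = i)) := by
  intro a ha b hb hab
  rw [mem_coe, mem_filter] at ha hb
  simp only at hab
  have h1 : l ^ i ∣ a := by
    have := Nat.ordProj_dvd a l
    rwa [ha.2] at this
  have h2 : l ^ i ∣ b := by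
    have := Nat.ordProj_dvd b l
    rwa [hb.2] at this
  rw [← Nat.div_mul_cancel h1, hab, Nat.div_mul_cancel h2]

private theorem tf_sum_part (l i : ℕ) (V : Finset ℕ) :
    ∑ u ∈ part l i V, u = ∑ v ∈ V.filter (fun v => v.factorization l = i), v / l ^ i := by
  unfold part
  exact sum_image (f := fun u => u) (tf_injOn l i V)

private theorem tf_sum_part_le (l i : ℕ) (V : Finset ℕ) : ∑ u ∈ part l i V, u ≤ ∑ v ∈ V, v := by
  rw [tf_sum_part]
  calc ∑ v ∈ V.filter (fun v => v.factorization l = i), v / l ^ i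
      ≤ ∑ v ∈ V.filter (fun v => v.factorization l = i), v :=
        sum_le_sum fun v _ => Nat.div_le_self _ _
    _ ≤ ∑ v ∈ V, v := sum_le_sum_of_subset (filter_subset _ _)

private theorem tf_sum_pos (V : Finset ℕ) (hne : V.Nonempty) (hpos : ∀ v ∈ V, 0 < v) :
    0 < ∑ v ∈ V, v := sum_pos hpos hne

private theorem tf_sum_part_lt (l i : ℕ) (hl : l.Prime) (hi : 1 ≤ i) (V : Finset ℕ)
    (hne : V.Nonempty) (hpos : ∀ v ∈ V, 0 < v) : ∑ u ∈ part l i V, u < ∑ v ∈ V, v := by
  have h0 := tf_sum_pos V hne hpos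
  have h1 : 2 * ∑ u ∈ part l i V, u ≤ ∑ v ∈ V, v := by
    rw [tf_sum_part, mul_sum]
    calc ∑ v ∈ V.filter (fun v => v.factorization l = i), 2 * (v / l ^ i)
        ≤ ∑ v ∈ V.filter (fun v => v.factorization l = i), v := by
          refine sum_le_sum fun v _ => ?_
          have h2 : 2 ≤ l ^ i := by
            calc 2 ≤ l := hl.two_le
              _ = l ^ 1 := (pow_one l).symm
              _ ≤ l ^ i := Nat.pow_le_pow_right hl.pos hi
          calc 2 * (v / l ^ i) ≤ l ^ i * (v / l ^ i) := Nat.mul_le_mul_right _ h2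
            _ ≤ v := Nat.mul_div_le v _
      _ ≤ ∑ v ∈ V, v := sum_le_sum_of_subset (filter_subset _ _)
  omega

private theorem tf_sum_part_zero_lt (l : ℕ) (hl : l.Prime) (V : Finset ℕ)
    (hpos : ∀ v ∈ V, 0 < v) (v0 : ℕ) (hv0 : v0 ∈ V) (hd : l ∣ v0) :
    ∑ u ∈ part l 0 V, u < ∑ v ∈ V, v := by
  rw [tf_sum_part]
  calc ∑ v ∈ V.filter (fun v => v.factorization l = 0), v / l ^ 0
      = ∑ v ∈ V.filter (fun v => v.factorization l = 0), v := by simp
    _ < ∑ v ∈ V, v := by
        refine sum_lt_sum_of_subset (filter_subset _ _) hv0 ?_ (hpos v0 hv0)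
          (fun _ _ _ => Nat.zero_le _)
        rw [mem_filter]
        rintro ⟨_, h⟩
        have h2 := (hl.dvd_iff_one_le_factorization (hpos v0 hv0).ne').1 hd
        omega

private theorem tf_rps_mono (σ : ℝ) (u v : ℕ) (h : u ∣ v) (hv : 0 < v) : rps σ u ≤ rps σ v := by
  unfold rps
  refine sum_le_sum_of_subset_of_nonneg ?_ (fun p _ _ => Real.rpow_nonneg (Nat.cast_nonneg _) _)
  exact Nat.primeFactors_mono h hv.ne'

private theorem tf_part_pos (l i : ℕ) (V : Finset ℕ) (σ C1 : ℝ)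
    (hV : ∀ v ∈ V, 0 < v ∧ rps σ v ≤ C1) : ∀ u ∈ part l i V, 0 < u ∧ rps σ u ≤ C1 := by
  intro u hu
  unfold part at hu
  rw [mem_image] at hu
  obtain ⟨v, hv, rfl⟩ := hu
  rw [mem_filter] at hv
  have hd : l ^ i ∣ v := by
    have := Nat.ordProj_dvd v l
    rwa [hv.2] at this
  have hv0 := (hV v hv.1).1
  have hpos : 0 < v / l ^ i := Nat.div_pos (Nat.le_of_dvd hv0 hd) (Nat.pos_of_dvd_of_pos hd hv0)
  refine ⟨hpos, le_trans ?_ (hV v hv.1).2⟩
  exact tf_rps_mono σ _ _ (Nat.div_dvd_of_dvd hd) hv0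

/-- the density of `qp l i j Q` -/
private theorem tf_dens_qp (K σ : ℝ) (Q : Set (ℕ × ℕ)) (l i j : ℕ) (hl : 0 < l)
    (h : Dens K σ Q) : Dens (K * (l:ℝ) ^ (σ * |(i:ℝ) - j|)) σ (qp l i j Q) := by
  classical
  intro a b ha hb s t
  have h1 := h (a * l ^ (i - j)) (b * l ^ (j - i)) (Nat.mul_pos ha (pow_pos hl _))
    (Nat.mul_pos hb (pow_pos hl _)) s t
  have e1 : (box s t).filter (fun z => (a * z.1, b * z.2) ∈ qp l i j Q) =
      (box s t).filter (fun z => (a * l ^ (i - j) * z.1, b * l ^ (j - i) * z.2) ∈ Q) := by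
    refine filter_congr fun z _ => ?_
    unfold qp
    rw [Set.mem_ofPred_eq]
    have e2 : a * z.1 * l ^ (i - j) = a * l ^ (i - j) * z.1 := by ring
    have e3 : b * z.2 * l ^ (j - i) = b * l ^ (j - i) * z.2 := by ring
    rw [e2, e3]
  have hl0 : (0:ℝ) < l := by exact_mod_cast hl
  have e4 : (((a * l ^ (i - j) : ℕ) : ℝ) * ((b * l ^ (j - i) : ℕ) : ℝ)) ^ σ =
      (l:ℝ) ^ (σ * |(i:ℝ) - j|) * ((a:ℝ) * b) ^ σ := by
    have e5 : ((a * l ^ (i - j) : ℕ) : ℝ) * ((b * l ^ (j - i) : ℕ) : ℝ) =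
        (l:ℝ) ^ ((i - j) + (j - i)) * ((a:ℝ) * b) := by
      push_cast
      rw [pow_add]
      ring
    have e6 : ((((i - j) + (j - i) : ℕ)) : ℝ) = |(i:ℝ) - j| := by
      rcases le_total i j with hij | hij
      · have e7 : i - j = 0 := Nat.sub_eq_zero_of_le hij
        rw [e7, zero_add, Nat.cast_sub hij, abs_of_nonpos (by
          have : (i:ℝ) ≤ j := by exact_mod_cast hij
          linarith)]
        ring
      · have e7 : j - i = 0 := Nat.sub_eq_zero_of_le hij
        rw [e7, add_zero, Nat.cast_sub hij, abs_of_nonneg (by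
          have : (j:ℝ) ≤ i := by exact_mod_cast hij
          linarith)]
    rw [e5, Real.mul_rpow (by positivity) (by positivity), ← Real.rpow_natCast, e6,
      ← Real.rpow_mul hl0.le, mul_comm (|(i:ℝ) - j|) σ]
  rw [e1]
  refine h1.trans (le_of_eq ?_)
  rw [e4]
  ring

open Classical in
/-- the set over which `en` sums -/
private noncomputable def tf_set (P : Set ℕ) (V W : Finset ℕ) (L : ℝ) (Q : Set (ℕ × ℕ)) :
    Finset (ℕ × ℕ) :=
  (V ×ˢ W).filter (fun t => L / 2 < ((t.1.lcm t.2 : ℕ) : ℝ) ∧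
      ((t.1.lcm t.2 : ℕ) : ℝ) ≤ L ∧ (t.1 / t.1.gcd t.2, t.2 / t.1.gcd t.2) ∈ Q ∧
      ∀ p ∈ (t.1.gcd t.2).primeFactors, p ∈ P)

private theorem tf_en_eq (P : Set ℕ) (V W : Finset ℕ) (L : ℝ) (Q : Set (ℕ × ℕ)) :
    en P V W L Q = ∑ t ∈ tf_set P V W L Q, (t.1 : ℝ) * t.2 := rfl

private theorem tf_mem (P : Set ℕ) (V W : Finset ℕ) (L : ℝ) (Q : Set (ℕ × ℕ)) (t : ℕ × ℕ) :
    t ∈ tf_set P V W L Q ↔ (t.1 ∈ V ∧ t.2 ∈ W) ∧ L / 2 < ((t.1.lcm t.2 : ℕ) : ℝ) ∧
      ((t.1.lcm t.2 : ℕ) : ℝ) ≤ L ∧ (t.1 / t.1.gcd t.2, t.2 / t.1.gcd t.2) ∈ Q ∧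
      ∀ p ∈ (t.1.gcd t.2).primeFactors, p ∈ P := by
  classical
  unfold tf_set
  rw [mem_filter, mem_product]

private theorem tf_en_mono (P P' : Set ℕ) (h : P ⊆ P') (V W : Finset ℕ) (L : ℝ)
    (Q : Set (ℕ × ℕ)) : en P V W L Q ≤ en P' V W L Q := by
  rw [tf_en_eq, tf_en_eq]
  refine sum_le_sum_of_subset_of_nonneg (fun t ht => ?_) (fun _ _ _ => by positivity)
  rw [tf_mem] at ht ⊢
  exact ⟨ht.1, ht.2.1, ht.2.2.1, ht.2.2.2.1, fun p hp => h (ht.2.2.2.2 p hp)⟩

private theorem tf_sum_biUnion_le (R : Finset ℕ) (S : ℕ → Finset (ℕ × ℕ)) (f : ℕ × ℕ → ℝ)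
    (hf : ∀ a, 0 ≤ f a) : ∑ a ∈ R.biUnion S, f a ≤ ∑ i ∈ R, ∑ a ∈ S i, f a := by
  classical
  induction R using Finset.induction_on with
  | empty => simp
  | insert p R hp ih =>
    rw [biUnion_insert, sum_insert hp]
    have h1 := sum_union_inter (s₁ := S p) (s₂ := R.biUnion S) (f := f)
    have h2 : 0 ≤ ∑ a ∈ S p ∩ R.biUnion S, f a := sum_nonneg fun _ _ => hf _
    linarith

private theorem tf_en_split (P : Set ℕ) (R : Finset ℕ) (V W : Finset ℕ) (L : ℝ)
    (Q : Set (ℕ × ℕ))
    (hpos : ∀ v ∈ V, 0 < v) (hR : ∀ v ∈ V, ∀ p ∈ v.primeFactors, p ∈ P ∨ p ∈ R) :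
    en Set.univ V W L Q ≤ en P V W L Q +
      ∑ p ∈ R, en Set.univ (V.filter (fun v => p ∣ v)) (W.filter (fun w => p ∣ w)) L Q := by
  classical
  have hsub : tf_set Set.univ V W L Q ⊆ tf_set P V W L Q ∪ R.biUnion (fun p =>
      tf_set Set.univ (V.filter (fun v => p ∣ v)) (W.filter (fun w => p ∣ w)) L Q) := by
    intro t ht
    rw [tf_mem] at ht
    obtain ⟨⟨h1, h2⟩, ha, hb, h3, h4⟩ := ht
    rw [mem_union]
    by_cases hP : ∀ p ∈ (t.1.gcd t.2).primeFactors, p ∈ P
    · left
      rw [tf_mem]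
      exact ⟨⟨h1, h2⟩, ha, hb, h3, hP⟩
    · right
      push Not at hP
      obtain ⟨p, hp, hpP⟩ := hP
      have hpp := Nat.prime_of_mem_primeFactors hp
      have hpd := Nat.dvd_of_mem_primeFactors hp
      have hd1 : p ∣ t.1 := hpd.trans (Nat.gcd_dvd_left _ _)
      have hd2 : p ∣ t.2 := hpd.trans (Nat.gcd_dvd_right _ _)
      have hmem : p ∈ t.1.primeFactors := by
        rw [Nat.mem_primeFactors]
        exact ⟨hpp, hd1, (hpos _ h1).ne'⟩
      have hpR : p ∈ R := (hR _ h1 p hmem).resolve_left hpP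
      rw [mem_biUnion]
      refine ⟨p, hpR, ?_⟩
      rw [tf_mem, mem_filter, mem_filter]
      exact ⟨⟨⟨h1, hd1⟩, ⟨h2, hd2⟩⟩, ha, hb, h3, h4⟩
  have hnn : ∀ t : ℕ × ℕ, 0 ≤ (t.1 : ℝ) * t.2 := fun t => by positivity
  rw [tf_en_eq, tf_en_eq]
  refine (sum_le_sum_of_subset_of_nonneg hsub (fun _ _ _ => hnn _)).trans ?_
  have h1 := sum_union_inter (s₁ := tf_set P V W L Q) (s₂ := R.biUnion (fun p =>
      tf_set Set.univ (V.filter (fun v => p ∣ v)) (W.filter (fun w => p ∣ w)) L Q))
      (f := fun t : ℕ × ℕ => (t.1 : ℝ) * t.2)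
  have h2 : 0 ≤ ∑ t ∈ tf_set P V W L Q ∩ R.biUnion (fun p =>
      tf_set Set.univ (V.filter (fun v => p ∣ v)) (W.filter (fun w => p ∣ w)) L Q),
      (t.1 : ℝ) * t.2 := sum_nonneg fun _ _ => hnn _
  have h3 := tf_sum_biUnion_le R (fun p =>
      tf_set Set.univ (V.filter (fun v => p ∣ v)) (W.filter (fun w => p ∣ w)) L Q)
      (fun t : ℕ × ℕ => (t.1 : ℝ) * t.2) hnn
  have h4 : ∑ p ∈ R, ∑ t ∈ tf_set Set.univ (V.filter (fun v => p ∣ v))
      (W.filter (fun w => p ∣ w)) L Q, (t.1 : ℝ) * t.2 =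
      ∑ p ∈ R, en Set.univ (V.filter (fun v => p ∣ v)) (W.filter (fun w => p ∣ w)) L Q := rfl
  linarith

private theorem tf_ms_nonneg (V : Finset ℕ) : 0 ≤ ms V := sum_nonneg fun _ _ => Nat.cast_nonneg _

private theorem tf_ms_cast (V : Finset ℕ) : ms V = ((∑ v ∈ V, v : ℕ) : ℝ) := by
  unfold ms
  push_cast
  rfl

private theorem tf_ms_mono (V V' : Finset ℕ) (h : V' ⊆ V) : ms V' ≤ ms V :=
  sum_le_sum_of_subset_of_nonneg h (fun _ _ _ => Nat.cast_nonneg _)

private theorem tf_pot_nonneg (K L : ℝ) (hK : 0 ≤ K) (hL : 0 ≤ L) (V W : Finset ℕ) :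
    0 ≤ pot K L V W := by
  unfold pot
  have := tf_ms_nonneg V
  have := tf_ms_nonneg W
  positivity

/-- smaller sets -/
private theorem tf_pot_small (K L : ℝ) (hK : 0 ≤ K) (hL : 0 ≤ L)
    (V W V' W' : Finset ℕ) (ε : ℝ) (hε : 0 ≤ ε) (hV : ms V' ≤ ε * ms V)
    (hW : ms W' ≤ ε * ms W) :
    pot K L V' W' ≤ pot K L V W * ε ^ ((10:ℝ)/9) := by
  unfold pot
  have a1 := tf_ms_nonneg V
  have a2 := tf_ms_nonneg W
  have a3 := tf_ms_nonneg V'
  have a4 := tf_ms_nonneg W'
  have h1 : (ms V' * ms W') ^ ((5:ℝ)/9) ≤ (ε ^ 2 * (ms V * ms W)) ^ ((5:ℝ)/9) := by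
    refine Real.rpow_le_rpow (by positivity) ?_ (by norm_num)
    calc ms V' * ms W' ≤ (ε * ms V) * (ε * ms W) := mul_le_mul hV hW a4 (by positivity)
      _ = ε ^ 2 * (ms V * ms W) := by ring
  have h2 : (ε ^ 2) ^ ((5:ℝ)/9) = ε ^ ((10:ℝ)/9) := by
    rw [← Real.rpow_natCast, ← Real.rpow_mul hε]
    norm_num
  rw [Real.mul_rpow (x := ε ^ 2) (by positivity) (by positivity), h2] at h1
  calc K ^ ((4:ℝ)/9) * L ^ ((8:ℝ)/9) * (ms V' * ms W') ^ ((5:ℝ)/9)
      ≤ K ^ ((4:ℝ)/9) * L ^ ((8:ℝ)/9) *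
        (ε ^ ((10:ℝ)/9) * (ms V * ms W) ^ ((5:ℝ)/9)) := by
        have : 0 ≤ K ^ ((4:ℝ)/9) * L ^ ((8:ℝ)/9) := by positivity
        exact mul_le_mul_of_nonneg_left h1 this
    _ = _ := by ring

/-- comparison of the exponents -/
private theorem tf_pow_le (σ : ℝ) (hσ : σ ≤ 1/16) (n : ℕ) (hn : 1 ≤ n) :
    (n:ℝ) ^ (-(1 - σ)) ≤ (n:ℝ) ^ (-(15/16 : ℝ)) := by
  refine Real.rpow_le_rpow_of_exponent_le (by exact_mod_cast hn) ?_
  linarith

private theorem tf_tail (C2 : ℝ) (hC2 : 0 < C2) : ∃ z : ℕ,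
    (∀ n : ℕ, z < n → C2 * (n:ℝ) ^ (-(15/16 : ℝ)) ≤ 1 / 2) ∧
    ∀ s : Finset ℕ, (∀ n ∈ s, z < n) →
      ∑ n ∈ s, (C2 * (n:ℝ) ^ (-(15/16 : ℝ))) ^ ((10:ℝ)/9) ≤ 1 / 2 := by
  have hsum : Summable fun n : ℕ => (C2 * (n:ℝ) ^ (-(15/16 : ℝ))) ^ ((10:ℝ)/9) := by
    have h1 : Summable fun n : ℕ => C2 ^ ((10:ℝ)/9) * (1 / (n:ℝ) ^ ((25:ℝ)/24)) :=
      (Real.summable_one_div_nat_rpow.2 (by norm_num)).mul_left _
    refine h1.congr fun n => ?_
    rw [Real.mul_rpow hC2.le (Real.rpow_nonneg (Nat.cast_nonneg n) _),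
      ← Real.rpow_mul (Nat.cast_nonneg n), one_div, ← Real.rpow_neg (Nat.cast_nonneg n)]
    norm_num
  obtain ⟨s0, hs0⟩ := (summable_iff_vanishing_norm.1 hsum) (1/2) (by norm_num)
  have hlim : Filter.Tendsto (fun n : ℕ => C2 * (n:ℝ) ^ (-(15/16 : ℝ))) Filter.atTop
      (nhds (C2 * 0)) := by
    refine Filter.Tendsto.const_mul _ ?_
    exact (tendsto_rpow_neg_atTop (by norm_num : (0:ℝ) < 15/16)).comp
      tendsto_natCast_atTop_atTop
  rw [mul_zero] at hlim
  have hev : ∀ᶠ n : ℕ in Filter.atTop, C2 * (n:ℝ) ^ (-(15/16 : ℝ)) < 1 / 2 :=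
    hlim.eventually_lt_const (by norm_num)
  obtain ⟨z1, hz1⟩ := Filter.eventually_atTop.1 hev
  refine ⟨max z1 (s0.sup id), ?_, ?_⟩
  · intro n hn
    exact (hz1 n (by
      have := le_max_left z1 (s0.sup id)
      omega)).le
  · intro s hs
    have hdis : Disjoint s s0 := by
      rw [disjoint_left]
      intro n hn hn0
      have h1 := hs n hn
      have h2 : n ≤ s0.sup id := le_sup (f := id) hn0
      have h3 := le_max_right z1 (s0.sup id)
      omega
    have := hs0 s hdis
    exact (le_abs_self _).trans (by rw [← Real.norm_eq_abs]; exact this.le)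

private theorem tf_share_le (l m : ℕ) (V : Finset ℕ) (hV : 0 < ms V) : share l m V ≤ 1 := by
  unfold share
  rw [div_le_one hV]
  exact tf_ms_mono _ _ (filter_subset _ _)

theorem tree (h1 : StepF) (h2 : FinF) : TreeF := by
  classical
  obtain ⟨Cs, hCs, step⟩ := h1
  obtain ⟨Cf, hCf, fin⟩ := h2
  intro C1
  obtain ⟨C2, hC2⟩ : ∃ C2 : ℝ, C2 = 40 * Cs := ⟨_, rfl⟩
  have hC2pos : 0 < C2 := by rw [hC2]; positivity
  obtain ⟨z, hz, htail⟩ := tf_tail C2 hC2pos
  obtain ⟨E, hE⟩ : ∃ E : ℝ, E = 6 * Real.exp (Cf * (z + 2 * max C1 0)) := ⟨_, rfl⟩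
  have hEpos : 0 < E := by rw [hE]; positivity
  refine ⟨2 * E, by positivity, ?_⟩
  intro σ hσ0 hσ1
  -- the weights
  obtain ⟨ω, hω⟩ : ∃ ω : ℕ → ℝ, ω = fun n : ℕ => (n:ℝ) ^ (-(1 - σ)) := ⟨_, rfl⟩
  have hω0 : ∀ n, 0 ≤ ω n := fun n => by rw [hω]; exact Real.rpow_nonneg (Nat.cast_nonneg _) _
  have hωe : ∀ n : ℕ, (n:ℝ) ^ (-(1 - σ)) = ω n := fun n => by rw [hω]
  have hω1 : ∀ n : ℕ, 1 ≤ n → ω n ≤ 1 := by
    intro n hn
    rw [hω]
    exact Real.rpow_le_one_of_one_le_of_nonpos (by exact_mod_cast hn) (by linarith)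
  have hω15 : ∀ n : ℕ, 1 ≤ n → ω n ≤ (n:ℝ) ^ (-(15/16 : ℝ)) := by
    intro n hn
    rw [hω]
    exact tf_pow_le σ hσ1 n hn
  have main : ∀ (n : ℕ) (V W : Finset ℕ), ∑ v ∈ V, v + ∑ w ∈ W, w = n →
      ∀ (Q : Set (ℕ × ℕ)) (K L : ℝ), 0 ≤ K → 0 ≤ L →
      (∀ v ∈ V, 0 < v ∧ rps σ v ≤ C1) → (∀ w ∈ W, 0 < w ∧ rps σ w ≤ C1) →
      Dens K σ Q →
      en Set.univ V W L Q ≤ 2 * E * pot K L V W := by
    intro n
    induction n using Nat.strong_induction_on with
    | _ n ih =>
      intro V W hn Q K L hK hL hV hW hQ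
      have hVp : ∀ v ∈ V, 0 < v := fun v hv => (hV v hv).1
      have hWp : ∀ w ∈ W, 0 < w := fun w hw => (hW w hw).1
      have hb0 : 0 ≤ pot K L V W := tf_pot_nonneg K L hK hL V W
      rcases V.eq_empty_or_nonempty with hVe | hVne
      · have : en Set.univ V W L Q = 0 := by
          unfold en
          rw [hVe]
          simp
        rw [this]
        positivity
      rcases W.eq_empty_or_nonempty with hWe | hWne
      · have : en Set.univ V W L Q = 0 := by
          unfold en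
          rw [hWe]
          simp
        rw [this]
        positivity
      have hVc : 0 < ms V := by
        rw [tf_ms_cast]
        exact_mod_cast tf_sum_pos V hVne hVp
      have hWc : 0 < ms W := by
        rw [tf_ms_cast]
        exact_mod_cast tf_sum_pos W hWne hWp
      -- the step at a relevant prime
      obtain ⟨Rel, hRel⟩ : ∃ Rel : Finset ℕ, Rel = V.biUnion Nat.primeFactors := ⟨_, rfl⟩
      have hstep : ∀ l ∈ Rel, ∃ m : ℕ, en Set.univ V W L Q ≤ 2 * E * pot K L V W *
          (1 - (1/40) * ((1 - share l m V) + (1 - share l m W)) + Cs * ω l) := by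
        intro l hl
        rw [hRel, mem_biUnion] at hl
        obtain ⟨v0, hv0, hlv0⟩ := hl
        have hlp := Nat.prime_of_mem_primeFactors hlv0
        have hld := Nat.dvd_of_mem_primeFactors hlv0
        have hst := step l hlp σ hσ0 hσ1 Set.univ V W Q K L (2 * E) hK hL (by positivity) hVp hWp
        rw [hωe] at hst
        refine hst ?_
        intro i j
        have hlt : ∑ v ∈ part l i V, v + ∑ w ∈ part l j W, w < n := by
          rw [← hn]
          have a1 := tf_sum_part_le l i V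
          have a2 := tf_sum_part_le l j W
          rcases Nat.eq_zero_or_pos i with hi | hi
          · have := tf_sum_part_zero_lt l hlp V hVp v0 hv0 hld
            rw [← hi] at this
            omega
          · have := tf_sum_part_lt l i hlp hi V hVne hVp
            omega
        have hl0 : (0:ℝ) ≤ l := Nat.cast_nonneg _
        have h3 := ih _ hlt (part l i V) (part l j W) rfl (qp l i j Q)
          (K * (l:ℝ) ^ (σ * |(i:ℝ) - j|)) (L / (l:ℝ) ^ (max i j))
          (mul_nonneg hK (Real.rpow_nonneg hl0 _)) (div_nonneg hL (pow_nonneg hl0 _))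
          (tf_part_pos l i V σ C1 hV) (tf_part_pos l j W σ C1 hW)
          (tf_dens_qp K σ Q l i j hlp.pos hQ)
        exact (tf_en_mono _ _ (Set.subset_univ _) _ _ _ _).trans h3
      by_cases hgain : ∃ l ∈ Rel, ∃ m : ℕ, en Set.univ V W L Q ≤ 2 * E * pot K L V W *
          (1 - (1/40) * ((1 - share l m V) + (1 - share l m W)) + Cs * ω l) ∧
          (1 - (1/40) * ((1 - share l m V) + (1 - share l m W)) + Cs * ω l) ≤ 1
      · obtain ⟨l, _, m, h3, h4⟩ := hgain
        refine h3.trans ?_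
        calc 2 * E * pot K L V W * _ ≤ 2 * E * pot K L V W * 1 :=
              mul_le_mul_of_nonneg_left h4 (by positivity)
          _ = _ := mul_one _
      · push Not at hgain
        -- no gain: one valuation dominates
        have hdense : ∀ l ∈ Rel, ∃ m : ℕ,
            (1 - C2 * ω l) * ms V ≤ ms (V.filter (fun v => v.factorization l = m)) ∧
            (1 - C2 * ω l) * ms W ≤ ms (W.filter (fun v => v.factorization l = m)) := by
          intro l hl
          obtain ⟨m, hm⟩ := hstep l hl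
          have h4 := hgain l hl m hm
          have hv1 := tf_share_le l m V hVc
          have hw1 := tf_share_le l m W hWc
          have e1 : C2 * ω l = 40 * (Cs * ω l) := by rw [hC2]; ring
          refine ⟨m, ?_, ?_⟩
          · rw [← le_div_iff₀ hVc, e1]
            change 1 - 40 * (Cs * ω l) ≤ share l m V
            linarith
          · rw [← le_div_iff₀ hWc, e1]
            change 1 - 40 * (Cs * ω l) ≤ share l m W
            linarith
        choose! m hmV hmW using hdense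
        have hprime : ∀ l ∈ Rel, l.Prime := by
          intro l hl
          rw [hRel, mem_biUnion] at hl
          obtain ⟨v0, _, h⟩ := hl
          exact Nat.prime_of_mem_primeFactors h
        have hhalf : ∀ l : ℕ, z < l → C2 * ω l ≤ 1 / 2 := by
          intro l hl
          have h5 := hω15 l (by omega)
          exact (mul_le_mul_of_nonneg_left h5 hC2pos.le).trans (hz l hl)
        obtain ⟨P1, hP1d⟩ : ∃ P1 : Finset ℕ, P1 = Rel.filter (fun l => l ≤ z) := ⟨_, rfl⟩
        obtain ⟨P2, hP2d⟩ : ∃ P2 : Finset ℕ, P2 = Rel.filter (fun l => z < l ∧ 1 ≤ m l) :=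
          ⟨_, rfl⟩
        obtain ⟨P, hPd⟩ : ∃ P : Finset ℕ, P = P1 ∪ P2 := ⟨_, rfl⟩
        obtain ⟨R, hRd⟩ : ∃ R : Finset ℕ, R = Rel.filter (fun l => z < l ∧ m l = 0) := ⟨_, rfl⟩
        have memP1 : ∀ p, p ∈ P1 ↔ p ∈ Rel ∧ p ≤ z := fun p => by rw [hP1d, mem_filter]
        have memP2 : ∀ p, p ∈ P2 ↔ p ∈ Rel ∧ z < p ∧ 1 ≤ m p := fun p => by rw [hP2d, mem_filter]
        have memR : ∀ p, p ∈ R ↔ p ∈ Rel ∧ z < p ∧ m p = 0 := fun p => by rw [hRd, mem_filter]
        -- the sum of the weights over P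
        have hP1 : ∑ p ∈ P1, ω p ≤ z := by
          have a1 : ∑ p ∈ P1, ω p ≤ ∑ p ∈ P1, (1:ℝ) := by
            refine sum_le_sum fun p hp => ?_
            exact hω1 p (hprime p ((memP1 p).1 hp).1).one_le
          have a2 : P1 ⊆ Finset.Icc 1 z := by
            intro p hp
            rw [Finset.mem_Icc]
            exact ⟨(hprime p ((memP1 p).1 hp).1).one_le, ((memP1 p).1 hp).2⟩
          have a3 := card_le_card a2
          rw [Nat.card_Icc] at a3
          rw [sum_const, nsmul_eq_mul, mul_one] at a1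
          refine a1.trans ?_
          exact_mod_cast a3.trans (by omega)
        have hP2 : ∑ p ∈ P2, ω p ≤ 2 * max C1 0 := by
          -- double counting
          have a1 : ∑ v ∈ V, (v:ℝ) * rps σ v ≤ max C1 0 * ms V := by
            unfold ms
            rw [mul_sum]
            refine sum_le_sum fun v hv => ?_
            rw [mul_comm]
            exact mul_le_mul_of_nonneg_right ((hV v hv).2.trans (le_max_left _ _))
              (Nat.cast_nonneg _)
          have a2 : ∑ p ∈ P2, ω p * ms (V.filter (fun v => p ∣ v)) ≤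
              ∑ v ∈ V, (v:ℝ) * rps σ v := by
            have b1 : ∀ p ∈ P2, ω p * ms (V.filter (fun v => p ∣ v)) =
                ∑ v ∈ V, if p ∣ v then (v:ℝ) * ω p else 0 := by
              intro p _
              unfold ms
              rw [← sum_filter, mul_sum]
              exact sum_congr rfl fun v _ => mul_comm _ _
            rw [sum_congr rfl b1, sum_comm]
            refine sum_le_sum fun v hv => ?_
            rw [← sum_filter]
            unfold rps
            rw [mul_sum]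
            have b2 : ∀ p ∈ v.primeFactors, (v:ℝ) * (p:ℝ) ^ (-(1 - σ)) = (v:ℝ) * ω p :=
              fun p _ => by rw [hωe]
            rw [sum_congr rfl b2]
            refine sum_le_sum_of_subset_of_nonneg ?_
              (fun p _ _ => mul_nonneg (Nat.cast_nonneg _) (hω0 p))
            intro p hp
            rw [mem_filter] at hp
            rw [Nat.mem_primeFactors]
            exact ⟨hprime p ((memP2 p).1 hp.1).1, hp.2, (hVp v hv).ne'⟩
          have a3 : ∀ p ∈ P2, ms V / 2 ≤ ms (V.filter (fun v => p ∣ v)) := by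
            intro p hp
            have hp' := (memP2 p).1 hp
            have b1 := hmV p hp'.1
            have b2 := hhalf p hp'.2.1
            have b3 : ms (V.filter (fun v => v.factorization p = m p)) ≤
                ms (V.filter (fun v => p ∣ v)) := by
              refine tf_ms_mono _ _ fun v hv => ?_
              rw [mem_filter] at hv ⊢
              refine ⟨hv.1, ?_⟩
              rw [(hprime p hp'.1).dvd_iff_one_le_factorization (hVp v hv.1).ne', hv.2]
              exact hp'.2.2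
            have b4 : (1 / 2 : ℝ) * ms V ≤ (1 - C2 * ω p) * ms V :=
              mul_le_mul_of_nonneg_right (by linarith) hVc.le
            linarith
          have a4 : (∑ p ∈ P2, ω p) * (ms V / 2) ≤ max C1 0 * ms V := by
            rw [sum_mul]
            refine le_trans (sum_le_sum fun p hp => ?_) (a2.trans a1)
            exact mul_le_mul_of_nonneg_left (a3 p hp) (hω0 p)
          have a5 : (∑ p ∈ P2, ω p) * (ms V / 2) ≤ 2 * max C1 0 * (ms V / 2) := by
            refine a4.trans (le_of_eq ?_)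
            ring
          exact le_of_mul_le_mul_right a5 (by positivity)
        have hPsum : ∑ p ∈ P, Cf * (p:ℝ) ^ (-(1 - σ)) ≤ Cf * (z + 2 * max C1 0) := by
          have b1 : ∀ p ∈ P, Cf * (p:ℝ) ^ (-(1 - σ)) = Cf * ω p := fun p _ => by rw [hωe]
          have b2 : ∑ p ∈ P, ω p ≤ ∑ p ∈ P1, ω p + ∑ p ∈ P2, ω p := by
            have := sum_union_inter (s₁ := P1) (s₂ := P2) (f := ω)
            have b3 : 0 ≤ ∑ p ∈ P1 ∩ P2, ω p := sum_nonneg fun p _ => hω0 p
            rw [hPd]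
            linarith
          rw [sum_congr rfl b1, ← mul_sum]
          exact mul_le_mul_of_nonneg_left (by linarith) hCf.le
        have hPprime : ∀ p ∈ P, p.Prime := by
          intro p hp
          rw [hPd, mem_union] at hp
          rcases hp with hp | hp
          · exact hprime p ((memP1 p).1 hp).1
          · exact hprime p ((memP2 p).1 hp).1
        have hfin := fin σ hσ0 hσ1 P hPprime V W Q K L hK hL hVp hWp hQ
        have hfin2 : en (P : Set ℕ) V W L Q ≤ E * pot K L V W := by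
          refine hfin.trans (mul_le_mul_of_nonneg_right ?_ hb0)
          rw [hE]
          exact mul_le_mul_of_nonneg_left (Real.exp_le_exp.2 hPsum) (by norm_num)
        -- splitting
        have hsplit := tf_en_split (P : Set ℕ) R V W L Q hVp (by
          intro v hv p hp
          have hpR : p ∈ Rel := by
            rw [hRel, mem_biUnion]
            exact ⟨v, hv, hp⟩
          by_cases h5 : p ≤ z
          · left
            rw [hPd]
            exact mem_coe.2 (mem_union_left _ ((memP1 p).2 ⟨hpR, h5⟩))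
          · by_cases h6 : m p = 0
            · right
              exact (memR p).2 ⟨hpR, by omega, h6⟩
            · left
              rw [hPd]
              exact mem_coe.2 (mem_union_right _ ((memP2 p).2 ⟨hpR, by omega, by omega⟩)))
        have hRterm : ∀ p ∈ R,
            en Set.univ (V.filter (fun v => p ∣ v)) (W.filter (fun w => p ∣ w)) L Q ≤
              2 * E * pot K L V W * (C2 * (p:ℝ) ^ (-(15/16 : ℝ))) ^ ((10:ℝ)/9) := by
          intro p hp
          obtain ⟨hpR, hzp, hm0⟩ := (memR p).1 hp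
          have hpp := hprime p hpR
          have b2 := hhalf p hzp
          have hε0 : 0 ≤ C2 * ω p := mul_nonneg hC2pos.le (hω0 p)
          have hgen : ∀ U : Finset ℕ, (∀ u ∈ U, 0 < u) →
              (1 - C2 * ω p) * ms U ≤ ms (U.filter (fun v => v.factorization p = m p)) →
              ms (U.filter (fun v => p ∣ v)) ≤ C2 * ω p * ms U := by
            intro U hU hd
            have c1 : ms (U.filter (fun v => v.factorization p = m p)) ≤
                ms (U.filter (fun v => ¬ p ∣ v)) := by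
              refine tf_ms_mono _ _ fun v hv => ?_
              rw [mem_filter] at hv ⊢
              refine ⟨hv.1, ?_⟩
              rw [hpp.dvd_iff_one_le_factorization (hU v hv.1).ne', hv.2, hm0]
              norm_num
            have c2 : ms (U.filter (fun v => p ∣ v)) + ms (U.filter (fun v => ¬ p ∣ v)) = ms U :=
              sum_filter_add_sum_filter_not U (fun v => p ∣ v) (fun v => (v:ℝ))
            linarith
          have hVs := hgen V hVp (hmV p hpR)
          have hWs := hgen W hWp (hmW p hpR)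
          have hsumlt : ∑ v ∈ V.filter (fun v => p ∣ v), v < ∑ v ∈ V, v := by
            have h7 : ms (V.filter (fun v => p ∣ v)) < ms V := by
              have : C2 * ω p * ms V ≤ 1 / 2 * ms V := mul_le_mul_of_nonneg_right b2 hVc.le
              linarith
            rw [tf_ms_cast, tf_ms_cast] at h7
            exact_mod_cast h7
          have hsumle : ∑ w ∈ W.filter (fun w => p ∣ w), w ≤ ∑ w ∈ W, w :=
            sum_le_sum_of_subset (filter_subset _ _)
          have h7 := ih _ (by rw [← hn]; omega) (V.filter (fun v => p ∣ v))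
            (W.filter (fun w => p ∣ w)) rfl Q K L hK hL
            (fun v hv => hV v (mem_filter.1 hv).1) (fun w hw => hW w (mem_filter.1 hw).1) hQ
          refine h7.trans ?_
          have h8 := tf_pot_small K L hK hL V W (V.filter (fun v => p ∣ v))
            (W.filter (fun w => p ∣ w)) (C2 * ω p) hε0 hVs hWs
          have h9 : (C2 * ω p) ^ ((10:ℝ)/9) ≤ (C2 * (p:ℝ) ^ (-(15/16 : ℝ))) ^ ((10:ℝ)/9) :=
            Real.rpow_le_rpow hε0 (mul_le_mul_of_nonneg_left (hω15 p hpp.one_le) hC2pos.le)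
              (by norm_num)
          calc 2 * E * pot K L (V.filter (fun v => p ∣ v)) (W.filter (fun w => p ∣ w))
              ≤ 2 * E * (pot K L V W * (C2 * ω p) ^ ((10:ℝ)/9)) :=
                mul_le_mul_of_nonneg_left h8 (by positivity)
            _ = 2 * E * pot K L V W * (C2 * ω p) ^ ((10:ℝ)/9) := by ring
            _ ≤ _ := mul_le_mul_of_nonneg_left h9 (by positivity)
        have hRsum : ∑ p ∈ R,
            en Set.univ (V.filter (fun v => p ∣ v)) (W.filter (fun w => p ∣ w)) L Q ≤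
              E * pot K L V W := by
          refine (sum_le_sum hRterm).trans ?_
          rw [← mul_sum]
          have h9 := htail R (fun p hp => ((memR p).1 hp).2.1)
          calc 2 * E * pot K L V W * ∑ p ∈ R, (C2 * (p:ℝ) ^ (-(15/16 : ℝ))) ^ ((10:ℝ)/9)
              ≤ 2 * E * pot K L V W * (1 / 2) := mul_le_mul_of_nonneg_left h9 (by positivity)
            _ = E * pot K L V W := by ring
        linarith
  intro V W Q K L hK hL hV hW hQ
  exact main _ V W rfl Q K L hK hL hV hW hQ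

end Pool.Agent.MP_0863b8.F
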