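import Pool.Agent.Work.MP_0863b8_nt.F.Node
import Pool.Agent.Work.MP_0863b8_nt.Bd.B03
import Pool.Agent.Work.MP_0863b8_nt.F.Base
import Pool.Agent.Work.MP_0863b8_nt.F.Tree
import Pool.Agent.Work.MP_0863b8_nt.F.Rot
import Pool.Agent.Work.MP_0863b8_nt.F.BadDens
import Pool.Agent.Work.MP_0863b8_nt.F.DensQQ
import Pool.Agent.Work.MP_0863b8_nt.F.PairType
import Pool.Agent.Work.MP_0863b8_nt.F.Rps
import Pool.Agent.Work.MP_0863b8_nt.F.NewPair
import Pool.Agent.Work.MP_0863b8_nt.F.EarlySum
import Pool.Agent.Work.MP_0863b8_nt.F.LateSum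
import Pool.Agent.Work.MP_0863b8_nt.F.Second
import Pool.Agent.Work.MP_0863b8_nt.F.Main

namespace Pool.Agent.MP_0863b8.F

theorem mainF : MainF := by
  have hs : StepF := step node split
  have ht : TreeF := tree hs (fin hs base)
  have hr : FastRot := fastRot slowRot
  have hp : NewPair := newPair ht (densQQ (badDens slowRot hr)) pairType rpsStmt
  exact main (second hp earlySum lateSum)

end Pool.Agent.MP_0863b8.F
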