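import Pool.Agent.Work.MP_0863b8_nt.Bd.B01

/-!
MP_0863b8_nt, item F9b: summation over the late classes.
-/

namespace Pool.Agent.MP_0863b8.F

open Pool.Agent.MP_0863b8

/-- Hölder's inequality in the form used -/
theorem ls_holder (S : Finset ℕ) (f : ℕ → ℝ) (hf : ∀ s, 0 ≤ f s) :
    ∑ s ∈ S, (f s) ^ ((4:ℝ)/7) ≤ (S.card : ℝ) ^ ((3:ℝ)/7) * (∑ s ∈ S, f s) ^ ((4:ℝ)/7) := by
  have hpq : Real.HolderConjugate ((7:ℝ)/4) ((7:ℝ)/3) :=
    Real.holderConjugate_iff.mpr ⟨by norm_num, by norm_num⟩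
  have h := Real.inner_le_Lp_mul_Lq_of_nonneg S hpq (f := fun s => (f s) ^ ((4:ℝ)/7))
    (g := fun _ => (1:ℝ)) (fun i _ => Real.rpow_nonneg (hf i) _) (fun _ _ => zero_le_one)
  have e1 : ∀ s, ((f s) ^ ((4:ℝ)/7)) ^ ((7:ℝ)/4) = f s := by
    intro s
    rw [← Real.rpow_mul (hf s)]
    norm_num
  simp only [mul_one, e1, Real.one_rpow, Finset.sum_const, nsmul_eq_mul, one_div, inv_div] at h
  rw [mul_comm]
  exact h

/-- inner sum over `m` -/
theorem ls_inner (N s k : ℕ) :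
    ∑ m ∈ (Finset.range N).filter (fun m => m + s ≤ k ∧ k ^ 12 * 2 ^ (m + s) ≤ 2 * 2 ^ k),
      (2:ℝ) ^ (((m:ℝ) + s - k) / 7) ≤
      2 * ((k:ℝ) + 1) ^ (-((6:ℝ)/7)) * (1 - (2:ℝ) ^ (-(1/14 : ℝ)))⁻¹ := by
  have hk1 : (0:ℝ) < (k:ℝ) + 1 := by positivity
  have h1 : ∀ m ∈ (Finset.range N).filter
      (fun m => m + s ≤ k ∧ k ^ 12 * 2 ^ (m + s) ≤ 2 * 2 ^ k),
      (2:ℝ) ^ (((m:ℝ) + s - k) / 7) ≤
        2 * ((k:ℝ) + 1) ^ (-((6:ℝ)/7)) * ((2:ℝ) ^ (-(1/14 : ℝ))) ^ (k - s - m) := by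
    intro m hm
    rw [Finset.mem_filter] at hm
    obtain ⟨-, hms, hk12⟩ := hm
    set j := k - s - m with hj
    have hjk : k = m + s + j := by omega
    have e1 : (2:ℝ) ^ (((m:ℝ) + s - k) / 7) =
        ((2:ℝ) ^ (-(1/14 : ℝ))) ^ j * ((2:ℝ) ^ (-(1/14 : ℝ))) ^ j := by
      rw [← pow_add]
      apply cs_pow
      rw [hjk]
      push_cast
      ring
    rw [e1]
    refine mul_le_mul_of_nonneg_right ?_ (pow_nonneg (cs_pos _).le _)
    have h2 : k ^ 12 ≤ 2 * 2 ^ j := by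
      have h3 : 2 * 2 ^ k = 2 * 2 ^ j * 2 ^ (m + s) := by
        rw [hjk]
        ring
      rw [h3] at hk12
      exact Nat.le_of_mul_le_mul_right hk12 (by positivity)
    have h4 : (k + 1) ^ 12 ≤ 2 ^ (13 + j) := by
      rcases Nat.eq_zero_or_pos k with h0 | h0
      · rw [h0]
        exact Nat.one_le_pow _ _ (by norm_num)
      · calc (k + 1) ^ 12 ≤ (2 * k) ^ 12 := Nat.pow_le_pow_left (by omega) 12
          _ = 2 ^ 12 * k ^ 12 := by ring
          _ ≤ 2 ^ 12 * (2 * 2 ^ j) := Nat.mul_le_mul_left _ h2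
          _ = 2 ^ (13 + j) := by rw [pow_add]; ring
    have h5 : ((k:ℝ) + 1) ^ ((6:ℝ)/7) ≤ (2:ℝ) ^ ((13 + (j:ℝ)) / 14) := by
      have h6 : (((k:ℝ) + 1) ^ (12:ℕ)) ≤ (2:ℝ) ^ (13 + j) := by exact_mod_cast h4
      have h7 := Real.rpow_le_rpow (by positivity) h6 (by norm_num : (0:ℝ) ≤ 1/14)
      rw [← Real.rpow_natCast, ← Real.rpow_natCast, ← Real.rpow_mul hk1.le,
        ← Real.rpow_mul (by norm_num)] at h7
      refine le_trans (le_of_eq ?_) (h7.trans (le_of_eq ?_))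
      · congr 1
        norm_num
      · congr 1
        push_cast
        ring
    have h8 : (2:ℝ) ^ ((13 + (j:ℝ)) / 14) * ((2:ℝ) ^ (-(1/14 : ℝ))) ^ j ≤ 2 := by
      rw [← Real.rpow_natCast, ← Real.rpow_mul (by norm_num), ← Real.rpow_add (by norm_num)]
      calc (2:ℝ) ^ ((13 + (j:ℝ)) / 14 + -(1/14) * (j:ℝ)) ≤ 2 ^ (1:ℝ) :=
            Real.rpow_le_rpow_of_exponent_le (by norm_num) (by ring_nf; norm_num)
        _ = 2 := Real.rpow_one 2
    have h9 : ((k:ℝ) + 1) ^ ((6:ℝ)/7) * ((k:ℝ) + 1) ^ (-((6:ℝ)/7)) = 1 := by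
      rw [← Real.rpow_add hk1]
      norm_num
    have hr0 : 0 ≤ ((2:ℝ) ^ (-(1/14 : ℝ))) ^ j := pow_nonneg (cs_pos _).le _
    have hq0 : 0 ≤ ((k:ℝ) + 1) ^ (-((6:ℝ)/7)) := Real.rpow_nonneg hk1.le _
    calc ((2:ℝ) ^ (-(1/14 : ℝ))) ^ j
        = ((k:ℝ) + 1) ^ (-((6:ℝ)/7)) * (((k:ℝ) + 1) ^ ((6:ℝ)/7) *
          ((2:ℝ) ^ (-(1/14 : ℝ))) ^ j) := by
          rw [← mul_assoc, mul_comm (((k:ℝ) + 1) ^ (-((6:ℝ)/7))), h9, one_mul]
      _ ≤ ((k:ℝ) + 1) ^ (-((6:ℝ)/7)) * ((2:ℝ) ^ ((13 + (j:ℝ)) / 14) *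
          ((2:ℝ) ^ (-(1/14 : ℝ))) ^ j) :=
          mul_le_mul_of_nonneg_left (mul_le_mul_of_nonneg_right h5 hr0) hq0
      _ ≤ ((k:ℝ) + 1) ^ (-((6:ℝ)/7)) * 2 := mul_le_mul_of_nonneg_left h8 hq0
      _ = 2 * ((k:ℝ) + 1) ^ (-((6:ℝ)/7)) := mul_comm _ _
  refine (Finset.sum_le_sum h1).trans ?_
  rw [← Finset.mul_sum]
  refine mul_le_mul_of_nonneg_left ?_ (by positivity)
  apply cs_geom_image _ (cs_pos _).le (cs_lt_one _ (by norm_num)) _ (fun m => k - s - m)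
  intro a ha b hb hab
  rw [Finset.mem_coe, Finset.mem_filter] at ha hb
  simp only at hab
  omega

/-- the loss `(j + 1) ^ (3/7)` is absorbed -/
theorem ls_abs (j : ℕ) : ((j:ℝ) + 1) ^ ((3:ℝ)/7) * ((2:ℝ) ^ (-(3/7 : ℝ))) ^ j ≤
    2 * ((2:ℝ) ^ (-(3/14 : ℝ))) ^ j := by
  have h1 : ∀ j : ℕ, (j + 1) ^ 2 ≤ 4 * 2 ^ j := by
    intro j
    induction j with
    | zero => norm_num
    | succ n ih =>
      rw [pow_succ 2 n]
      rcases Nat.lt_or_ge n 2 with h | h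
      · interval_cases n <;> norm_num
      · nlinarith
  have hj1 : (0:ℝ) < (j:ℝ) + 1 := by positivity
  have h2 : ((j:ℝ) + 1) ^ ((3:ℝ)/7) ≤ 2 * (2:ℝ) ^ (3 * (j:ℝ) / 14) := by
    have h3 : ((j:ℝ) + 1) ^ (2:ℕ) ≤ 4 * 2 ^ j := by exact_mod_cast h1 j
    have h4 := Real.rpow_le_rpow (by positivity) h3 (by norm_num : (0:ℝ) ≤ 3/14)
    rw [← Real.rpow_natCast, ← Real.rpow_mul hj1.le, Real.mul_rpow (by norm_num) (by positivity),
      ← Real.rpow_natCast, ← Real.rpow_mul (by norm_num)] at h4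
    have h5 : (4:ℝ) ^ ((3:ℝ)/14) ≤ 2 := by
      calc (4:ℝ) ^ ((3:ℝ)/14) ≤ 4 ^ ((1:ℝ)/2) :=
            Real.rpow_le_rpow_of_exponent_le (by norm_num) (by norm_num)
        _ = 2 := by
            rw [← Real.sqrt_eq_rpow, show (4:ℝ) = 2 ^ 2 by norm_num]
            exact Real.sqrt_sq (by norm_num)
    have e1 : ((2:ℕ):ℝ) * (3/14) = 3/7 := by norm_num
    have e2 : (j:ℝ) * (3/14) = 3 * (j:ℝ) / 14 := by ring
    rw [e1, e2] at h4
    refine h4.trans ?_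
    exact mul_le_mul_of_nonneg_right h5 (Real.rpow_nonneg (by norm_num) _)
  have hq : 0 ≤ ((2:ℝ) ^ (-(3/7 : ℝ))) ^ j := pow_nonneg (cs_pos _).le _
  refine (mul_le_mul_of_nonneg_right h2 hq).trans (le_of_eq ?_)
  rw [mul_assoc]
  congr 1
  rw [← Real.rpow_natCast, ← Real.rpow_natCast, ← Real.rpow_mul (by norm_num),
    ← Real.rpow_mul (by norm_num), ← Real.rpow_add (by norm_num)]
  congr 1
  ring

theorem lateSum : LateSum := by
  set G : ℝ := (1 - (2:ℝ) ^ (-(1/14 : ℝ)))⁻¹ with hG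
  set H : ℝ := (1 - (2:ℝ) ^ (-(3/14 : ℝ)))⁻¹ with hH
  have hGpos : 0 < G := by
    rw [hG]
    have := cs_lt_one (1/14) (by norm_num)
    exact inv_pos.mpr (by linarith)
  have hHpos : 0 < H := by
    rw [hH]
    have := cs_lt_one (3/14) (by norm_num)
    exact inv_pos.mpr (by linarith)
  refine ⟨4 * G * H, by positivity, ?_⟩
  intro N x hx hsum
  set X : ℕ → ℝ := fun k => ∑ s ∈ Finset.range N, x k s with hX
  have hX0 : ∀ k, 0 ≤ X k := fun k => Finset.sum_nonneg (fun s _ => hx k s)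
  have hX1 : ∀ k ∈ Finset.range N, X k ≤ 1 := fun k hk =>
    (Finset.single_le_sum (f := X) (fun i _ => hX0 i) hk).trans hsum
  set Y : ℕ → ℝ := fun k => ∑ s ∈ (Finset.range N).filter (fun s => s ≤ k),
    (x k s) ^ ((4:ℝ)/7) with hY
  have hY0 : ∀ k, 0 ≤ Y k := fun k => Finset.sum_nonneg (fun s _ => Real.rpow_nonneg (hx k s) _)
  have hYX : ∀ k, Y k ≤ ((k:ℝ) + 1) ^ ((3:ℝ)/7) * (X k) ^ ((4:ℝ)/7) := by
    intro k
    refine (ls_holder _ _ (hx k)).trans ?_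
    have hc : (((Finset.range N).filter (fun s => s ≤ k)).card : ℝ) ≤ (k:ℝ) + 1 := by
      have : ((Finset.range N).filter (fun s => s ≤ k)).card ≤ (Finset.range (k + 1)).card := by
        apply Finset.card_le_card
        intro s hs
        rw [Finset.mem_filter] at hs
        rw [Finset.mem_range]
        omega
      rw [Finset.card_range] at this
      exact_mod_cast this
    have hs : ∑ s ∈ (Finset.range N).filter (fun s => s ≤ k), x k s ≤ X k :=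
      Finset.sum_le_sum_of_subset_of_nonneg (Finset.filter_subset _ _) (fun s _ _ => hx k s)
    refine mul_le_mul (Real.rpow_le_rpow (Nat.cast_nonneg _) hc (by norm_num))
      (Real.rpow_le_rpow (Finset.sum_nonneg (fun s _ => hx k s)) hs (by norm_num))
      (Real.rpow_nonneg (Finset.sum_nonneg (fun s _ => hx k s)) _)
      (Real.rpow_nonneg (by positivity) _)
  -- the inner three sums
  have hin : ∀ k ∈ Finset.range N, ∀ l ∈ (Finset.range N).filter (fun l => k ≤ l),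
      ∑ s ∈ (Finset.range N).filter (fun s => s ≤ k),
      ∑ t ∈ (Finset.range N).filter (fun t => t ≤ l),
      ∑ m ∈ (Finset.range N).filter (fun m => m + s ≤ k ∧ k ^ 12 * 2 ^ (m + s) ≤ 2 * 2 ^ k),
        (2:ℝ) ^ (((m:ℝ) + s - k) / 7) * (2:ℝ) ^ (-(3 * ((l:ℝ) - k)) / 7) *
          (x k s * x l t) ^ ((4:ℝ)/7) ≤
      2 * G * (((2:ℝ) ^ (-(3/14 : ℝ))) ^ (l - k) * X k +
        ((2:ℝ) ^ (-(3/14 : ℝ))) ^ (l - k) * X l) := by
    intro k hk l hl
    rw [Finset.mem_filter] at hl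
    have hq : (2:ℝ) ^ (-(3 * ((l:ℝ) - k)) / 7) = ((2:ℝ) ^ (-(3/7 : ℝ))) ^ (l - k) := by
      apply cs_pow
      rw [Nat.cast_sub hl.2]
      ring
    rw [hq]
    set Q : ℝ := ((2:ℝ) ^ (-(3/7 : ℝ))) ^ (l - k) with hQ
    have hQ0 : 0 ≤ Q := by rw [hQ]; exact pow_nonneg (cs_pos _).le _
    set R : ℝ := ((2:ℝ) ^ (-(3/14 : ℝ))) ^ (l - k) with hR
    have hR0 : 0 ≤ R := by rw [hR]; exact pow_nonneg (cs_pos _).le _
    set e : ℝ := ((k:ℝ) + 1) ^ (-((6:ℝ)/7)) with he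
    have hk1 : (0:ℝ) < (k:ℝ) + 1 := by positivity
    have he0 : 0 ≤ e := Real.rpow_nonneg hk1.le _
    have h1 : ∀ s ∈ (Finset.range N).filter (fun s => s ≤ k),
        ∀ t ∈ (Finset.range N).filter (fun t => t ≤ l),
        ∑ m ∈ (Finset.range N).filter (fun m => m + s ≤ k ∧ k ^ 12 * 2 ^ (m + s) ≤ 2 * 2 ^ k),
        (2:ℝ) ^ (((m:ℝ) + s - k) / 7) * Q * (x k s * x l t) ^ ((4:ℝ)/7) ≤
        2 * e * G * Q * ((x k s) ^ ((4:ℝ)/7) * (x l t) ^ ((4:ℝ)/7)) := by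
      intro s _ t _
      rw [← Finset.sum_mul, ← Finset.sum_mul, Real.mul_rpow (hx k s) (hx l t)]
      apply mul_le_mul_of_nonneg_right _
        (mul_nonneg (Real.rpow_nonneg (hx k s) _) (Real.rpow_nonneg (hx l t) _))
      exact mul_le_mul_of_nonneg_right (ls_inner N s k) hQ0
    refine (Finset.sum_le_sum (fun s hs => Finset.sum_le_sum (fun t ht => h1 s hs t ht))).trans ?_
    have h2 : ∑ s ∈ (Finset.range N).filter (fun s => s ≤ k),
        ∑ t ∈ (Finset.range N).filter (fun t => t ≤ l),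
        2 * e * G * Q * ((x k s) ^ ((4:ℝ)/7) * (x l t) ^ ((4:ℝ)/7)) =
        2 * e * G * Q * (Y k * Y l) := by
      rw [hY]
      simp only
      rw [Finset.sum_mul_sum, Finset.mul_sum]
      apply Finset.sum_congr rfl
      intro s _
      rw [Finset.mul_sum]
    rw [h2]
    -- Hölder
    set j := l - k with hj
    have hlj : (l:ℝ) + 1 ≤ ((k:ℝ) + 1) * ((j:ℝ) + 1) := by
      have : l + 1 ≤ (k + 1) * (j + 1) := by
        have : l = k + j := by omega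
        rw [this]
        nlinarith
      exact_mod_cast this
    have hl37 : ((l:ℝ) + 1) ^ ((3:ℝ)/7) ≤
        ((k:ℝ) + 1) ^ ((3:ℝ)/7) * ((j:ℝ) + 1) ^ ((3:ℝ)/7) := by
      rw [← Real.mul_rpow hk1.le (by positivity)]
      exact Real.rpow_le_rpow (by positivity) hlj (by norm_num)
    have hYY : Y k * Y l ≤ ((k:ℝ) + 1) ^ ((6:ℝ)/7) * ((j:ℝ) + 1) ^ ((3:ℝ)/7) *
        ((X k) ^ ((4:ℝ)/7) * (X l) ^ ((4:ℝ)/7)) := by
      have a1 := hYX k
      have a2 := (hYX l).trans (mul_le_mul_of_nonneg_right hl37 (Real.rpow_nonneg (hX0 l) _))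
      have a3 := mul_le_mul a1 a2 (hY0 l) (mul_nonneg (Real.rpow_nonneg hk1.le _)
        (Real.rpow_nonneg (hX0 k) _))
      refine a3.trans (le_of_eq ?_)
      have a4 : ((k:ℝ) + 1) ^ ((6:ℝ)/7) = ((k:ℝ) + 1) ^ ((3:ℝ)/7) * ((k:ℝ) + 1) ^ ((3:ℝ)/7) := by
        rw [← Real.rpow_add hk1]
        norm_num
      rw [a4]
      ring
    have hXX : (X k) ^ ((4:ℝ)/7) * (X l) ^ ((4:ℝ)/7) ≤ (X k + X l) / 2 := by
      rw [← Real.mul_rpow (hX0 k) (hX0 l)]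
      have b0 : 0 ≤ X k * X l := mul_nonneg (hX0 k) (hX0 l)
      have b1 : X k * X l ≤ 1 := by
        have := mul_le_mul (hX1 k hk) (hX1 l hl.1) (hX0 l) zero_le_one
        linarith
      calc (X k * X l) ^ ((4:ℝ)/7) ≤ (X k * X l) ^ ((1:ℝ)/2) := by
            rcases b0.lt_or_eq with h | h
            · exact Real.rpow_le_rpow_of_exponent_ge h b1 (by norm_num)
            · rw [← h, Real.zero_rpow (by norm_num), Real.zero_rpow (by norm_num)]
        _ = Real.sqrt (X k * X l) := (Real.sqrt_eq_rpow _).symm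
        _ ≤ (X k + X l) / 2 := by
            apply Real.sqrt_le_iff.mpr
            refine ⟨by have := hX0 k; have := hX0 l; linarith, ?_⟩
            nlinarith [sq_nonneg (X k - X l)]
    have hXX0 : 0 ≤ (X k) ^ ((4:ℝ)/7) * (X l) ^ ((4:ℝ)/7) :=
      mul_nonneg (Real.rpow_nonneg (hX0 k) _) (Real.rpow_nonneg (hX0 l) _)
    have he1 : e * ((k:ℝ) + 1) ^ ((6:ℝ)/7) = 1 := by
      rw [he, ← Real.rpow_add hk1]
      norm_num
    have habs : ((j:ℝ) + 1) ^ ((3:ℝ)/7) * Q ≤ 2 * R := ls_abs j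
    calc 2 * e * G * Q * (Y k * Y l)
        ≤ 2 * e * G * Q * (((k:ℝ) + 1) ^ ((6:ℝ)/7) * ((j:ℝ) + 1) ^ ((3:ℝ)/7) *
          ((X k) ^ ((4:ℝ)/7) * (X l) ^ ((4:ℝ)/7))) :=
          mul_le_mul_of_nonneg_left hYY (by positivity)
      _ = 2 * G * (e * ((k:ℝ) + 1) ^ ((6:ℝ)/7)) * (((j:ℝ) + 1) ^ ((3:ℝ)/7) * Q) *
          ((X k) ^ ((4:ℝ)/7) * (X l) ^ ((4:ℝ)/7)) := by ring
      _ = 2 * G * (((j:ℝ) + 1) ^ ((3:ℝ)/7) * Q) *
          ((X k) ^ ((4:ℝ)/7) * (X l) ^ ((4:ℝ)/7)) := by rw [he1, mul_one]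
      _ ≤ 2 * G * (2 * R) * ((X k) ^ ((4:ℝ)/7) * (X l) ^ ((4:ℝ)/7)) := by
          refine mul_le_mul_of_nonneg_right ?_ hXX0
          exact mul_le_mul_of_nonneg_left habs (by positivity)
      _ ≤ 2 * G * (2 * R) * ((X k + X l) / 2) := mul_le_mul_of_nonneg_left hXX (by positivity)
      _ = 2 * G * (R * X k + R * X l) := by ring
  refine (Finset.sum_le_sum (fun k hk => Finset.sum_le_sum (fun l hl => hin k hk l hl))).trans ?_
  have h5 : ∑ k ∈ Finset.range N, ∑ l ∈ (Finset.range N).filter (fun l => k ≤ l),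
      2 * G * (((2:ℝ) ^ (-(3/14 : ℝ))) ^ (l - k) * X k +
        ((2:ℝ) ^ (-(3/14 : ℝ))) ^ (l - k) * X l) =
      2 * G * (
        ∑ k ∈ Finset.range N, ∑ l ∈ (Finset.range N).filter (fun l => k ≤ l),
          ((2:ℝ) ^ (-(3/14 : ℝ))) ^ (l - k) * X k +
        ∑ k ∈ Finset.range N, ∑ l ∈ (Finset.range N).filter (fun l => k ≤ l),
          ((2:ℝ) ^ (-(3/14 : ℝ))) ^ (l - k) * X l) := by
    rw [← Finset.sum_add_distrib, Finset.mul_sum]
    apply Finset.sum_congr rfl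
    intro k _
    rw [← Finset.sum_add_distrib, Finset.mul_sum]
  rw [h5]
  have h6 : ∑ k ∈ Finset.range N, ∑ l ∈ (Finset.range N).filter (fun l => k ≤ l),
          ((2:ℝ) ^ (-(3/14 : ℝ))) ^ (l - k) * X k ≤ H := by
    have : ∀ k ∈ Finset.range N, ∑ l ∈ (Finset.range N).filter (fun l => k ≤ l),
          ((2:ℝ) ^ (-(3/14 : ℝ))) ^ (l - k) * X k ≤ H * X k := by
      intro k _
      rw [← Finset.sum_mul]
      apply mul_le_mul_of_nonneg_right _ (hX0 k)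
      apply cs_geom_image _ (cs_pos _).le (cs_lt_one _ (by norm_num)) _ (fun l => l - k)
      intro a ha b hb hab
      rw [Finset.mem_coe, Finset.mem_filter] at ha hb
      simp only at hab
      omega
    refine (Finset.sum_le_sum this).trans ?_
    rw [← Finset.mul_sum]
    calc H * ∑ k ∈ Finset.range N, X k ≤ H * 1 := mul_le_mul_of_nonneg_left hsum hHpos.le
      _ = H := mul_one H
  have h7 : ∑ k ∈ Finset.range N, ∑ l ∈ (Finset.range N).filter (fun l => k ≤ l),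
          ((2:ℝ) ^ (-(3/14 : ℝ))) ^ (l - k) * X l ≤ H := by
    have hsw : ∑ k ∈ Finset.range N, ∑ l ∈ (Finset.range N).filter (fun l => k ≤ l),
          ((2:ℝ) ^ (-(3/14 : ℝ))) ^ (l - k) * X l =
        ∑ l ∈ Finset.range N, ∑ k ∈ (Finset.range N).filter (fun k => k ≤ l),
          ((2:ℝ) ^ (-(3/14 : ℝ))) ^ (l - k) * X l := by
      simp only [Finset.sum_filter]
      rw [Finset.sum_comm]
    rw [hsw]
    have : ∀ l ∈ Finset.range N, ∑ k ∈ (Finset.range N).filter (fun k => k ≤ l),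
          ((2:ℝ) ^ (-(3/14 : ℝ))) ^ (l - k) * X l ≤ H * X l := by
      intro l _
      rw [← Finset.sum_mul]
      apply mul_le_mul_of_nonneg_right _ (hX0 l)
      apply cs_geom_image _ (cs_pos _).le (cs_lt_one _ (by norm_num)) _ (fun k => l - k)
      intro a ha b hb hab
      rw [Finset.mem_coe, Finset.mem_filter] at ha hb
      simp only at hab
      omega
    refine (Finset.sum_le_sum this).trans ?_
    rw [← Finset.mul_sum]
    calc H * ∑ k ∈ Finset.range N, X k ≤ H * 1 := mul_le_mul_of_nonneg_left hsum hHpos.le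
      _ = H := mul_one H
  calc _ ≤ 2 * G * (H + H) := mul_le_mul_of_nonneg_left (add_le_add h6 h7) (by positivity)
    _ = 4 * G * H := by ring

end Pool.Agent.MP_0863b8.F
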