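import Pool.Agent.Work.MP_0863b8_nt.Bd.B01

/-! The node inequality for the exponent `5/9`. -/

set_option autoImplicit false

namespace Pool.Agent.MP_0863b8.F

open Finset

private theorem nd_geo_aux (ρ : ℝ) (h0 : 0 ≤ ρ) (h1 : ρ < 1) (s : Finset ℕ) :
    ∑ k ∈ s, ρ ^ (k + 1) ≤ ρ / (1 - ρ) := by
  have hs : Summable fun k : ℕ => ρ ^ (k + 1) := by
    simp only [pow_succ]
    exact (summable_geometric_of_lt_one h0 h1).mul_right ρ
  refine (hs.sum_le_tsum s (fun i _ => by positivity)).trans (le_of_eq ?_)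
  simp only [pow_succ]
  rw [tsum_mul_right, tsum_geometric_of_lt_one h0 h1]
  ring

/-- sum of `ρ ^ |i - j|` over `j ≠ i` -/
private theorem nd_geo (ρ : ℝ) (h0 : 0 ≤ ρ) (h1 : ρ < 1) (i N : ℕ) :
    ∑ j ∈ range N, (if j = i then 0 else ρ ^ Nat.dist i j) ≤ 2 * (ρ / (1 - ρ)) := by
  have e1 : ∀ j ∈ range N, (if j = i then 0 else ρ ^ Nat.dist i j) =
      (if j < i then ρ ^ (i - j - 1 + 1) else 0) + (if i < j then ρ ^ (j - i - 1 + 1) else 0) := by
    intro j _
    rcases lt_trichotomy j i with h | h | h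
    · rw [if_neg h.ne, if_pos h, if_neg (by omega), add_zero]
      congr 1
      unfold Nat.dist
      omega
    · rw [if_pos h, if_neg (by omega), if_neg (by omega), add_zero]
    · rw [if_neg h.ne', if_neg (by omega), if_pos h, zero_add]
      congr 1
      unfold Nat.dist
      omega
  rw [sum_congr rfl e1, sum_add_distrib, ← sum_filter, ← sum_filter, two_mul]
  refine add_le_add ?_ ?_
  · have hinj : Set.InjOn (fun j => i - j - 1) ((range N).filter fun j => j < i) := by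
      intro a ha b hb hab
      simp only [coe_filter, Set.mem_ofPred_eq] at ha hb
      simp only at hab
      omega
    rw [← sum_image (f := fun k => ρ ^ (k + 1)) hinj]
    exact nd_geo_aux ρ h0 h1 _
  · have hinj : Set.InjOn (fun j => j - i - 1) ((range N).filter fun j => i < j) := by
      intro a ha b hb hab
      simp only [coe_filter, Set.mem_ofPred_eq] at ha hb
      simp only at hab
      omega
    rw [← sum_image (f := fun k => ρ ^ (k + 1)) hinj]
    exact nd_geo_aux ρ h0 h1 _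

private theorem nd_dist_cast (i j : ℕ) : |(i : ℝ) - j| = ((Nat.dist i j : ℕ) : ℝ) := by
  rcases le_total i j with h | h
  · rw [Nat.dist_eq_sub_of_le h, Nat.cast_sub h, abs_sub_comm, abs_of_nonneg]
    exact sub_nonneg.2 (by exact_mod_cast h)
  · rw [Nat.dist_eq_sub_of_le_right h, Nat.cast_sub h, abs_of_nonneg]
    exact sub_nonneg.2 (by exact_mod_cast h)

private theorem nd_bern (w a : ℝ) (hw : 0 ≤ w) (hw1 : w ≤ 1) (ha : a ≤ 1) :
    (1 - a) ^ w ≤ 1 - w * a := by
  have h := Real.geom_mean_le_arith_mean2_weighted (w₁ := w) (w₂ := 1 - w) (p₁ := 1 - a)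
    (p₂ := 1) hw (by linarith) (by linarith) zero_le_one (by ring)
  rw [Real.one_rpow, mul_one] at h
  linarith

/-- the off-diagonal terms -/
private theorem nd_pair (t a b : ℝ) (ht : 0 < t) (ha : 0 ≤ a) (hb : 0 ≤ b) (hb1 : b ≤ 1)
    (hat : a ≤ t) :
    (a * b) ^ ((5:ℝ)/9) ≤ t ^ ((5:ℝ)/9) / 2 * (a / t + b) := by
  have h1 : (a * b) ^ ((5:ℝ)/9) = t ^ ((5:ℝ)/9) * ((a / t) ^ ((5:ℝ)/9) * b ^ ((5:ℝ)/9)) := by
    rw [← Real.mul_rpow (by positivity) hb, ← Real.mul_rpow ht.le (by positivity)]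
    congr 1
    field_simp
  have h2 : (a / t) ^ ((5:ℝ)/9) ≤ Real.sqrt (a / t) := by
    rw [Real.sqrt_eq_rpow]
    exact Real.rpow_le_rpow_of_exponent_ge' (by positivity) ((div_le_one ht).2 hat)
      (by norm_num) (by norm_num)
  have h3 : b ^ ((5:ℝ)/9) ≤ Real.sqrt b := by
    rw [Real.sqrt_eq_rpow]
    exact Real.rpow_le_rpow_of_exponent_ge' hb hb1 (by norm_num) (by norm_num)
  have h4 : Real.sqrt (a / t) * Real.sqrt b ≤ (a / t + b) / 2 := by
    have e1 := Real.sq_sqrt (show 0 ≤ a / t by positivity)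
    have e2 := Real.sq_sqrt hb
    nlinarith [sq_nonneg (Real.sqrt (a / t) - Real.sqrt b)]
  rw [h1]
  have h5 : (a / t) ^ ((5:ℝ)/9) * b ^ ((5:ℝ)/9) ≤ (a / t + b) / 2 :=
    (mul_le_mul h2 h3 (by positivity) (Real.sqrt_nonneg _)).trans h4
  calc t ^ ((5:ℝ)/9) * ((a / t) ^ ((5:ℝ)/9) * b ^ ((5:ℝ)/9))
      ≤ t ^ ((5:ℝ)/9) * ((a / t + b) / 2) :=
        mul_le_mul_of_nonneg_left h5 (Real.rpow_nonneg ht.le _)
    _ = t ^ ((5:ℝ)/9) / 2 * (a / t + b) := by ring

/-- the off-diagonal sum -/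
private theorem nd_off (ρ : ℝ) (h0 : 0 ≤ ρ) (h1 : ρ < 1) (N : ℕ) (x y : ℕ → ℝ)
    (hx : ∀ i, 0 ≤ x i) (hy : ∀ i, 0 ≤ y i) (hX : ∑ i ∈ range N, x i ≤ 1)
    (hY : ∑ i ∈ range N, y i ≤ 1) (m : ℕ) (hm : m < N) (t : ℝ) (ht0 : 0 ≤ t)
    (htx : 1 - x m ≤ t) (hty : 1 - y m ≤ t) :
    ∑ i ∈ range N, ∑ j ∈ range N,
      (if j = i then 0 else ρ ^ Nat.dist i j * (x i * y j) ^ ((5:ℝ)/9)) ≤
      4 * (ρ / (1 - ρ)) * t ^ ((5:ℝ)/9) := by
  have hxle : ∀ i ∈ range N, x i ≤ 1 := fun i hi =>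
    (single_le_sum (fun j _ => hx j) hi).trans hX
  have hyle : ∀ i ∈ range N, y i ≤ 1 := fun i hi =>
    (single_le_sum (fun j _ => hy j) hi).trans hY
  have hmr : m ∈ range N := mem_range.2 hm
  have hxe : ∑ i ∈ (range N).erase m, x i ≤ t := by
    have := add_sum_erase (range N) x hmr
    linarith
  have hye : ∑ i ∈ (range N).erase m, y i ≤ t := by
    have := add_sum_erase (range N) y hmr
    linarith
  have hxt : ∀ i ∈ range N, i ≠ m → x i ≤ t := fun i hi him =>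
    (single_le_sum (fun j _ => hx j) (mem_erase.2 ⟨him, hi⟩)).trans hxe
  have hyt : ∀ i ∈ range N, i ≠ m → y i ≤ t := fun i hi him =>
    (single_le_sum (fun j _ => hy j) (mem_erase.2 ⟨him, hi⟩)).trans hye
  have hρ : 0 ≤ ρ / (1 - ρ) := div_nonneg h0 (by linarith)
  rcases ht0.eq_or_lt with ht | ht
  · -- t = 0: everything vanishes
    have hz : ∑ i ∈ range N, ∑ j ∈ range N,
        (if j = i then 0 else ρ ^ Nat.dist i j * (x i * y j) ^ ((5:ℝ)/9)) = 0 := by
      refine sum_eq_zero fun i hi => sum_eq_zero fun j hj => ?_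
      split_ifs with hij
      · rfl
      · have hxy : x i * y j = 0 := by
          by_cases him : i = m
          · have hjm : j ≠ m := fun h => hij (h.trans him.symm)
            have := hyt j hj hjm
            rw [le_antisymm (this.trans ht.symm.le) (hy j), mul_zero]
          · have := hxt i hi him
            rw [le_antisymm (this.trans ht.symm.le) (hx i), zero_mul]
        rw [hxy, Real.zero_rpow (by norm_num), mul_zero]
    rw [hz]
    have := Real.rpow_nonneg ht0 ((5:ℝ)/9)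
    positivity
  · let u : ℕ → ℝ := fun i => x i + if i = m then 0 else x i / t
    let v : ℕ → ℝ := fun j => y j + if j = m then 0 else y j / t
    have hu0 : ∀ i, 0 ≤ u i := by
      intro i
      simp only [u]
      split_ifs
      · linarith [hx i]
      · have := hx i; positivity
    have hv0 : ∀ i, 0 ≤ v i := by
      intro i
      simp only [v]
      split_ifs
      · linarith [hy i]
      · have := hy i; positivity
    have hsumu : ∑ i ∈ range N, u i ≤ 2 := by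
      simp only [u]
      rw [sum_add_distrib]
      have : ∑ i ∈ range N, (if i = m then 0 else x i / t) = (∑ i ∈ (range N).erase m, x i) / t := by
        rw [sum_div, ← sum_erase_add _ _ hmr, if_pos rfl, add_zero]
        refine sum_congr rfl fun i hi => ?_
        rw [if_neg (mem_erase.1 hi).1]
      rw [this]
      have h2 : (∑ i ∈ (range N).erase m, x i) / t ≤ 1 := (div_le_one ht).2 hxe
      linarith
    have hsumv : ∑ i ∈ range N, v i ≤ 2 := by
      simp only [v]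
      rw [sum_add_distrib]
      have : ∑ i ∈ range N, (if i = m then 0 else y i / t) = (∑ i ∈ (range N).erase m, y i) / t := by
        rw [sum_div, ← sum_erase_add _ _ hmr, if_pos rfl, add_zero]
        refine sum_congr rfl fun i hi => ?_
        rw [if_neg (mem_erase.1 hi).1]
      rw [this]
      have h2 : (∑ i ∈ (range N).erase m, y i) / t ≤ 1 := (div_le_one ht).2 hye
      linarith
    set T : ℝ := t ^ ((5:ℝ)/9) / 2 with hT
    have hT0 : 0 ≤ T := by rw [hT]; positivity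
    have hpt : ∀ i ∈ range N, ∀ j ∈ range N,
        (if j = i then 0 else ρ ^ Nat.dist i j * (x i * y j) ^ ((5:ℝ)/9)) ≤
        T * ((if j = i then 0 else ρ ^ Nat.dist i j) * u i +
          (if i = j then 0 else ρ ^ Nat.dist j i) * v j) := by
      intro i hi j hj
      by_cases hij : j = i
      · rw [if_pos hij, if_pos hij, if_pos hij.symm]
        simp
      · rw [if_neg hij, if_neg hij, if_neg (Ne.symm hij), Nat.dist_comm j i]
        have hp : (x i * y j) ^ ((5:ℝ)/9) ≤ T * (u i + v j) := by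
          by_cases him : i = m
          · have hjm : j ≠ m := fun h => hij (h.trans him.symm)
            have h3 := nd_pair t (y j) (x i) ht (hy j) (hx i) (hxle i hi) (hyt j hj hjm)
            rw [mul_comm (y j)] at h3
            refine h3.trans (mul_le_mul_of_nonneg_left ?_ hT0)
            simp only [u, v]
            rw [if_pos him, if_neg hjm]
            linarith [hy j]
          · have h3 := nd_pair t (x i) (y j) ht (hx i) (hy j) (hyle j hj) (hxt i hi him)
            refine h3.trans (mul_le_mul_of_nonneg_left ?_ hT0)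
            have h4 : y j ≤ v j := by
              simp only [v]
              split_ifs
              · linarith
              · have := hy j
                have h5 : 0 ≤ y j / t := by positivity
                linarith
            simp only [u]
            rw [if_neg him]
            linarith [hx i]
        calc ρ ^ Nat.dist i j * (x i * y j) ^ ((5:ℝ)/9) ≤ ρ ^ Nat.dist i j * (T * (u i + v j)) :=
              mul_le_mul_of_nonneg_left hp (pow_nonneg h0 _)
          _ = T * (ρ ^ Nat.dist i j * u i + ρ ^ Nat.dist i j * v j) := by ring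
    refine (sum_le_sum fun i hi => sum_le_sum fun j hj => hpt i hi j hj).trans ?_
    have e1 : ∑ i ∈ range N, ∑ j ∈ range N, T * ((if j = i then 0 else ρ ^ Nat.dist i j) * u i +
          (if i = j then 0 else ρ ^ Nat.dist j i) * v j) =
        T * (∑ i ∈ range N, (∑ j ∈ range N, (if j = i then 0 else ρ ^ Nat.dist i j)) * u i +
          ∑ j ∈ range N, (∑ i ∈ range N, (if i = j then 0 else ρ ^ Nat.dist j i)) * v j) := by
      simp only [← mul_sum]
      congr 1
      simp only [sum_add_distrib]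
      congr 1
      · refine sum_congr rfl fun i _ => ?_
        rw [sum_mul]
      · rw [sum_comm]
        refine sum_congr rfl fun i _ => ?_
        rw [sum_mul]
    rw [e1]
    have h5 : ∑ i ∈ range N, (∑ j ∈ range N, (if j = i then 0 else ρ ^ Nat.dist i j)) * u i ≤
        2 * (ρ / (1 - ρ)) * 2 := by
      calc _ ≤ ∑ i ∈ range N, 2 * (ρ / (1 - ρ)) * u i :=
            sum_le_sum fun i _ => mul_le_mul_of_nonneg_right (nd_geo ρ h0 h1 i N) (hu0 i)
        _ = 2 * (ρ / (1 - ρ)) * ∑ i ∈ range N, u i := by rw [mul_sum]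
        _ ≤ _ := mul_le_mul_of_nonneg_left hsumu (by positivity)
    have h6 : ∑ j ∈ range N, (∑ i ∈ range N, (if i = j then 0 else ρ ^ Nat.dist j i)) * v j ≤
        2 * (ρ / (1 - ρ)) * 2 := by
      calc _ ≤ ∑ i ∈ range N, 2 * (ρ / (1 - ρ)) * v i :=
            sum_le_sum fun i _ => mul_le_mul_of_nonneg_right (nd_geo ρ h0 h1 i N) (hv0 i)
        _ = 2 * (ρ / (1 - ρ)) * ∑ i ∈ range N, v i := by rw [mul_sum]
        _ ≤ _ := mul_le_mul_of_nonneg_left hsumv (by positivity)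
    calc T * _ ≤ T * (2 * (ρ / (1 - ρ)) * 2 + 2 * (ρ / (1 - ρ)) * 2) :=
          mul_le_mul_of_nonneg_left (add_le_add h5 h6) hT0
      _ = 4 * (ρ / (1 - ρ)) * t ^ ((5:ℝ)/9) := by rw [hT]; ring

/-- the diagonal sum -/
private theorem nd_diag (N : ℕ) (x y : ℕ → ℝ)
    (hx : ∀ i, 0 ≤ x i) (hy : ∀ i, 0 ≤ y i) (hX : ∑ i ∈ range N, x i ≤ 1)
    (hY : ∑ i ∈ range N, y i ≤ 1) (m : ℕ) (hmax : ∀ i ∈ range N, x i * y i ≤ x m * y m) :
    ∑ i ∈ range N, (x i * y i) ^ ((5:ℝ)/9) ≤ ((x m + y m) / 2) ^ ((1:ℝ)/9) := by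
  have h1 : ∀ i ∈ range N, (x i * y i) ^ ((5:ℝ)/9) ≤
      ((x m + y m) / 2) ^ ((1:ℝ)/9) * (Real.sqrt (x i) * Real.sqrt (y i)) := by
    intro i hi
    have hxy : 0 ≤ x i * y i := mul_nonneg (hx i) (hy i)
    have e1 : (x i * y i) ^ ((5:ℝ)/9) = (x i * y i) ^ ((1:ℝ)/18) * Real.sqrt (x i * y i) := by
      rw [Real.sqrt_eq_rpow, ← Real.rpow_add_of_nonneg hxy (by norm_num) (by norm_num)]
      norm_num
    have e2 : (x i * y i) ^ ((1:ℝ)/18) ≤ ((x m + y m) / 2) ^ ((1:ℝ)/9) := by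
      have e3 : (x i * y i) ^ ((1:ℝ)/18) ≤ (((x m + y m) / 2) ^ 2) ^ ((1:ℝ)/18) := by
        refine Real.rpow_le_rpow hxy ((hmax i hi).trans ?_) (by norm_num)
        nlinarith [sq_nonneg (x m - y m)]
      refine e3.trans (le_of_eq ?_)
      have h2 : 0 ≤ (x m + y m) / 2 := by linarith [hx m, hy m]
      rw [← Real.rpow_natCast, ← Real.rpow_mul h2]
      norm_num
    rw [e1, Real.sqrt_mul (hx i)]
    exact mul_le_mul_of_nonneg_right e2 (by positivity)
  refine (sum_le_sum h1).trans ?_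
  rw [← mul_sum]
  have h2 := Real.sum_sqrt_mul_sqrt_le (range N) hx hy
  have h3 : Real.sqrt (∑ i ∈ range N, x i) * Real.sqrt (∑ i ∈ range N, y i) ≤ 1 := by
    have a1 : Real.sqrt (∑ i ∈ range N, x i) ≤ 1 := Real.sqrt_le_one.2 hX
    have a2 : Real.sqrt (∑ i ∈ range N, y i) ≤ 1 := Real.sqrt_le_one.2 hY
    exact mul_le_one₀ a1 (Real.sqrt_nonneg _) a2
  have h4 : 0 ≤ ((x m + y m) / 2) ^ ((1:ℝ)/9) :=
    Real.rpow_nonneg (by linarith [hx m, hy m]) _
  calc _ ≤ ((x m + y m) / 2) ^ ((1:ℝ)/9) * 1 :=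
        mul_le_mul_of_nonneg_left (h2.trans h3) h4
    _ = _ := mul_one _

/-- final numerical estimate -/
private theorem nd_final (s K l σ : ℝ) (hs0 : 0 ≤ s) (hs1 : s ≤ 1)
    (hK : 0 ≤ K) (hl : 0 < l) :
    (1 - s) ^ ((1:ℝ)/9) + K * l ^ (-((4/9) * (1 - σ))) * s ^ ((5:ℝ)/9) ≤
    1 - (1/20) * s + ((4/9) * (K ^ ((9:ℝ)/4) * 10 ^ ((5:ℝ)/4))) * l ^ (-(1 - σ)) := by
  have h2 := nd_bern (1/9) s (by norm_num) (by norm_num) hs1
  have h4 := Real.geom_mean_le_arith_mean2_weighted (w₁ := 5/9) (w₂ := 4/9)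
    (p₁ := s / 10) (p₂ := K ^ ((9:ℝ)/4) * 10 ^ ((5:ℝ)/4) * l ^ (-(1 - σ))) (by norm_num)
    (by norm_num) (by positivity) (by positivity) (by norm_num)
  have h5 : (s / 10) ^ ((5:ℝ)/9) * (K ^ ((9:ℝ)/4) * 10 ^ ((5:ℝ)/4) * l ^ (-(1 - σ))) ^ ((4:ℝ)/9) =
      K * l ^ (-((4/9) * (1 - σ))) * s ^ ((5:ℝ)/9) := by
    rw [Real.div_rpow hs0 (by norm_num), Real.mul_rpow (by positivity) (by positivity),
      Real.mul_rpow (by positivity) (by positivity), ← Real.rpow_mul hK,
      ← Real.rpow_mul (by norm_num : (0:ℝ) ≤ 10), ← Real.rpow_mul hl.le]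
    have a1 : (9:ℝ)/4 * (4/9) = 1 := by norm_num
    have a2 : (5:ℝ)/4 * (4/9) = 5/9 := by norm_num
    have a3 : -(1 - σ) * (4/9) = -((4/9) * (1 - σ)) := by ring
    rw [a1, a2, a3, Real.rpow_one]
    have b1 : (10:ℝ) ^ ((5:ℝ)/9) ≠ 0 := by positivity
    field_simp
  rw [h5] at h4
  nlinarith

theorem node : NodeF := by
  set ρ0 : ℝ := (2:ℝ) ^ (-((4/9) * (15/16)) : ℝ) with hρ0
  have hρ01 : ρ0 < 1 := Real.rpow_lt_one_of_one_lt_of_neg (by norm_num) (by norm_num)
  have hρ00 : 0 < ρ0 := by rw [hρ0]; positivity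
  set K : ℝ := 4 / (1 - ρ0) * 2 ^ ((5:ℝ)/9) with hK
  have hK0 : 0 < K := by
    rw [hK]
    have : 0 < 1 - ρ0 := by linarith
    positivity
  refine ⟨(4/9) * (K ^ ((9:ℝ)/4) * 10 ^ ((5:ℝ)/4)), by positivity, ?_⟩
  intro l σ hl hσ0 hσ1 N hN x y hx hy hX hY
  have hl0 : 0 < l := by linarith
  set ρ : ℝ := l ^ (-((4/9) * (1 - σ))) with hρ
  have hρpos : 0 < ρ := by rw [hρ]; positivity
  have hρle : ρ ≤ ρ0 := by
    rw [hρ, hρ0]
    calc l ^ (-((4/9) * (1 - σ))) ≤ (2:ℝ) ^ (-((4/9) * (1 - σ))) :=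
          Real.rpow_le_rpow_of_nonpos (by norm_num) hl (by nlinarith)
      _ ≤ _ := Real.rpow_le_rpow_of_exponent_le (by norm_num) (by nlinarith)
  have hρ1 : ρ < 1 := hρle.trans_lt hρ01
  obtain ⟨m, hm, hmax⟩ := exists_max_image (range N) (fun i => x i * y i) ⟨0, mem_range.2 hN⟩
  have hmN : m < N := mem_range.1 hm
  refine ⟨m, hmN, ?_⟩
  have hxm : x m ≤ 1 := (single_le_sum (fun j _ => hx j) hm).trans hX
  have hym : y m ≤ 1 := (single_le_sum (fun j _ => hy j) hm).trans hY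
  set s : ℝ := ((1 - x m) + (1 - y m)) / 2 with hs
  have hs0 : 0 ≤ s := by rw [hs]; linarith
  have hs1 : s ≤ 1 := by rw [hs]; linarith [hx m, hy m]
  -- pointwise comparison
  have hw : ∀ i j : ℕ, l ^ (-((4/9) * (1 - σ) * |(i:ℝ) - j|)) = ρ ^ Nat.dist i j := by
    intro i j
    rw [nd_dist_cast, hρ, ← Real.rpow_natCast, ← Real.rpow_mul hl0.le]
    congr 1
    ring
  have hpt : ∀ i ∈ range N, ∀ j ∈ range N,
      l ^ (-((4/9) * (1 - σ) * |(i:ℝ) - j|)) * (x i * y j) ^ ((5:ℝ)/9) ≤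
      (if j = i then (x i * y i) ^ ((5:ℝ)/9) else 0) +
      (if j = i then 0 else ρ ^ Nat.dist i j * (x i * y j) ^ ((5:ℝ)/9)) := by
    intro i hi j hj
    rw [hw]
    by_cases hij : j = i
    · subst hij
      rw [if_pos rfl, if_pos rfl, Nat.dist_self]
      simp
    · rw [if_neg hij, if_neg hij, zero_add]
  refine (sum_le_sum fun i hi => sum_le_sum fun j hj => hpt i hi j hj).trans ?_
  simp only [sum_add_distrib]
  have e1 : ∑ i ∈ range N, ∑ j ∈ range N,
      (if j = i then (x i * y i) ^ ((5:ℝ)/9) else 0) =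
      ∑ i ∈ range N, (x i * y i) ^ ((5:ℝ)/9) := by
    refine sum_congr rfl fun i hi => ?_
    rw [sum_ite_eq' (range N) i (fun _ => (x i * y i) ^ ((5:ℝ)/9)), if_pos hi]
  rw [e1]
  have hdiag := nd_diag N x y hx hy hX hY m hmax
  have hoff := nd_off ρ hρpos.le hρ1 N x y hx hy hX hY m hmN (2 * s) (by linarith)
    (by rw [hs]; linarith) (by rw [hs]; linarith)
  have e2 : (x m + y m) / 2 = 1 - s := by rw [hs]; ring
  rw [e2] at hdiag
  have h2 : 4 * (ρ / (1 - ρ)) * (2 * s) ^ ((5:ℝ)/9) ≤ K * ρ * s ^ ((5:ℝ)/9) := by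
    rw [Real.mul_rpow (by norm_num) hs0, hK]
    have a1 : ρ / (1 - ρ) ≤ ρ / (1 - ρ0) :=
      div_le_div_of_nonneg_left hρpos.le (by linarith) (by linarith)
    have a2 : 0 ≤ (2:ℝ) ^ ((5:ℝ)/9) * s ^ ((5:ℝ)/9) := by positivity
    calc 4 * (ρ / (1 - ρ)) * ((2:ℝ) ^ ((5:ℝ)/9) * s ^ ((5:ℝ)/9))
        ≤ 4 * (ρ / (1 - ρ0)) * ((2:ℝ) ^ ((5:ℝ)/9) * s ^ ((5:ℝ)/9)) :=
          mul_le_mul_of_nonneg_right (by linarith) a2
      _ = 4 / (1 - ρ0) * 2 ^ ((5:ℝ)/9) * ρ * s ^ ((5:ℝ)/9) := by ring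
  have hfin := nd_final s K l σ hs0 hs1 hK0.le hl0
  rw [← hρ] at hfin
  have e3 : (1:ℝ)/40 * ((1 - x m) + (1 - y m)) = 1/20 * s := by rw [hs]; ring
  rw [e3]
  have h6 := hoff.trans h2
  linarith

end Pool.Agent.MP_0863b8.F
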